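import Pool.Agent.WPD.Stmts

/-!
# The global flow of a Lipschitz vector field
-/

set_option autoImplicit false

open Metric Set Filter Topology
open scoped NNReal

namespace Pool.Agent.WPD

namespace GFAux

variable {E : Type*} [NormedAddCommGroup E] [NormedSpace ℝ E]

/-- solutions of differential inequalities with linear growth -/
lemma bound_right {B T : ℝ} {γ g : ℝ → E} (hg : ∀ t ∈ Ioo (-T) T, HasDerivAt γ (g t) t)
    (hb : ∀ t ∈ Ioo (-T) T, ‖g t‖ ≤ B * ‖γ t‖) {t : ℝ} (h0 : 0 ≤ t) (ht : t < T) :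
    ‖γ t‖ ≤ ‖γ 0‖ * Real.exp (B * t) := by
  have h1 : ∀ s ∈ Icc 0 t, s ∈ Ioo (-T) T := fun s hs => ⟨by linarith [hs.1], by linarith [hs.2]⟩
  have h := norm_le_gronwallBound_of_norm_deriv_right_le (f := γ) (f' := g) (δ := ‖γ 0‖) (K := B)
    (ε := 0) (a := 0) (b := t)
    (fun s hs => (hg s (h1 s hs)).continuousAt.continuousWithinAt)
    (fun s hs => (hg s (h1 s ⟨hs.1, hs.2.le⟩)).hasDerivWithinAt) le_rfl
    (fun s hs => by rw [add_zero]; exact hb s (h1 s ⟨hs.1, hs.2.le⟩)) t ⟨h0, le_rfl⟩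
  rwa [gronwallBound_ε0, sub_zero] at h

lemma bound {B T : ℝ} {γ g : ℝ → E} (hg : ∀ t ∈ Ioo (-T) T, HasDerivAt γ (g t) t)
    (hb : ∀ t ∈ Ioo (-T) T, ‖g t‖ ≤ B * ‖γ t‖) {t : ℝ} (ht : t ∈ Ioo (-T) T) :
    ‖γ t‖ ≤ ‖γ 0‖ * Real.exp (B * |t|) := by
  rcases le_total 0 t with h0 | h0
  · rw [abs_of_nonneg h0]
    exact bound_right hg hb h0 ht.2
  · rw [abs_of_nonpos h0]
    have h1 := bound_right (B := B) (T := T) (γ := fun s => γ (-s)) (g := fun s => -g (-s))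
      (fun s hs => by
        have h2 := hg (-s) ⟨by linarith [hs.2], by linarith [hs.1]⟩
        have h3 := HasDerivAt.scomp s h2 (hasDerivAt_neg s)
        rw [neg_one_smul] at h3
        exact h3)
      (fun s hs => by
        rw [norm_neg]
        exact hb (-s) ⟨by linarith [hs.2], by linarith [hs.1]⟩) (t := -t) (by linarith)
      (by linarith [ht.1])
    simpa using h1

/-- the hypotheses on the field -/
structure Fld (f : E → E) (B : ℝ) (P : ℝ → E → E) : Prop where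
  nn : 0 ≤ B
  lin : ∀ x, ‖f x‖ ≤ B * ‖x‖
  lip : ∀ R : ℝ, 0 ≤ R → ∃ K : ℝ≥0, LipschitzOnWith K f (closedBall 0 R)
  Pl : ∀ R : ℝ, 0 ≤ R → LipschitzWith 2 (P R)
  Pid : ∀ R x, ‖x‖ ≤ R → P R x = x
  Pb : ∀ R x, 0 ≤ R → ‖P R x‖ ≤ R
  Ple : ∀ R x, 0 ≤ R → ‖P R x‖ ≤ ‖x‖

variable {f : E → E} {B : ℝ} {P : ℝ → E → E}

/-- uniqueness -/
lemma uniq (h : Fld f B P) {T : ℝ} (hT : 0 < T) {γ δ : ℝ → E}
    (hγ : ∀ t ∈ Ioo (-T) T, HasDerivAt γ (f (γ t)) t)
    (hδ : ∀ t ∈ Ioo (-T) T, HasDerivAt δ (f (δ t)) t) (h0 : γ 0 = δ 0) :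
    EqOn γ δ (Ioo (-T) T) := by
  set R := ‖γ 0‖ * Real.exp (B * T) with hR
  have hR0 : 0 ≤ R := by positivity
  obtain ⟨K, hK⟩ := h.lip R hR0
  have hb : ∀ {β : ℝ → E}, (∀ t ∈ Ioo (-T) T, HasDerivAt β (f (β t)) t) → β 0 = γ 0 →
      ∀ t ∈ Ioo (-T) T, β t ∈ closedBall (0 : E) R := by
    intro β hβ h1 t ht
    rw [mem_closedBall_zero_iff]
    refine (bound hβ (fun s _ => h.lin _) ht).trans ?_
    rw [h1, hR]
    refine mul_le_mul_of_nonneg_left (Real.exp_le_exp.2 ?_) (norm_nonneg _)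
    refine mul_le_mul_of_nonneg_left ?_ h.nn
    rw [abs_le]
    exact ⟨ht.1.le, ht.2.le⟩
  exact ODE_solution_unique_of_mem_Ioo (v := fun _ => f) (s := fun _ => closedBall 0 R) (K := K)
    (t₀ := 0) (fun _ _ => hK) ⟨by linarith, hT⟩ (fun t ht => ⟨hγ t ht, hb hγ rfl t ht⟩)
    (fun t ht => ⟨hδ t ht, hb hδ h0.symm t ht⟩) h0

variable [CompleteSpace E]

/-- local flow on long intervals of time -/
lemma loc (h : Fld f B P) (x0 : E) {T : ℝ} (hT : 0 < T) :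
    ∃ α : E × ℝ → E, (∀ x ∈ closedBall x0 1, α (x, 0) = x ∧
      ∀ t ∈ Ioo (-T) T, HasDerivAt (fun s => α (x, s)) (f (α (x, t))) t) ∧
      ContinuousOn α (closedBall x0 1 ×ˢ Icc (-T) T) := by
  set R := (‖x0‖ + 1) * Real.exp (B * T) with hR
  have hR0 : 0 ≤ R := by positivity
  obtain ⟨K, hK⟩ := h.lip R hR0
  have hlip : LipschitzWith (K * 2) (fun x => f (P R x)) := by
    rw [← lipschitzOnWith_univ]
    have h1 := hK.comp ((h.Pl R hR0).lipschitzOnWith (s := univ)) (fun x _ => by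
      rw [mem_closedBall_zero_iff]
      exact h.Pb R x hR0)
    exact h1
  have hBR : 0 ≤ B * R := mul_nonneg h.nn hR0
  set t0 : Icc (-T) T := ⟨0, by linarith, hT.le⟩ with ht0
  have e2 : ((B * R * T + 1).toNNReal : ℝ) = B * R * T + 1 :=
    Real.coe_toNNReal _ (by positivity)
  have e3 : ((B * R).toNNReal : ℝ) = B * R := Real.coe_toNNReal _ hBR
  have hpl : IsPicardLindelof (fun _ x => f (P R x)) t0 x0 (B * R * T + 1).toNNReal
      1 (B * R).toNNReal (K * 2) := by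
    refine ⟨fun t _ => hlip.lipschitzOnWith, fun x _ => continuousOn_const, fun t _ x _ => ?_, ?_⟩
    · refine (h.lin _).trans ?_
      rw [e3]
      exact mul_le_mul_of_nonneg_left (h.Pb R x hR0) h.nn
    · have e1 : ((t0 : Icc (-T) T) : ℝ) = 0 := rfl
      rw [e1, e2, e3, NNReal.coe_one, sub_zero, zero_sub, neg_neg, max_self]
      linarith
  obtain ⟨α, hα, hc⟩ := hpl.exists_forall_mem_closedBall_eq_hasDerivWithinAt_continuousOn
  refine ⟨α, fun x hx => ?_, hc⟩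
  obtain ⟨h1, h2⟩ := hα x hx
  refine ⟨h1, ?_⟩
  have h3 : ∀ t ∈ Ioo (-T) T, HasDerivAt (fun s => α (x, s)) (f (P R (α (x, t)))) t :=
    fun t ht => (h2 t ⟨ht.1.le, ht.2.le⟩).hasDerivAt (Icc_mem_nhds ht.1 ht.2)
  intro t ht
  have h4 : ‖α (x, t)‖ ≤ R := by
    have h5 := bound (B := B) h3 (fun s _ => (h.lin _).trans
      (mul_le_mul_of_nonneg_left (h.Ple R _ hR0) h.nn)) ht
    refine h5.trans ?_
    rw [hR]
    have h6 : α (x, 0) = x := h1
    simp only [h6]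
    refine mul_le_mul ?_ (Real.exp_le_exp.2 ?_) (Real.exp_pos _).le (by positivity)
    · rw [mem_closedBall, dist_eq_norm] at hx
      have := norm_sub_norm_le x x0
      linarith
    · refine mul_le_mul_of_nonneg_left ?_ h.nn
      rw [abs_le]
      exact ⟨ht.1.le, ht.2.le⟩
  have h5 := h3 t ht
  rwa [h.Pid R _ h4] at h5

/-- global solutions -/
lemma glob (h : Fld f B P) (x : E) :
    ∃ γ : ℝ → E, γ 0 = x ∧ ∀ t, HasDerivAt γ (f (γ t)) t := by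
  have h1 : ∀ n : ℕ, ∃ γ : ℝ → E, γ 0 = x ∧
      ∀ t ∈ Ioo (-((n : ℝ) + 1)) (n + 1), HasDerivAt γ (f (γ t)) t := by
    intro n
    obtain ⟨α, hα, -⟩ := loc h x (T := (n : ℝ) + 1) (by positivity)
    exact ⟨fun s => α (x, s), (hα x (mem_closedBall_self zero_le_one))⟩
  choose γ hγ0 hγ using h1
  have h2 : ∀ m n : ℕ, m ≤ n → EqOn (γ m) (γ n) (Ioo (-((m : ℝ) + 1)) (m + 1)) := by
    intro m n hmn
    have hmn' : (m : ℝ) ≤ n := by exact_mod_cast hmn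
    refine uniq h (by positivity) (hγ m) (fun t ht => hγ n t ⟨by linarith [ht.1], by
      linarith [ht.2]⟩) (by rw [hγ0, hγ0])
  refine ⟨fun t => γ ⌈|t|⌉₊ t, by simp [hγ0], fun t => ?_⟩
  set N := ⌈|t|⌉₊ + 1 with hN
  have h3 : ∀ s ∈ Ioo (-(N : ℝ)) N, γ ⌈|s|⌉₊ s = γ N s := by
    intro s hs
    have h4 : |s| < N := by rw [abs_lt]; exact hs
    refine h2 _ _ ?_ ?_
    · exact Nat.ceil_le.2 h4.le
    · have h5 := Nat.le_ceil |s|
      have h6 := abs_le.1 h5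
      exact ⟨by linarith [h6.1], by linarith [h6.2]⟩
  have ht : t ∈ Ioo (-(N : ℝ)) N := by
    have h5 := Nat.le_ceil |t|
    have h6 := abs_le.1 h5
    rw [hN]
    push_cast
    exact ⟨by linarith [h6.1], by linarith [h6.2]⟩
  have h7 : (fun t => γ ⌈|t|⌉₊ t) =ᶠ[𝓝 t] γ N :=
    Filter.eventuallyEq_of_mem (Ioo_mem_nhds ht.1 ht.2) h3
  simp only
  rw [h3 t ht]
  exact (hγ N t ⟨by linarith [ht.1], by linarith [ht.2]⟩).congr_of_eventuallyEq h7

/-- **the flow** -/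
theorem exists_flow (h : Fld f B P) : ∃ φ : ℝ → E → E, (∀ x, φ 0 x = x) ∧
    (∀ x t, HasDerivAt (fun s => φ s x) (f (φ t x)) t) ∧
    (Continuous fun p : ℝ × E => φ p.1 p.2) ∧
    ∀ γ : ℝ → E, (∀ t, HasDerivAt γ (f (γ t)) t) → ∀ t, γ t = φ t (γ 0) := by
  choose φ h0 h1 using glob h
  refine ⟨fun t x => φ x t, h0, h1, ?_, ?_⟩
  · rw [continuous_iff_continuousAt]
    rintro ⟨t, x⟩
    obtain ⟨α, hα, hc⟩ := loc h x (T := |t| + 1) (by positivity)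
    have hab := abs_le.1 (le_refl |t|)
    have h2 : ∀ p ∈ Ioo (-(|t| + 1)) (|t| + 1) ×ˢ closedBall x 1, φ p.2 p.1 = α (p.2, p.1) := by
      rintro ⟨s, y⟩ ⟨hs, hy⟩
      exact uniq h (by positivity) (fun r _ => h1 y r) (hα y hy).2
        (by rw [h0, (hα y hy).1]) hs
    have h3 : Ioo (-(|t| + 1)) (|t| + 1) ×ˢ closedBall x 1 ∈ 𝓝 (t, x) :=
      prod_mem_nhds (Ioo_mem_nhds (by linarith [hab.1]) (by linarith [hab.2]))
        (closedBall_mem_nhds x one_pos)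
    have h4 : ContinuousAt (fun p : ℝ × E => α (p.2, p.1)) (t, x) := by
      refine ContinuousOn.continuousAt (s := Ioo (-(|t| + 1)) (|t| + 1) ×ˢ closedBall x 1) ?_ h3
      refine hc.comp (by fun_prop) ?_
      rintro ⟨s, y⟩ ⟨hs, hy⟩
      exact ⟨hy, ⟨hs.1.le, hs.2.le⟩⟩
    exact h4.congr (Filter.eventuallyEq_of_mem h3 (fun p hp => (h2 p hp).symm))
  · intro γ hγ t
    have hab := abs_le.1 (le_refl |t|)
    exact uniq h (T := |t| + 1) (by positivity) (fun r _ => hγ r) (fun r _ => h1 (γ 0) r)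
      (by rw [h0]) ⟨by linarith [hab.1], by linarith [hab.2]⟩


/-- the radial retraction onto the ball -/
noncomputable def rad {V : Type*} [NormedAddCommGroup V] [NormedSpace ℝ V] (R : ℝ) (x : V) : V :=
  if ‖x‖ ≤ R then x else (R / ‖x‖) • x

section rad

variable {V : Type*} [NormedAddCommGroup V] [NormedSpace ℝ V]

lemma rad_le {R : ℝ} (hR : 0 ≤ R) (x : V) : ‖rad R x‖ ≤ R := by
  unfold rad
  split_ifs with h
  · exact h
  · have h1 : 0 < ‖x‖ := hR.trans_lt (not_le.1 h)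
    rw [norm_smul, Real.norm_of_nonneg (by positivity), div_mul_cancel₀ _ h1.ne']

lemma rad_le' {R : ℝ} (hR : 0 ≤ R) (x : V) : ‖rad R x‖ ≤ ‖x‖ := by
  by_cases h : ‖x‖ ≤ R
  · unfold rad
    rw [if_pos h]
  · exact (rad_le hR x).trans (not_le.1 h).le

lemma rad_dist {R : ℝ} (hR : 0 ≤ R) {x y : V} (hxy : ‖x‖ ≤ ‖y‖) :
    ‖rad R x - rad R y‖ ≤ 2 * ‖x - y‖ := by
  have h0 : ‖y‖ - ‖x‖ ≤ ‖x - y‖ := by
    rw [norm_sub_rev]
    exact norm_sub_norm_le y x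
  have hn := norm_nonneg (x - y)
  unfold rad
  by_cases hx : ‖x‖ ≤ R <;> by_cases hy : ‖y‖ ≤ R
  · rw [if_pos hx, if_pos hy]
    linarith
  · rw [if_pos hx, if_neg hy]
    rw [not_le] at hy
    have h1 : 0 < ‖y‖ := hR.trans_lt hy
    have h2 : ‖y - (R / ‖y‖) • y‖ = ‖y‖ - R := by
      have h3 : y - (R / ‖y‖) • y = (1 - R / ‖y‖) • y := by rw [sub_smul, one_smul]
      have h4 : 0 ≤ 1 - R / ‖y‖ := by
        rw [sub_nonneg, div_le_one h1]
        exact hy.le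
      rw [h3, norm_smul, Real.norm_of_nonneg h4, sub_mul, div_mul_cancel₀ _ h1.ne', one_mul]
    calc ‖x - (R / ‖y‖) • y‖ = ‖(x - y) + (y - (R / ‖y‖) • y)‖ := by congr 1; abel
      _ ≤ ‖x - y‖ + ‖y - (R / ‖y‖) • y‖ := norm_add_le _ _
      _ ≤ 2 * ‖x - y‖ := by rw [h2]; linarith
  · exact absurd (hxy.trans hy) hx
  · rw [if_neg hx, if_neg hy]
    rw [not_le] at hx hy
    have h1 : 0 < ‖x‖ := hR.trans_lt hx
    have h1y : 0 < ‖y‖ := hR.trans_lt hy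
    have h2 : (R / ‖x‖) • x - (R / ‖y‖) • y = (R / ‖x‖) • (x - y) + (R / ‖x‖ - R / ‖y‖) • y := by
      rw [smul_sub, sub_smul]
      abel
    have h3 : 0 ≤ R / ‖x‖ - R / ‖y‖ := by
      rw [sub_nonneg]
      exact div_le_div_of_nonneg_left hR h1 hxy
    have h4 : R / ‖x‖ ≤ 1 := by
      rw [div_le_one h1]
      exact hx.le
    have h5 : 0 ≤ R / ‖x‖ := by positivity
    rw [h2]
    refine (norm_add_le _ _).trans ?_
    rw [norm_smul, norm_smul, Real.norm_of_nonneg h5, Real.norm_of_nonneg h3]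
    have h6 : (R / ‖x‖ - R / ‖y‖) * ‖y‖ = R / ‖x‖ * (‖y‖ - ‖x‖) := by
      field_simp
    rw [h6, ← mul_add]
    calc R / ‖x‖ * (‖x - y‖ + (‖y‖ - ‖x‖)) ≤ R / ‖x‖ * (2 * ‖x - y‖) :=
          mul_le_mul_of_nonneg_left (by linarith) h5
      _ ≤ 1 * (2 * ‖x - y‖) := mul_le_mul_of_nonneg_right h4 (by positivity)
      _ = _ := one_mul _

lemma rad_lip {R : ℝ} (hR : 0 ≤ R) : LipschitzWith 2 (rad (V := V) R) := by
  refine LipschitzWith.of_dist_le_mul fun x y => ?_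
  rw [dist_eq_norm, dist_eq_norm, NNReal.coe_ofNat]
  rcases le_total ‖x‖ ‖y‖ with h | h
  · exact rad_dist hR h
  · rw [norm_sub_rev, norm_sub_rev x y]
    exact rad_dist hR h

end rad

/-- the field on the product with the line -/
def fld {V : Type*} [NormedAddCommGroup V] [NormedSpace ℝ V] (Z : V → V) (p : V × ℝ) : V × ℝ :=
  (Z p.1 - Z 0 + p.2 • Z 0, 0)

lemma fld_Fld {V : Type*} [NormedAddCommGroup V] [NormedSpace ℝ V] {Z : V → V} {L : ℝ≥0}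
    (hZ : LipschitzWith L Z) : Fld (fld Z) (L + ‖Z 0‖) rad where
  nn := by positivity
  lin := by
    intro p
    have h1 : ‖Z p.1 - Z 0‖ ≤ L * ‖p.1‖ := by
      have := hZ.dist_le_mul p.1 0
      rwa [dist_eq_norm, dist_zero_right] at this
    have h2 : ‖p.2 • Z 0‖ = ‖p.2‖ * ‖Z 0‖ := norm_smul _ _
    have h3 : ‖p.1‖ ≤ ‖p‖ := norm_fst_le p
    have h4 : ‖p.2‖ ≤ ‖p‖ := norm_snd_le p
    unfold fld
    rw [Prod.norm_mk, norm_zero, max_eq_left (norm_nonneg _)]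
    refine (norm_add_le _ _).trans ?_
    rw [h2, add_mul]
    have h5 : (L : ℝ) * ‖p.1‖ ≤ L * ‖p‖ := mul_le_mul_of_nonneg_left h3 L.coe_nonneg
    have h6 : ‖p.2‖ * ‖Z 0‖ ≤ ‖p‖ * ‖Z 0‖ := mul_le_mul_of_nonneg_right h4 (norm_nonneg _)
    linarith [mul_comm ‖p‖ ‖Z 0‖]
  lip := by
    intro R _
    refine ⟨L + ‖Z 0‖₊, (LipschitzWith.of_dist_le_mul fun p r => ?_).lipschitzOnWith⟩
    rw [dist_eq_norm, dist_eq_norm]
    have h0 : fld Z p - fld Z r = ((Z p.1 - Z r.1) + (p.2 - r.2) • Z 0, 0) := by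
      unfold fld
      rw [Prod.mk_sub_mk, sub_zero]
      congr 1
      rw [sub_smul]
      abel
    have h1 : ‖Z p.1 - Z r.1‖ ≤ L * ‖p.1 - r.1‖ := by
      have := hZ.dist_le_mul p.1 r.1
      rwa [dist_eq_norm, dist_eq_norm] at this
    have h2 : ‖(p.2 - r.2) • Z 0‖ = ‖p.2 - r.2‖ * ‖Z 0‖ := norm_smul _ _
    have h3 : ‖p.1 - r.1‖ ≤ ‖p - r‖ := norm_fst_le (p - r)
    have h4 : ‖p.2 - r.2‖ ≤ ‖p - r‖ := norm_snd_le (p - r)
    rw [h0, Prod.norm_mk, norm_zero, max_eq_left (norm_nonneg _)]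
    refine (norm_add_le _ _).trans ?_
    rw [h2, NNReal.coe_add, coe_nnnorm, add_mul]
    have h5 : (L : ℝ) * ‖p.1 - r.1‖ ≤ L * ‖p - r‖ := mul_le_mul_of_nonneg_left h3 L.coe_nonneg
    have h6 : ‖p.2 - r.2‖ * ‖Z 0‖ ≤ ‖p - r‖ * ‖Z 0‖ :=
      mul_le_mul_of_nonneg_right h4 (norm_nonneg _)
    linarith [mul_comm ‖p - r‖ ‖Z 0‖]
  Pl := fun R hR => rad_lip hR
  Pid := by
    intro R x hx
    unfold rad
    rw [if_pos hx]
  Pb := fun R x hR => rad_le hR x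
  Ple := fun R x hR => rad_le' hR x

end GFAux

open GFAux

/-- MODULE GF -/
theorem gf : Stmt_GF := by
  intro V _ _ _ Z L hZ
  obtain ⟨ψ, h0, h1, h2, h3⟩ := exists_flow (fld_Fld hZ)
  have hs : ∀ (t : ℝ) (x : V), (ψ t (x, 1)).2 = 1 := by
    intro t x
    have h4 : ∀ s, HasDerivAt (fun s => (ψ s (x, 1)).2) 0 s := fun s =>
      (hasFDerivAt_snd.comp_hasDerivAt s (h1 (x, 1) s) :)
    have h5 := is_const_of_deriv_eq_zero (f := fun s => (ψ s (x, 1)).2)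
      (fun s => (h4 s).differentiableAt) (fun s => (h4 s).deriv) t 0
    simp only [h0] at h5
    exact h5
  have hd : ∀ (x : V) (t : ℝ), HasDerivAt (fun s => (ψ s (x, 1)).1) (Z (ψ t (x, 1)).1) t := by
    intro x t
    have h4 : HasDerivAt (fun s => (ψ s (x, 1)).1)
        (Z (ψ t (x, 1)).1 - Z 0 + (ψ t (x, 1)).2 • Z 0) t :=
      (hasFDerivAt_fst.comp_hasDerivAt t (h1 (x, 1) t) :)
    rwa [hs, one_smul, sub_add_cancel] at h4
  refine ⟨fun t x => (ψ t (x, 1)).1, fun x => congrArg Prod.fst (h0 (x, 1)), ?_, ?_, fun s z => hd z s⟩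
  · intro s t z
    have h4 := h3 (fun r => ψ (r + t) (z, 1)) (fun r => by
      have h5 := h1 (z, 1) (r + t)
      exact h5.comp_add_const r t) s
    have h5 : ψ t (z, 1) = ((ψ t (z, 1)).1, 1) := Prod.ext rfl (hs t z)
    have h6 : ψ (s + t) (z, 1) = ψ s (ψ (0 + t) (z, 1)) := h4
    rw [zero_add] at h6
    change (ψ (s + t) (z, 1)).1 = (ψ s ((ψ t (z, 1)).1, 1)).1
    rw [h6, ← h5]
  · exact continuous_fst.comp (h2.comp (continuous_fst.prodMk (continuous_snd.prodMk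
      continuous_const)))

end Pool.Agent.WPD
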