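import Pool.Agent.WPD.Stmts

/-!
# Warped products: the flow of a divergence free vector field preserves the measure   (helper50)

The Euler scheme. Only a lower bound for the measure of the images of the compact sets is needed.
-/

set_option autoImplicit false

namespace Pool.Agent.WPD

open MeasureTheory Set Filter Topology

namespace LVAux

section det

variable {V : Type} [NormedAddCommGroup V] [NormedSpace ℝ V] [FiniteDimensional ℝ V]

/-- the determinant near the identity -/
theorem det_near (ε : ℝ) (hε : 0 < ε) : ∃ δ : ℝ, 0 < δ ∧ ∀ B : V →L[ℝ] V, ‖B‖ ≤ δ →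
    LinearMap.trace ℝ V B.toLinearMap = 0 → 1 - ε * ‖B‖ ≤ |(1 + B).det| := by
  classical
  let b := Module.finBasis ℝ V
  let M : (V →L[ℝ] V) →ₗ[ℝ] Matrix (Fin (Module.finrank ℝ V)) (Fin (Module.finrank ℝ V)) ℝ :=
    (LinearMap.toMatrix b b).toLinearMap.comp (ContinuousLinearMap.coeLM ℝ)
  have hM : ∀ B : V →L[ℝ] V, M B = LinearMap.toMatrix b b B.toLinearMap := fun B => rfl
  let g : (V →L[ℝ] V) → ℝ := fun B => (1 + M B).det
  have hgd : ∀ B : V →L[ℝ] V, (1 + B).det = g B := by
    intro B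
    change LinearMap.det ((1 + B : V →L[ℝ] V) : V →ₗ[ℝ] V) = (1 + M B).det
    rw [← LinearMap.det_toMatrix b, hM]
    congr 1
    have : ((1 + B : V →L[ℝ] V) : V →ₗ[ℝ] V) = LinearMap.id + B.toLinearMap := rfl
    rw [this, map_add, LinearMap.toMatrix_id]
  have hent : ∀ i j, ContDiff ℝ 1 (fun B : V →L[ℝ] V => (1 + M B) i j) := by
    intro i j
    have h1 : (fun B : V →L[ℝ] V => (1 + M B) i j) = fun B =>
        (1 : Matrix (Fin (Module.finrank ℝ V)) (Fin (Module.finrank ℝ V)) ℝ) i j +
          (LinearMap.toContinuousLinearMap ((Matrix.entryLinearMap ℝ ℝ i j).comp M)) B := by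
      funext B
      simp [Matrix.add_apply]
    rw [h1]
    exact contDiff_const.add (ContinuousLinearMap.contDiff _)
  have hg : Differentiable ℝ g := by
    have h1 : g = fun B => ∑ σ : Equiv.Perm (Fin (Module.finrank ℝ V)),
        ((Equiv.Perm.sign σ : ℤ) : ℝ) * ∏ i, (1 + M B) (σ i) i := by
      funext B
      exact Matrix.det_apply' _
    rw [h1]
    refine Differentiable.fun_sum fun σ _ => ?_
    refine (differentiable_const _).mul ?_
    exact (contDiff_prod fun i _ => hent (σ i) i).differentiable one_ne_zero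
  have hg0 : g 0 = 1 := by
    simp [g]
  have hD : ∀ B : V →L[ℝ] V, fderiv ℝ g 0 B = (M B).trace := by
    intro B
    have h1 : HasDerivAt (fun t : ℝ => g (t • B)) (fderiv ℝ g 0 B) 0 := by
      have h2 : HasDerivAt (fun t : ℝ => t • B) B 0 := by
        simpa using (hasDerivAt_id (0 : ℝ)).smul_const B
      have h3 : HasFDerivAt g (fderiv ℝ g 0) ((0 : ℝ) • B) := by
        rw [zero_smul]
        exact (hg 0).hasFDerivAt
      exact h3.comp_hasDerivAt (0 : ℝ) h2
    have h4 : HasDerivAt (fun t : ℝ => g (t • B)) ((M B).trace) 0 := by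
      have h5 : (fun t : ℝ => g (t • B)) = fun t : ℝ => 1 + (M B).trace * t +
          (Matrix.det (1 + (Polynomial.X : Polynomial ℝ) •
            (M B).map Polynomial.C)).divX.divX.eval t * t ^ 2 := by
        funext t
        change (1 + M (t • B)).det = _
        rw [map_smul, Matrix.det_one_add_smul]
      rw [h5]
      set P := (Matrix.det (1 + (Polynomial.X : Polynomial ℝ) •
            (M B).map Polynomial.C)).divX.divX with hP
      have h6 : HasDerivAt (fun t : ℝ => 1 + (M B).trace * t + P.eval t * t ^ 2)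
          ((M B).trace * 1 + (P.derivative.eval 0 * 0 ^ 2 + P.eval 0 * (((2 : ℕ) : ℝ) *
            0 ^ (2 - 1)))) 0 := by
        refine HasDerivAt.add (((hasDerivAt_id (0 : ℝ)).const_mul _).const_add 1) ?_
        exact (P.hasDerivAt 0).mul (hasDerivAt_pow 2 (0 : ℝ))
      simpa using h6
    exact h1.unique h4
  have hlo := ((hg 0).hasFDerivAt.isLittleO).def hε
  rw [Metric.eventually_nhds_iff] at hlo
  obtain ⟨δ, hδ, h⟩ := hlo
  refine ⟨δ / 2, by positivity, fun B hB htr => ?_⟩
  have h1 := @h B (by rw [dist_zero_right]; linarith)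
  rw [hg0, sub_zero, hD, hM, ← LinearMap.trace_eq_matrix_trace ℝ b, htr, sub_zero] at h1
  rw [hgd]
  have h2 : |g B - 1| ≤ ε * ‖B‖ := by simpa using h1
  have h3 := abs_le.1 h2
  have h4 := le_abs_self (g B)
  linarith [h3.1]

end det

section flow

variable {V : Type} [NormedAddCommGroup V] [NormedSpace ℝ V]

/-- Euler map -/
def eu (Z : V → V) (h : ℝ) (z : V) : V := z + h • Z z

variable {Z : V → V} {L : NNReal}

theorem eu_dist (hL : LipschitzWith L Z) (h : ℝ) (z w : V) :
    ‖eu Z h z - eu Z h w‖ ≤ (1 + |h| * L) * ‖z - w‖ := by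
  have h1 : eu Z h z - eu Z h w = (z - w) + h • (Z z - Z w) := by
    unfold eu
    rw [smul_sub]
    abel
  have h2 := hL.norm_sub_le z w
  calc ‖eu Z h z - eu Z h w‖ ≤ ‖z - w‖ + |h| * ‖Z z - Z w‖ := by
        rw [h1]
        refine (norm_add_le _ _).trans ?_
        rw [norm_smul, Real.norm_eq_abs]
    _ ≤ ‖z - w‖ + |h| * (L * ‖z - w‖) := by
        have := mul_le_mul_of_nonneg_left h2 (abs_nonneg h)
        linarith
    _ = _ := by ring

theorem eu_inj (hL : LipschitzWith L Z) {h : ℝ} (hh : |h| * L < 1) :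
    Function.Injective (eu Z h) := by
  intro z w e
  have h1 : z - w = h • (Z w - Z z) := by
    unfold eu at e
    rw [smul_sub]
    have e' : z - w = (z + h • Z z) - h • Z z - w := by abel
    rw [e', e]
    abel
  have h2 : ‖z - w‖ ≤ |h| * (L * ‖z - w‖) := by
    calc ‖z - w‖ = |h| * ‖Z w - Z z‖ := by
          conv_lhs => rw [h1]
          rw [norm_smul, Real.norm_eq_abs]
      _ ≤ |h| * (L * ‖w - z‖) := mul_le_mul_of_nonneg_left (hL.norm_sub_le w z) (abs_nonneg h)
      _ = _ := by rw [norm_sub_rev w z]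
  by_contra hne
  have h3 : 0 < ‖z - w‖ := norm_pos_iff.2 (sub_ne_zero.2 hne)
  nlinarith

variable {φ : ℝ → V → V} {C : ℝ}

/-- speed of the flow -/
theorem flow_move (hC : ∀ z, ‖Z z‖ ≤ C) (h0 : ∀ z, φ 0 z = z)
    (hd : ∀ s z, HasDerivAt (fun r => φ r z) (Z (φ s z)) s) (s : ℝ) (z : V) :
    ‖φ s z - z‖ ≤ C * |s| := by
  have h := Convex.norm_image_sub_le_of_norm_hasDerivWithin_le (f := fun r => φ r z)
    (f' := fun r => Z (φ r z)) (C := C) (s := univ) (x := 0) (y := s)
    (fun r _ => (hd r z).hasDerivWithinAt) (fun r _ => hC _) convex_univ (mem_univ _) (mem_univ _)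
  simp only [h0, sub_zero, Real.norm_eq_abs] at h
  exact h

/-- local error -/
theorem local_err (hL : LipschitzWith L Z) (hC : ∀ z, ‖Z z‖ ≤ C) (h0 : ∀ z, φ 0 z = z)
    (hd : ∀ s z, HasDerivAt (fun r => φ r z) (Z (φ s z)) s) (h : ℝ) (z : V) :
    ‖φ h z - eu Z h z‖ ≤ L * C * h ^ 2 := by
  have hC0 : 0 ≤ C := (norm_nonneg _).trans (hC z)
  have hder : ∀ r ∈ uIcc (0 : ℝ) h, HasDerivWithinAt (fun r => φ r z - (z + r • Z z))
      (Z (φ r z) - Z z) (uIcc (0 : ℝ) h) r := by
    intro r _
    have h1 : HasDerivAt (fun r : ℝ => z + r • Z z) (Z z) r := by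
      have := ((hasDerivAt_id r).smul_const (Z z)).const_add z
      simpa using this
    exact ((hd r z).sub h1).hasDerivWithinAt
  have hb : ∀ r ∈ uIcc (0 : ℝ) h, ‖Z (φ r z) - Z z‖ ≤ L * (C * |h|) := by
    intro r hr
    have hr' : |r| ≤ |h| := by
      have := abs_sub_left_of_mem_uIcc hr
      simpa using this
    refine (hL.norm_sub_le _ _).trans (mul_le_mul_of_nonneg_left ?_ L.2)
    exact (flow_move hC h0 hd r z).trans (mul_le_mul_of_nonneg_left hr' hC0)
  have h2 := Convex.norm_image_sub_le_of_norm_hasDerivWithin_le hder hb (convex_uIcc 0 h)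
    left_mem_uIcc right_mem_uIcc
  simp only [h0, zero_smul, add_zero, sub_self, sub_zero, Real.norm_eq_abs] at h2
  calc ‖φ h z - eu Z h z‖ ≤ L * (C * |h|) * |h| := h2
    _ = L * C * h ^ 2 := by rw [← sq_abs h]; ring

/-- global error -/
theorem global_err (hL : LipschitzWith L Z) (hC : ∀ z, ‖Z z‖ ≤ C) (h0 : ∀ z, φ 0 z = z)
    (ha : ∀ s t z, φ (s + t) z = φ s (φ t z))
    (hd : ∀ s z, HasDerivAt (fun r => φ r z) (Z (φ s z)) s) (h : ℝ) (z : V) (n : ℕ) :
    ‖φ (n * h) z - (eu Z h)^[n] z‖ ≤ n * (L * C * h ^ 2) * (1 + |h| * L) ^ n := by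
  have hC0 : 0 ≤ C := (norm_nonneg _).trans (hC z)
  have hq : 1 ≤ 1 + |h| * L := by
    have : 0 ≤ |h| * L := mul_nonneg (abs_nonneg h) L.2
    linarith
  have hE : 0 ≤ L * C * h ^ 2 := mul_nonneg (mul_nonneg L.2 hC0) (sq_nonneg h)
  induction n with
  | zero => simp [h0]
  | succ n ih =>
    have e1 : φ ((n + 1 : ℕ) * h) z = φ h (φ (n * h) z) := by
      rw [← ha]
      congr 1
      push_cast
      ring
    rw [e1, Function.iterate_succ_apply']
    have h1 := local_err hL hC h0 hd h (φ (n * h) z)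
    have h2 := eu_dist hL h (φ (n * h) z) ((eu Z h)^[n] z)
    have h3 : ‖φ h (φ (n * h) z) - eu Z h ((eu Z h)^[n] z)‖ ≤
        L * C * h ^ 2 + (1 + |h| * L) * ‖φ (n * h) z - (eu Z h)^[n] z‖ := by
      have e2 : φ h (φ (n * h) z) - eu Z h ((eu Z h)^[n] z) =
          (φ h (φ (n * h) z) - eu Z h (φ (n * h) z)) +
            (eu Z h (φ (n * h) z) - eu Z h ((eu Z h)^[n] z)) := by abel
      rw [e2]
      exact (norm_add_le _ _).trans (add_le_add h1 h2)
    refine h3.trans ?_
    have h4 := mul_le_mul_of_nonneg_left ih (zero_le_one.trans hq)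
    have h5 : L * C * h ^ 2 ≤ L * C * h ^ 2 * (1 + |h| * L) ^ (n + 1) :=
      le_mul_of_one_le_right hE (one_le_pow₀ hq)
    calc L * C * h ^ 2 + (1 + |h| * L) * ‖φ (n * h) z - (eu Z h)^[n] z‖
        ≤ L * C * h ^ 2 * (1 + |h| * L) ^ (n + 1) +
          (1 + |h| * L) * (n * (L * C * h ^ 2) * (1 + |h| * L) ^ n) := add_le_add h5 h4
      _ = _ := by push_cast; ring

end flow

section meas

variable {V : Type} [NormedAddCommGroup V] [NormedSpace ℝ V] [FiniteDimensional ℝ V]
  [MeasurableSpace V] [BorelSpace V] (μ : Measure V) [μ.IsAddHaarMeasure] {Z : V → V} {L : NNReal}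

/-- the Euler map does not shrink compact sets much -/
theorem eu_meas (hZ : ContDiff ℝ 1 Z) (hL : LipschitzWith L Z)
    (htr : ∀ z, LinearMap.trace ℝ V (fderiv ℝ Z z).toLinearMap = 0) (ε : ℝ) (hε : 0 < ε) :
    ∃ δ : ℝ, 0 < δ ∧ ∀ h : ℝ, |h| ≤ δ → ∀ K : Set V, IsCompact K →
      ENNReal.ofReal (1 - ε * |h|) * μ K ≤ μ (eu Z h '' K) := by
  have hL1 : (0 : ℝ) < L + 1 := by
    have : (0 : ℝ) ≤ L := L.2
    linarith
  obtain ⟨δ, hδ, hdet⟩ := det_near (V := V) (ε / (L + 1)) (by positivity)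
  refine ⟨min (δ / (L + 1)) (1 / (2 * (L + 1))), by positivity, fun h hh K hK => ?_⟩
  have hh1 : |h| * (L + 1) ≤ δ := by
    rw [← le_div_iff₀ hL1]
    exact hh.trans (min_le_left _ _)
  have hh2 : |h| * (L + 1) ≤ 1 / 2 := by
    have := hh.trans (min_le_right _ _)
    rw [le_div_iff₀ (by positivity)] at this
    linarith
  have hhL : |h| * L ≤ |h| * (L + 1) := mul_le_mul_of_nonneg_left (by linarith) (abs_nonneg h)
  have hd : ∀ z, HasFDerivAt (eu Z h) (1 + h • fderiv ℝ Z z) z := by
    intro z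
    have h1 := (hZ.differentiable one_ne_zero z).hasFDerivAt
    exact (hasFDerivAt_id z).add (h1.const_smul h)
  have hb : ∀ z, 1 - ε * |h| ≤ |(1 + h • fderiv ℝ Z z).det| := by
    intro z
    have h1 : ‖h • fderiv ℝ Z z‖ ≤ |h| * L := by
      rw [norm_smul, Real.norm_eq_abs]
      exact mul_le_mul_of_nonneg_left (norm_fderiv_le_of_lipschitz ℝ hL) (abs_nonneg h)
    have h2 := hdet (h • fderiv ℝ Z z) (h1.trans (hhL.trans hh1)) (by
      have : ((h • fderiv ℝ Z z : V →L[ℝ] V) : V →ₗ[ℝ] V) = h • (fderiv ℝ Z z).toLinearMap := rfl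
      rw [this, map_smul, htr, smul_zero])
    refine le_trans ?_ h2
    have h3 : ε / (L + 1) * ‖h • fderiv ℝ Z z‖ ≤ ε / (L + 1) * (|h| * (L + 1)) :=
      mul_le_mul_of_nonneg_left (h1.trans hhL) (by positivity)
    have h4 : ε / (L + 1) * (|h| * (L + 1)) = ε * |h| := by
      field_simp
    linarith
  rw [← lintegral_abs_det_fderiv_eq_addHaar_image μ hK.measurableSet
    (fun z _ => (hd z).hasFDerivWithinAt) ((eu_inj hL (by linarith)).injOn)]
  rw [← setLIntegral_const]
  exact lintegral_mono fun z => ENNReal.ofReal_le_ofReal (hb z)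

omit [FiniteDimensional ℝ V] [BorelSpace V] [μ.IsAddHaarMeasure] in
theorem eu_iter {h ε : ℝ} (hc : Continuous (eu Z h))
    (hm : ∀ K : Set V, IsCompact K → ENNReal.ofReal (1 - ε * |h|) * μ K ≤ μ (eu Z h '' K))
    (n : ℕ) (K : Set V) (hK : IsCompact K) :
    ENNReal.ofReal (1 - ε * |h|) ^ n * μ K ≤ μ ((eu Z h)^[n] '' K) := by
  induction n with
  | zero => simp
  | succ n ih =>
    have h1 := hm ((eu Z h)^[n] '' K) (hK.image (hc.iterate n))
    rw [Function.iterate_succ', image_comp]
    refine le_trans ?_ h1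
    rw [pow_succ', mul_assoc]
    exact mul_le_mul_right ih _

variable {φ : ℝ → V → V} {C : ℝ}

theorem compact_le (hZ : ContDiff ℝ 1 Z) (hL : LipschitzWith L Z) (hC : ∀ z, ‖Z z‖ ≤ C)
    (htr : ∀ z, LinearMap.trace ℝ V (fderiv ℝ Z z).toLinearMap = 0) (h0 : ∀ z, φ 0 z = z)
    (ha : ∀ s t z, φ (s + t) z = φ s (φ t z)) (hφ : Continuous (fun p : ℝ × V => φ p.1 p.2))
    (hd : ∀ s z, HasDerivAt (fun r => φ r z) (Z (φ s z)) s) (s : ℝ) (K : Set V)
    (hK : IsCompact K) : μ K ≤ μ (φ s '' K) := by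
  have : ProperSpace V := FiniteDimensional.proper ℝ V
  have hcφ : Continuous (φ s) := hφ.comp (by fun_prop : Continuous fun z : V => (s, z))
  have hKs : IsCompact (φ s '' K) := hK.image hcφ
  have hC0 : 0 ≤ C := (norm_nonneg _).trans (hC 0)
  have hce : ∀ h, Continuous (eu Z h) := fun h => by
    unfold eu
    exact continuous_id.add (continuous_const.smul hL.continuous)
  -- the main estimate
  have key : ∀ ε : ℝ, 0 < ε → ∀ r : ℝ, 0 < r →
      ENNReal.ofReal (1 - ε * |s|) * μ K ≤ μ (Metric.cthickening r (φ s '' K)) := by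
    intro ε hε r hr
    obtain ⟨δ, hδ, hm⟩ := eu_meas μ hZ hL htr ε hε
    obtain ⟨n, hn⟩ := exists_nat_gt (max (|s| / δ) (max (ε * |s|)
      (L * C * s ^ 2 * Real.exp (|s| * L) / r)))
    have hn1 : |s| / δ < n := (le_max_left _ _).trans_lt hn
    have hn2 : ε * |s| < n := ((le_max_left _ _).trans (le_max_right _ _)).trans_lt hn
    have hn3 : L * C * s ^ 2 * Real.exp (|s| * L) / r < n :=
      ((le_max_right _ _).trans (le_max_right _ _)).trans_lt hn
    have hn0 : (0 : ℝ) < n := (div_nonneg (abs_nonneg s) hδ.le).trans_lt hn1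
    set h : ℝ := s / n with hh
    have habs : |h| = |s| / n := by rw [hh, abs_div, abs_of_pos hn0]
    have hhδ : |h| ≤ δ := by
      rw [habs, div_le_iff₀ hn0]
      rw [div_lt_iff₀ hδ] at hn1
      linarith
    have hnh : (n : ℝ) * h = s := by
      rw [hh]
      field_simp
    have hpos : 0 ≤ 1 - ε * |h| := by
      rw [habs, mul_div_assoc']
      have : ε * |s| / n ≤ 1 := by
        rw [div_le_one hn0]
        exact hn2.le
      linarith
    have h1 := eu_iter μ (hce h) (hm h hhδ) n K hK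
    have h2 : 1 - ε * |s| ≤ (1 - ε * |h|) ^ n := by
      have h3 := one_add_mul_le_pow (a := -(ε * |h|)) (by linarith) n
      have h4 : (n : ℝ) * -(ε * |h|) = -(ε * |s|) := by
        rw [habs]
        field_simp
      rw [h4] at h3
      have e1 : 1 + -(ε * |s|) = 1 - ε * |s| := by ring
      have e2 : 1 + -(ε * |h|) = 1 - ε * |h| := by ring
      rw [e1, e2] at h3
      exact h3
    have h5 : (eu Z h)^[n] '' K ⊆ Metric.cthickening r (φ s '' K) := by
      rintro _ ⟨z, hz, rfl⟩
      refine Metric.mem_cthickening_of_dist_le _ (φ s z) r _ (mem_image_of_mem _ hz) ?_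
      rw [dist_comm, dist_eq_norm]
      have h6 := global_err hL hC h0 ha hd h z n
      rw [hnh] at h6
      refine h6.trans ?_
      have hL0 : (0 : ℝ) ≤ L := L.2
      have h7 : (1 + |h| * L) ^ n ≤ Real.exp (|s| * L) := by
        have h8 : 1 + |h| * L ≤ Real.exp (|h| * L) := by
          have := Real.add_one_le_exp (|h| * L)
          linarith
        have h9 : (1 + |h| * L) ^ n ≤ Real.exp (|h| * L) ^ n :=
          pow_le_pow_left₀ (by positivity) h8 n
        rw [← Real.exp_nat_mul] at h9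
        have h10 : (n : ℝ) * (|h| * L) = |s| * L := by
          rw [habs]
          field_simp
        rw [h10] at h9
        exact h9
      have h11 : (n : ℝ) * (L * C * h ^ 2) = L * C * s ^ 2 / n := by
        rw [hh]
        field_simp
      rw [h11]
      calc L * C * s ^ 2 / n * (1 + |h| * L) ^ n ≤ L * C * s ^ 2 / n * Real.exp (|s| * L) :=
            mul_le_mul_of_nonneg_left h7 (by positivity)
        _ = L * C * s ^ 2 * Real.exp (|s| * L) / n := by ring
        _ ≤ r := by
            rw [div_le_iff₀ hn0]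
            rw [div_lt_iff₀ hr] at hn3
            linarith
    calc ENNReal.ofReal (1 - ε * |s|) * μ K ≤ ENNReal.ofReal ((1 - ε * |h|) ^ n) * μ K :=
          mul_le_mul_left (ENNReal.ofReal_le_ofReal h2) _
      _ = ENNReal.ofReal (1 - ε * |h|) ^ n * μ K := by rw [ENNReal.ofReal_pow hpos]
      _ ≤ μ ((eu Z h)^[n] '' K) := h1
      _ ≤ _ := measure_mono h5
  -- thickenings
  have key2 : ∀ ε : ℝ, 0 < ε → ENNReal.ofReal (1 - ε * |s|) * μ K ≤ μ (φ s '' K) := by
    intro ε hε
    have ht := (tendsto_measure_cthickening_of_isCompact (μ := μ) hKs).mono_left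
      (nhdsWithin_le_nhds (s := Ioi (0 : ℝ)))
    refine ge_of_tendsto ht ?_
    filter_upwards [self_mem_nhdsWithin] with r hr
    exact key ε hε r hr
  have ht2 : Tendsto (fun ε : ℝ => ENNReal.ofReal (1 - ε * |s|) * μ K) (𝓝[>] 0)
      (𝓝 (ENNReal.ofReal (1 - 0 * |s|) * μ K)) := by
    refine Tendsto.mono_left ?_ nhdsWithin_le_nhds
    refine ENNReal.Tendsto.mul_const ?_ (Or.inr hK.measure_lt_top.ne)
    have : Continuous fun ε : ℝ => ENNReal.ofReal (1 - ε * |s|) :=
      ENNReal.continuous_ofReal.comp (by fun_prop)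
    exact this.tendsto 0
  rw [zero_mul, sub_zero, ENNReal.ofReal_one, one_mul] at ht2
  refine le_of_tendsto ht2 ?_
  filter_upwards [self_mem_nhdsWithin] with ε hε
  exact key2 ε hε

end meas

end LVAux

open LVAux

theorem lv : Stmt_LV := by
  intro V _ _ _ _ _ μ _ Z L C hZ hL hC htr φ h0 ha hφ hd s
  have : ProperSpace V := FiniteDimensional.proper ℝ V
  have hcφ : ∀ r, Continuous (φ r) := fun r =>
    hφ.comp (by fun_prop : Continuous fun z : V => (r, z))
  have hinv : ∀ r z, φ (-r) (φ r z) = z := fun r z => by rw [← ha, neg_add_cancel, h0]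
  have hle : ∀ r (K : Set V), IsCompact K → μ K ≤ μ (φ r '' K) := fun r K hK =>
    compact_le μ hZ hL hC htr h0 ha hφ hd r K hK
  have heq : ∀ r (K : Set V), IsCompact K → μ (φ r '' K) = μ K := by
    intro r K hK
    refine le_antisymm ?_ (hle r K hK)
    have h1 := hle (-r) (φ r '' K) (hK.image (hcφ r))
    rw [← image_comp] at h1
    have h2 : φ (-r) ∘ φ r = id := funext (hinv r)
    rwa [h2, image_id] at h1
  let e : V ≃ₜ V :=
    { toFun := φ s
      invFun := φ (-s)
      left_inv := hinv s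
      right_inv := fun z => by
        have := hinv (-s) z
        rwa [neg_neg] at this
      continuous_toFun := hcφ s
      continuous_invFun := hcφ (-s) }
  have hopen : ∀ U : Set V, IsOpen U → μ (φ s ⁻¹' U) = μ U := by
    intro U hU
    apply le_antisymm
    · rw [(hU.preimage (hcφ s)).measure_eq_iSup_isCompact]
      refine iSup₂_le fun K hKU => iSup_le fun hK => ?_
      rw [← heq s K hK]
      exact measure_mono (image_subset_iff.2 hKU)
    · rw [hU.measure_eq_iSup_isCompact]
      refine iSup₂_le fun K hKU => iSup_le fun hK => ?_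
      rw [← heq (-s) K hK]
      refine measure_mono ?_
      rintro _ ⟨z, hz, rfl⟩
      change φ s (φ (-s) z) ∈ U
      have := hinv (-s) z
      rw [neg_neg] at this
      rw [this]
      exact hKU hz
  refine ⟨(hcφ s).measurable, ?_⟩
  have hreg : (Measure.map (φ s) μ).Regular := Measure.Regular.map e
  refine Measure.OuterRegular.ext_isOpen fun U hU => ?_
  rw [Measure.map_apply (hcφ s).measurable hU.measurableSet]
  exact hopen U hU

end Pool.Agent.WPD
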