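import Pool.Agent.WPD.Stmts

/-!
# Warped products: the moments determine the function (MOM)
-/

set_option autoImplicit false

namespace Pool.Agent.WPD

open MeasureTheory Set Filter Topology

namespace MOMAux

/-- the one dimensional statement -/
theorem one_dim (θ : ℝ → ℝ) (hc : Continuous θ) (hm : StrictMono θ) (hs : Function.Surjective θ)
    (h : ℝ → ℝ) (hi : Integrable h) (R : ℝ) (h0 : ∀ t, t ∉ Icc (-R) R → h t = 0)
    (hz : ∀ j : ℕ, ∫ t, h t * θ t ^ j = 0) : ∀ᵐ t : ℝ, h t = 0 := by
  have hint : ∀ u : ℝ → ℝ, Continuous u → Integrable (fun t => h t * u t) := by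
    intro u hu
    have h1 : IntegrableOn (fun t => h t * u t) (Icc (-R) R) :=
      hi.integrableOn.mul_continuousOn hu.continuousOn isCompact_Icc
    refine (integrableOn_iff_integrable_of_support_subset ?_).1 h1
    intro t ht
    by_contra hn
    apply ht
    show h t * u t = 0
    rw [h0 t hn, zero_mul]
  have hpoly : ∀ p : Polynomial ℝ, ∫ t, h t * p.eval (θ t) = 0 := by
    intro p
    have h1 : (fun t => h t * p.eval (θ t)) =
        fun t => ∑ i ∈ Finset.range (p.natDegree + 1), p.coeff i * (h t * θ t ^ i) := by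
      funext t
      rw [Polynomial.eval_eq_sum_range, Finset.mul_sum]
      refine Finset.sum_congr rfl fun i _ => ?_
      ring
    rw [h1, integral_finsetSum _ fun i _ => (hint (fun t => θ t ^ i) (hc.pow i)).const_mul _]
    refine Finset.sum_eq_zero fun i _ => ?_
    rw [integral_const_mul, hz i, mul_zero]
  have hcont : ∀ g : ℝ → ℝ, Continuous g → ∫ t, h t * g t = 0 := by
    intro g hg
    let e := (hm.orderIsoOfSurjective θ hs).toHomeomorph
    have he : ∀ t, e t = θ t := fun t => rfl
    have hG : Continuous (fun s => g (e.symm s)) := hg.comp e.symm.continuous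
    set I := ∫ t, |h t| with hI
    have hI0 : 0 ≤ I := integral_nonneg fun t => abs_nonneg _
    have key : ∀ ε : ℝ, 0 < ε → |∫ t, h t * g t| ≤ ε * I := by
      intro ε hε
      obtain ⟨p, hp⟩ := exists_polynomial_near_of_continuousOn (θ (-R)) (θ R)
        (fun s => g (e.symm s)) hG.continuousOn ε hε
      have h1 : ∫ t, h t * g t = ∫ t, h t * (g t - p.eval (θ t)) := by
        have h2 : ∫ t, h t * (g t - p.eval (θ t)) =
            (∫ t, h t * g t) - ∫ t, h t * p.eval (θ t) := by
          rw [← integral_sub (hint g hg) (hint (fun t => p.eval (θ t)) (p.continuous.comp hc))]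
          refine integral_congr_ae (Eventually.of_forall fun t => ?_)
          show h t * (g t - p.eval (θ t)) = h t * g t - h t * p.eval (θ t)
          ring
        rw [h2, hpoly p, sub_zero]
      rw [h1, ← Real.norm_eq_abs]
      calc ‖∫ t, h t * (g t - p.eval (θ t))‖ ≤ ∫ t, ‖h t * (g t - p.eval (θ t))‖ :=
            norm_integral_le_integral_norm _
        _ ≤ ∫ t, ε * |h t| := by
            refine integral_mono_of_nonneg (Eventually.of_forall fun t => norm_nonneg _)
              (hi.abs.const_mul ε) (Eventually.of_forall fun t => ?_)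
            show ‖h t * (g t - p.eval (θ t))‖ ≤ ε * |h t|
            rw [norm_mul, Real.norm_eq_abs, Real.norm_eq_abs, mul_comm]
            by_cases ht : t ∈ Icc (-R) R
            · have h3 := hp (θ t) ⟨hm.monotone ht.1, hm.monotone ht.2⟩
              have h4 : e.symm (θ t) = t := by
                rw [← he t]
                exact e.symm_apply_apply t
              simp only [h4] at h3
              rw [abs_sub_comm] at h3
              exact mul_le_mul_of_nonneg_right h3.le (abs_nonneg _)
            · rw [h0 t ht]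
              simp
        _ = ε * I := by rw [integral_const_mul]
    have h2 : |∫ t, h t * g t| ≤ 0 := by
      by_contra hn
      push Not at hn
      have h3 := key (|∫ t, h t * g t| / (2 * (I + 1))) (by positivity)
      have h4 : |∫ t, h t * g t| / (2 * (I + 1)) * I < |∫ t, h t * g t| := by
        rw [div_mul_eq_mul_div, div_lt_iff₀ (by positivity)]
        nlinarith
      linarith
    exact abs_eq_zero.1 (le_antisymm h2 (abs_nonneg _))
  refine ae_eq_zero_of_integral_contDiff_smul_eq_zero hi.locallyIntegrable fun g hg _ => ?_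
  have h1 := hcont g hg.continuous
  rw [← h1]
  refine integral_congr_ae (Eventually.of_forall fun t => ?_)
  show g t * h t = h t * g t
  ring

variable {n : ℕ} (D : WD n)

theorem co_eq (j : ℕ) (t : ℝ) : D.co j 0 t = D.sc 0 t ^ j * √(D.α t) := by
  induction j with
  | zero => simp [WD.co, WD.wc, WD.cb]
  | succ i ih =>
    rw [WD.co, Finset.sum_range_one, Nat.sub_zero, ih]
    ring

/-- the integrand of `sc 0` -/
noncomputable def ig (s : ℝ) : ℝ := √(D.α s) * WD.cb 0 / D.β s ^ (0 + 1)

theorem ig_cont : Continuous (ig D) := by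
  unfold ig
  refine Continuous.div (D.αc.sqrt.mul continuous_const) (D.βc.pow _) fun s => ?_
  have h1 := D.βa s
  have h2 := D.a0
  have h3 : D.β s ≠ 0 := by linarith
  exact pow_ne_zero _ h3

theorem ig_ge (s : ℝ) : √D.a / D.B ≤ ig D s := by
  have h1 := D.βa s
  have h2 := D.a0
  have h3 := D.βB s
  have h4 := D.αa s
  unfold ig
  have hcb : WD.cb 0 = 1 := by simp [WD.cb]
  rw [hcb, zero_add, pow_one, mul_one]
  exact div_le_div₀ (Real.sqrt_nonneg _) (Real.sqrt_le_sqrt h4) (by linarith) h3

theorem c_pos : 0 < √D.a / D.B := by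
  have h2 := D.a0
  have h3 := D.βB 0
  have h1 := D.βa 0
  exact div_pos (Real.sqrt_pos.2 h2) (by linarith)

theorem sc_cont : Continuous (D.sc 0) :=
  intervalIntegral.continuous_primitive (fun a b => (ig_cont D).intervalIntegrable a b) 0

theorem sc_mono : StrictMono (D.sc 0) := by
  intro s t hst
  have h1 : D.sc 0 t - D.sc 0 s = ∫ r in s..t, ig D r :=
    intervalIntegral.integral_interval_sub_left ((ig_cont D).intervalIntegrable 0 t)
      ((ig_cont D).intervalIntegrable 0 s)
  have h2 : 0 < ∫ r in s..t, ig D r :=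
    intervalIntegral.intervalIntegral_pos_of_pos ((ig_cont D).intervalIntegrable s t)
      (fun r => lt_of_lt_of_le (c_pos D) (ig_ge D r)) hst
  linarith

theorem sc_surj : Function.Surjective (D.sc 0) := by
  have hc := c_pos D
  apply (sc_cont D).surjective
  · have h1 : Tendsto (fun t : ℝ => √D.a / D.B * t) atTop atTop :=
      tendsto_id.const_mul_atTop hc
    refine tendsto_atTop_mono' _ ?_ h1
    filter_upwards [eventually_ge_atTop (0 : ℝ)] with t ht
    have h2 : ∫ _ in (0 : ℝ)..t, √D.a / D.B ≤ ∫ r in (0 : ℝ)..t, ig D r :=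
      intervalIntegral.integral_mono ht intervalIntegrable_const
        ((ig_cont D).intervalIntegrable 0 t) fun r => ig_ge D r
    rw [intervalIntegral.integral_const, smul_eq_mul, sub_zero, mul_comm] at h2
    exact h2
  · have h1 : Tendsto (fun t : ℝ => √D.a / D.B * t) atBot atBot :=
      tendsto_id.const_mul_atBot hc
    refine tendsto_atBot_mono' _ ?_ h1
    filter_upwards [eventually_le_atBot (0 : ℝ)] with t ht
    have h2 : ∫ _ in t..(0 : ℝ), √D.a / D.B ≤ ∫ r in t..(0 : ℝ), ig D r :=
      intervalIntegral.integral_mono ht intervalIntegrable_const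
        ((ig_cont D).intervalIntegrable t 0) fun r => ig_ge D r
    rw [intervalIntegral.integral_const, smul_eq_mul] at h2
    have h3 : D.sc 0 t = - ∫ r in t..(0 : ℝ), ig D r :=
      intervalIntegral.integral_symm t 0
    rw [h3]
    nlinarith

theorem slice (x : F n) (hx : ∀ j : ℕ, D.M j x = 0) : ∀ᵐ t : ℝ, D.f t x = 0 := by
  set h : ℝ → ℝ := fun t => D.f t x * √(D.α t) with hh
  have h0 : ∀ t, t ∉ Icc (-D.R) D.R → h t = 0 := by
    intro t ht
    have h1 : D.R ≤ |t| := by
      by_contra hn
      push Not at hn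
      rw [abs_lt] at hn
      exact ht ⟨hn.1.le, hn.2.le⟩
    show D.f t x * √(D.α t) = 0
    rw [D.f0 t x (Or.inl h1), zero_mul]
  have hmeas : Measurable h :=
    (D.fm.comp (measurable_id.prodMk measurable_const)).mul D.αc.sqrt.measurable
  have hb : ∀ t, ‖h t‖ ≤ D.B * √D.B := by
    intro t
    show ‖D.f t x * √(D.α t)‖ ≤ D.B * √D.B
    rw [norm_mul, Real.norm_eq_abs, Real.norm_eq_abs, abs_of_nonneg (Real.sqrt_nonneg _)]
    have h1 := D.fB t x
    exact mul_le_mul h1 (Real.sqrt_le_sqrt (D.αB t)) (Real.sqrt_nonneg _)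
      ((abs_nonneg _).trans h1)
  have hi : Integrable h := by
    have h1 : IntegrableOn h (Icc (-D.R) D.R) :=
      Measure.integrableOn_of_bounded (by simp) hmeas.aestronglyMeasurable
        (Eventually.of_forall hb)
    refine (integrableOn_iff_integrable_of_support_subset ?_).1 h1
    intro t ht
    by_contra hn
    exact ht (h0 t hn)
  have h1 := one_dim (D.sc 0) (sc_cont D) (sc_mono D) (sc_surj D) h hi D.R h0 (by
    intro j
    rw [← hx j]
    unfold WD.M
    refine integral_congr_ae (Eventually.of_forall fun t => ?_)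
    show D.f t x * √(D.α t) * D.sc 0 t ^ j = D.f t x * D.co j 0 t
    rw [co_eq]
    ring)
  filter_upwards [h1] with t ht
  have h2 : √(D.α t) ≠ 0 := (Real.sqrt_pos.2 (lt_of_lt_of_le D.a0 (D.αa t))).ne'
  exact (mul_eq_zero.1 ht).resolve_right h2

end MOMAux

theorem mom (hK : Stmt_COC) : Stmt_MOM := by
  intro n D hM
  have h1 : ∀ᵐ x : F n, ∀ j : ℕ, D.M j x = 0 := ae_all_iff.2 hM
  have h2 : ∀ᵐ x : F n, ∀ᵐ t : ℝ, D.f t x = 0 := by
    filter_upwards [h1] with x hx
    exact MOMAux.slice D x hx
  have hS : MeasurableSet {p : ℝ × F n | D.f p.1 p.2 ≠ 0} :=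
    (D.fm (measurableSet_singleton 0)).compl
  have hS' : MeasurableSet {p : F n × ℝ | D.f p.2 p.1 ≠ 0} := measurable_swap hS
  have h3 : ((volume : Measure (F n)).prod (volume : Measure ℝ))
      {p : F n × ℝ | D.f p.2 p.1 ≠ 0} = 0 := by
    rw [Measure.measure_prod_null hS']
    filter_upwards [h2] with x hx
    exact ae_iff.1 hx
  have h4 : ((volume : Measure ℝ).prod (volume : Measure (F n)))
      {p : ℝ × F n | D.f p.1 p.2 ≠ 0} = 0 := by
    rw [← Measure.prod_swap, Measure.map_apply measurable_swap hS]
    exact h3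
  exact ae_iff.2 h4

end Pool.Agent.WPD
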