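import Pool.Agent.WPD.Stmts

/-!
# Warped products, module BF: the geodesic flow of the fibre
-/

set_option autoImplicit false

namespace Pool.Agent.WPD

open MeasureTheory Set Filter Topology

namespace BFAux

variable {n : ℕ} (D : WD n)

/-- the energy is differentiable -/
theorem differentiable_k : Differentiable ℝ D.k := by
  unfold WD.k
  have h1 : ContDiff ℝ (⊤ : ℕ∞) fun z : P n => ‖z.2‖ ^ 2 := contDiff_snd.norm_sq ℝ
  have h2 : ContDiff ℝ (⊤ : ℕ∞) fun z : P n => D.ρ z.1 := D.ρs.comp contDiff_fst
  exact (h1.div h2 fun z => (D.a0.trans_le (D.ρa z.1)).ne').differentiable (by simp)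

end BFAux

theorem bf (hG : Stmt_GF) (hL : Stmt_LV) (hZ : Stmt_ZX) : Stmt_BF := by
  intro n D
  obtain ⟨Z, L, C, c1, lip, bd, tr, en, hY⟩ := hZ n D
  obtain ⟨φ, h0, hadd, hc, hd⟩ := hG (P n) Z L lip
  have hen : ∀ s z, D.k (φ s z) = D.k z := by
    intro s z
    have hder : ∀ r : ℝ, HasDerivAt (fun r => D.k (φ r z)) 0 r := by
      intro r
      have h1 := (BFAux.differentiable_k D (φ r z)).hasFDerivAt
      have h2 := h1.comp_hasDerivAt r (hd r z)
      rw [en] at h2
      exact h2
    have h3 := is_const_of_deriv_eq_zero (f := fun r => D.k (φ r z))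
      (fun r => (hder r).differentiableAt) (fun r => (hder r).deriv) s 0
    simp only [h0] at h3
    exact h3
  refine ⟨φ, ?_⟩
  refine { zero := h0, add := hadd, cont := hc, energy := hen, deriv := ?_, move := ?_, pres := ?_ }
  · intro s z hz
    have h1 := hd s z
    rw [hY (φ s z) (by rw [hen]; exact hz)] at h1
    exact h1
  · refine ⟨C, fun s z => ?_⟩
    have h1 := Convex.norm_image_sub_le_of_norm_hasDerivWithin_le (f := fun r => φ r z)
      (f' := fun r => Z (φ r z)) (s := univ) (x := 0) (y := s) (C := C)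
      (fun r _ => (hd r z).hasDerivWithinAt) (fun r _ => bd _) convex_univ (mem_univ _)
      (mem_univ _)
    simp only [h0, sub_zero, Real.norm_eq_abs] at h1
    exact h1
  · have := haarP n
    exact hL (P n) volume Z L C c1 lip bd tr φ h0 hadd hc hd

end Pool.Agent.WPD
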