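import Pool.Agent.WPD.Stmts

/-!
# Warped products: module CHG, the data after the change of variables
-/

set_option autoImplicit false

namespace Pool.Agent.WPD

open MeasureTheory Set Filter Topology

namespace CHGAux

variable {n : ℕ} (D : WD n)

lemma k_nonneg (z : P n) : 0 ≤ D.k z := by
  have h1 : 0 < D.ρ z.1 := lt_of_lt_of_le D.a0 (D.ρa z.1)
  unfold WD.k
  positivity

lemma k_cont : Continuous D.k := by
  have h1 : Continuous D.ρ := D.ρs.continuous
  have h2 : ∀ z : P n, D.ρ z.1 ≠ 0 := fun z => (lt_of_lt_of_le D.a0 (D.ρa z.1)).ne'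
  exact (continuous_snd.norm.pow 2).div (h1.comp continuous_fst) h2

/-- the clamp -/
noncomputable def cl (r : ℝ) : ℝ := min (max r 0) 1

lemma cl_cont : Continuous cl := (continuous_id.max continuous_const).min continuous_const

lemma cl_of {r : ℝ} (h0 : 0 ≤ r) (h1 : r ≤ 1) : cl r = r := by
  rw [cl, max_eq_left h0, min_eq_left h1]

lemma cl_nonneg (r : ℝ) : 0 ≤ cl r := le_min (le_max_right _ _) zero_le_one

lemma cl_le (r : ℝ) : cl r ≤ 1 := min_le_right _ _

/-- the clamped fibre time -/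
noncomputable def Gt (ε r t : ℝ) : ℝ := ε * D.sg (ε ^ 2 * cl r) t

/-- the clamped weight -/
noncomputable def Wt (ε r t : ℝ) : ℝ := D.w (ε ^ 2 * cl r) t

lemma kap_nonneg (ε r : ℝ) : 0 ≤ ε ^ 2 * cl r := mul_nonneg (sq_nonneg _) (cl_nonneg r)

lemma kap_le {ε : ℝ} (hε : ε ^ 2 ≤ D.a / 2) (r : ℝ) : ε ^ 2 * cl r ≤ D.a / 2 := by
  have h1 := mul_le_mul_of_nonneg_left (cl_le r) (sq_nonneg ε)
  linarith

lemma Gt_cont {C : ℝ} (hS : Sgf D C) {ε : ℝ} (hε : ε ^ 2 ≤ D.a / 2) :
    Continuous (fun p : ℝ × ℝ => Gt D ε p.1 p.2) := by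
  have h1 : Continuous (fun p : ℝ × ℝ => ((ε ^ 2 * cl p.1, p.2) : ℝ × ℝ)) :=
    (continuous_const.mul (cl_cont.comp continuous_fst)).prodMk continuous_snd
  have h2 := (hS.sgc.comp h1).const_mul ε
  refine h2.congr fun p => ?_
  simp only [Function.comp_apply, Gt]
  rw [min_eq_left (kap_le D hε p.1)]

lemma Wt_cont {C : ℝ} (hS : Sgf D C) {ε : ℝ} (hε : ε ^ 2 ≤ D.a / 2) :
    Continuous (fun p : ℝ × ℝ => Wt D ε p.1 p.2) := by
  have h1 : Continuous (fun p : ℝ × ℝ => ((ε ^ 2 * cl p.1, p.2) : ℝ × ℝ)) :=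
    (continuous_const.mul (cl_cont.comp continuous_fst)).prodMk continuous_snd
  have h2 := hS.wc.comp h1
  refine h2.congr fun p => ?_
  simp only [Function.comp_apply, Wt]
  rw [min_eq_left (kap_le D hε p.1)]

lemma Wt_abs {C : ℝ} (hS : Sgf D C) {ε : ℝ} (hε : ε ^ 2 ≤ D.a / 2) (r t : ℝ) :
    |Wt D ε r t| ≤ C := by
  have h1 := hS.wl _ t (kap_nonneg ε r) (kap_le D hε r)
  have h2 := hS.wu _ t (kap_nonneg ε r) (kap_le D hε r)
  have h3 : 0 < C⁻¹ := inv_pos.2 hS.C0
  unfold Wt
  rw [abs_of_pos (lt_of_lt_of_le h3 h1)]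
  exact h2

end CHGAux

open CHGAux in
/-- module CHG -/
theorem chg (hM : Stmt_MPG) (hS : Stmt_SG) : Stmt_CHG := by
  intro n D φ hφ ε hε0 hε hZ Ψ hΨ
  obtain ⟨C, hC⟩ := hS n D
  have hkc := k_cont D
  have hGc := Gt_cont D hC hε
  have hWc := Wt_cont D hC hε
  have hΨc : Continuous Ψ := hΨ.smooth.continuous
  have : (volume : Measure (P n)).IsAddHaarMeasure := haarP n
  -- the map `(t, z) ↦ φ (± G) z`
  have hΦc : Continuous (fun p : ℝ × P n => φ (Gt D ε (D.k p.2) p.1) p.2) :=
    hφ.cont.comp ((hGc.comp ((hkc.comp continuous_snd).prodMk continuous_fst)).prodMk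
      continuous_snd)
  have hΦn : ∀ t : ℝ, Continuous (fun z : P n => φ (-(Gt D ε (D.k z) t)) z) := fun t =>
    hφ.cont.comp (((hGc.comp (hkc.prodMk continuous_const)).neg).prodMk continuous_id)
  have hfm : Measurable (fun p : ℝ × P n =>
      D.f p.1 (φ (Gt D ε (D.k p.2) p.1) p.2).1) :=
    D.fm.comp (measurable_fst.prodMk (continuous_fst.comp hΦc).measurable)
  -- the inner integral
  have hin : ∀ t : ℝ, ∫ z : P n, (D.f t z.1 : ℂ) * Ψ (φ (-(ε * D.sg (ε ^ 2 * D.k z) t)) z) *
      (D.w (ε ^ 2 * D.k z) t : ℂ) =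
      ∫ z : P n, (D.f t (φ (Gt D ε (D.k z) t) z).1 : ℂ) * Ψ z * (Wt D ε (D.k z) t : ℂ) := by
    intro t
    have hmp : MeasurePreserving (fun z : P n => φ (Gt D ε (D.k z) t) z) volume volume :=
      hM n D φ hφ (fun r => Gt D ε r t) (hGc.comp (continuous_id.prodMk continuous_const))
    have e1 : ∀ z : P n, (D.f t z.1 : ℂ) * Ψ (φ (-(ε * D.sg (ε ^ 2 * D.k z) t)) z) *
        (D.w (ε ^ 2 * D.k z) t : ℂ) =
        (D.f t z.1 : ℂ) * Ψ (φ (-(Gt D ε (D.k z) t)) z) * (Wt D ε (D.k z) t : ℂ) := by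
      intro z
      rcases lt_or_ge (D.k z) 1 with h | h
      · have h1 : cl (D.k z) = D.k z := cl_of (k_nonneg D z) h.le
        unfold Gt Wt
        rw [h1]
      · have h1 : ∀ s, Ψ (φ s z) = 0 := fun s => hΨ.low _ (by rw [hφ.energy]; exact h)
        rw [h1, h1]
        simp
    rw [integral_congr_ae (Eventually.of_forall e1)]
    have hmeas : Measurable (fun z : P n => (D.f t z.1 : ℂ) *
        Ψ (φ (-(Gt D ε (D.k z) t)) z) * (Wt D ε (D.k z) t : ℂ)) := by
      refine Measurable.mul (Measurable.mul ?_ ?_) ?_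
      · exact Complex.measurable_ofReal.comp
          (D.fm.comp (measurable_const.prodMk measurable_fst))
      · exact (hΨc.comp (hΦn t)).measurable
      · exact Complex.measurable_ofReal.comp
          (hWc.comp (hkc.prodMk continuous_const)).measurable
    have e2 := integral_map (μ := (volume : Measure (P n)))
      (φ := fun z : P n => φ (Gt D ε (D.k z) t) z) hmp.measurable.aemeasurable
      (f := fun z : P n => (D.f t z.1 : ℂ) *
        Ψ (φ (-(Gt D ε (D.k z) t)) z) * (Wt D ε (D.k z) t : ℂ))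
      hmeas.aestronglyMeasurable
    rw [hmp.map_eq] at e2
    rw [e2]
    refine integral_congr_ae (Eventually.of_forall fun z => ?_)
    simp only
    rw [hφ.energy, ← hφ.add, neg_add_cancel, hφ.zero]
  rw [integral_congr_ae (Eventually.of_forall hin)]
  -- Fubini
  have hint : Integrable (Function.uncurry fun (t : ℝ) (z : P n) =>
      (D.f t (φ (Gt D ε (D.k z) t) z).1 : ℂ) * Ψ z * (Wt D ε (D.k z) t : ℂ))
      ((volume : Measure ℝ).prod (volume : Measure (P n))) := by
    have hI : Integrable (fun p : ℝ × P n =>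
        (indicator (Icc (-D.R) D.R) (fun _ => D.B * C) p.1) * ‖Ψ p.2‖)
        ((volume : Measure ℝ).prod (volume : Measure (P n))) := by
      refine Integrable.mul_prod (f := indicator (Icc (-D.R) D.R) (fun _ => D.B * C))
        (g := fun z : P n => ‖Ψ z‖) ?_ ?_
      · rw [integrable_indicator_iff measurableSet_Icc]
        exact integrableOn_const (measure_Icc_lt_top.ne) enorm_ne_top
      · exact (hΨc.integrable_of_hasCompactSupport hΨ.supp).norm
    refine hI.mono' ?_ ?_
    · refine Measurable.aestronglyMeasurable ?_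
      refine Measurable.mul (Measurable.mul ?_ ?_) ?_
      · exact Complex.measurable_ofReal.comp hfm
      · exact (hΨc.comp continuous_snd).measurable
      · exact Complex.measurable_ofReal.comp
          (hWc.comp ((hkc.comp continuous_snd).prodMk continuous_fst)).measurable
    · refine Eventually.of_forall fun p => ?_
      obtain ⟨t, z⟩ := p
      simp only [Function.uncurry_apply_pair]
      rw [norm_mul, norm_mul, Complex.norm_real, Complex.norm_real, Real.norm_eq_abs,
        Real.norm_eq_abs]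
      have hW := Wt_abs D hC hε (D.k z) t
      have hf := D.fB t (φ (Gt D ε (D.k z) t) z).1
      have hB : 0 ≤ D.B := (abs_nonneg _).trans hf
      by_cases ht : t ∈ Icc (-D.R) D.R
      · rw [indicator_of_mem ht]
        calc |D.f t (φ (Gt D ε (D.k z) t) z).1| * ‖Ψ z‖ * |Wt D ε (D.k z) t|
            ≤ D.B * ‖Ψ z‖ * C := by gcongr
          _ = D.B * C * ‖Ψ z‖ := by ring
      · rw [indicator_of_notMem ht]
        have h1 : D.R ≤ |t| := by
          by_contra h2
          push Not at h2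
          exact ht ⟨by linarith [(abs_lt.1 h2).1], by linarith [(abs_lt.1 h2).2]⟩
        rw [D.f0 t _ (Or.inl h1)]
        simp
  rw [integral_integral_swap hint]
  -- the inner integral vanishes
  have hz : ∀ᵐ z : P n, ∫ t : ℝ,
      (D.f t (φ (Gt D ε (D.k z) t) z).1 : ℂ) * Ψ z * (Wt D ε (D.k z) t : ℂ) = 0 := by
    filter_upwards [hZ] with z hz
    rcases lt_or_ge (D.k z) 1 with h | h
    · have h1 : cl (D.k z) = D.k z := cl_of (k_nonneg D z) h.le
      have h2 := hz h
      have h3 : ∀ t : ℝ, (D.f t (φ (Gt D ε (D.k z) t) z).1 : ℂ) * Ψ z * (Wt D ε (D.k z) t : ℂ) =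
          Ψ z * ((D.f t (φ (ε * D.sg (ε ^ 2 * D.k z) t) z).1 * D.w (ε ^ 2 * D.k z) t : ℝ) : ℂ) := by
        intro t
        unfold Gt Wt
        rw [h1]
        push_cast
        ring
      rw [integral_congr_ae (Eventually.of_forall h3), integral_const_mul, integral_complex_ofReal,
        h2]
      simp
    · have h1 : Ψ z = 0 := hΨ.low z h
      rw [h1]
      simp
  rw [integral_congr_ae hz]
  simp

end Pool.Agent.WPD
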