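import Pool.Agent.WPD.Stmts

set_option autoImplicit false

open MeasureTheory Set Filter Topology

namespace Pool.Agent.WPD

theorem coc : Stmt_COC := by
  intro n D i
  have hβ : ∀ t, D.β t ≠ 0 := fun t => (D.a0.trans_le (D.βa t)).ne'
  have h1 : ∀ m, Continuous (fun s => √(D.α s) * WD.cb m / D.β s ^ (m + 1)) := by
    intro m
    refine Continuous.div ?_ ?_ (fun t => pow_ne_zero _ (hβ t))
    · exact (D.αc.sqrt).mul continuous_const
    · exact D.βc.pow _
  have hsc : ∀ m, Continuous (D.sc m) := by
    intro m
    exact intervalIntegral.continuous_primitive (fun a b => (h1 m).intervalIntegrable a b) 0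
  induction i with
  | zero =>
    intro m
    show Continuous (fun t => D.wc m t)
    refine Continuous.div ?_ ?_ (fun t => pow_ne_zero _ (hβ t))
    · exact (D.αc.sqrt).mul continuous_const
    · exact D.βc.pow _
  | succ i ih =>
    intro m
    show Continuous (fun t => ∑ l ∈ Finset.range (m + 1), D.sc l t * D.co i (m - l) t)
    exact continuous_finsetSum _ (fun l _ => (hsc l).mul (ih _))

end Pool.Agent.WPD
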