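import Pool.Agent.WPD.Stmts

/-!
# Warped products: the analytic core
-/

set_option autoImplicit false

namespace Pool.Agent.WPD

open MeasureTheory Set Filter Topology

/-- the key identity, the vanishing of the moments, and the moment problem together -/
theorem core (hK : Stmt_KEY) (hM : Stmt_MZ) (hO : Stmt_MOM) : Stmt_CORE := by
  intro n D φ hφ ε₀ hε₀ hZ
  exact hO n D (hM n D (fun j g hg => hK n D φ hφ ε₀ hε₀ hZ j g hg))

end Pool.Agent.WPD
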