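import Pool.Agent.WPD.Stmts
import Pool.Agent.Lib_helper67.QE.FlowParam

/-!
# The equation `(∂_0 + i ∂_1) k = h`

`db : Stmt_DB`. Polar coordinates:
`k(x) = (2π)⁻¹ ∫_0^{2π} ∫_0^L e^{-iθ} h(x - r(cos θ e0 + sin θ e1)) dr dθ`.
-/

set_option autoImplicit false

open MeasureTheory Set Filter Topology
open scoped ContDiff

namespace Pool.Agent.WPD.DBAux

section Gen

variable {E : Type} [NormedAddCommGroup E] [NormedSpace ℝ E] [ProperSpace E]

/-- smoothness of the double integral -/
lemma contDiff_two {f : ℝ × ℝ × E → ℂ} (hf : ContDiff ℝ ∞ f) (L M : ℝ) :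
    ContDiff ℝ ∞ fun x : E => ∫ θ in (0 : ℝ)..M, ∫ r in (0 : ℝ)..L, f (r, θ, x) := by
  have h1 : ContDiff ℝ ∞ (fun q : ℝ × E => ∫ r in (0 : ℝ)..L, f (r, q)) :=
    QE.contDiff_param hf 0 L
  exact QE.contDiff_param h1 0 M

/-- derivative of the double integral -/
lemma fderiv_two {f : ℝ × ℝ × E → ℂ} (hf : ContDiff ℝ ∞ f) (L M : ℝ) (x v : E) :
    fderiv ℝ (fun x : E => ∫ θ in (0 : ℝ)..M, ∫ r in (0 : ℝ)..L, f (r, θ, x)) x v =
      ∫ θ in (0 : ℝ)..M, ∫ r in (0 : ℝ)..L, fderiv ℝ f (r, θ, x) (0, 0, v) := by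
  have h1 : ContDiff ℝ ∞ (fun q : ℝ × E => ∫ r in (0 : ℝ)..L, f (r, q)) :=
    QE.contDiff_param hf 0 L
  have hd : Continuous (fderiv ℝ f) := hf.continuous_fderiv (by simp)
  have hd1 : Continuous (fderiv ℝ (fun q : ℝ × E => ∫ r in (0 : ℝ)..L, f (r, q))) :=
    h1.continuous_fderiv (by simp)
  have h2 := QE.hasFDerivAt_param (h1.of_le (by simp)) 0 M x
  rw [h2.fderiv, ContinuousLinearMap.intervalIntegral_apply]
  · refine intervalIntegral.integral_congr fun θ _ => ?_
    have h3 := QE.hasFDerivAt_param (E := ℝ × E) (f := f) (hf.of_le (by simp)) 0 L (θ, x)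
    simp only [ContinuousLinearMap.comp_apply, ContinuousLinearMap.inr_apply]
    rw [h3.fderiv, ContinuousLinearMap.intervalIntegral_apply]
    · rfl
    · refine Continuous.intervalIntegrable ?_ _ _
      exact (hd.comp (by fun_prop : Continuous fun t : ℝ => (t, θ, x))).clm_comp continuous_const
  · refine Continuous.intervalIntegrable ?_ _ _
    exact (hd1.comp (by fun_prop : Continuous fun t : ℝ => (t, x))).clm_comp continuous_const

end Gen

section Main

variable {n : ℕ}

/-- the first basis vector -/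
noncomputable def e0 : F n := EuclideanSpace.single 0 1
/-- the second basis vector -/
noncomputable def e1 : F n := EuclideanSpace.single 1 1
/-- the rotating vector -/
noncomputable def ev' (θ : ℝ) : F n := Real.cos θ • e0 + Real.sin θ • e1

lemma norm_ev' (θ : ℝ) : ‖(ev' θ : F n)‖ = 1 := by
  have h : ‖(ev' θ : F n)‖ ^ 2 = 1 := by
    rw [← real_inner_self_eq_norm_sq]
    simp only [ev', e0, e1, inner_add_left, inner_add_right, inner_smul_left, inner_smul_right,
      EuclideanSpace.inner_single_right]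
    simp
    nlinarith [Real.sin_sq_add_cos_sq θ]
  nlinarith [norm_nonneg (ev' θ : F n)]

/-- the integrand -/
noncomputable def fI (h : F n → ℂ) (p : ℝ × ℝ × F n) : ℂ :=
  Complex.exp (-(p.2.1 : ℂ) * Complex.I) * h (p.2.2 - p.1 • ev' p.2.1)

lemma contDiff_ev' : ContDiff ℝ ∞ (fun θ : ℝ => (ev' θ : F n)) :=
  (Real.contDiff_cos.smul contDiff_const).add (Real.contDiff_sin.smul contDiff_const)

lemma contDiff_arg : ContDiff ℝ ∞ (fun p : ℝ × ℝ × F n => p.2.2 - p.1 • (ev' p.2.1 : F n)) := by
  refine (contDiff_snd.comp contDiff_snd).sub (contDiff_fst.smul ?_)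
  exact contDiff_ev'.comp (contDiff_fst.comp contDiff_snd)

lemma contDiff_fI {h : F n → ℂ} (hh : ContDiff ℝ ∞ h) : ContDiff ℝ ∞ (fI h) := by
  refine ContDiff.mul ?_ (hh.comp contDiff_arg)
  refine ContDiff.cexp ?_
  refine ContDiff.mul (ContDiff.neg ?_) contDiff_const
  exact Complex.ofRealCLM.contDiff.comp (contDiff_fst.comp contDiff_snd)

lemma fderiv_fI {h : F n → ℂ} (hh : ContDiff ℝ ∞ h) (r θ : ℝ) (x v : F n) :
    fderiv ℝ (fI h) (r, θ, x) (0, 0, v) =
      Complex.exp (-(θ : ℂ) * Complex.I) * fderiv ℝ h (x - r • ev' θ) v := by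
  have h1 : HasFDerivAt (fI h) (fderiv ℝ (fI h) (r, θ, x)) (r, θ, x) :=
    ((contDiff_fI hh).differentiable (by simp) _).hasFDerivAt
  have h2 : HasDerivAt (fun t : ℝ => ((r, θ, x + t • v) : ℝ × ℝ × F n)) (0, 0, v) 0 := by
    refine (hasDerivAt_const _ _).prodMk ((hasDerivAt_const _ _).prodMk ?_)
    simpa using ((hasDerivAt_id (0 : ℝ)).smul_const v).const_add x
  have h3 : HasDerivAt (fun t : ℝ => fI h (r, θ, x + t • v))
      (fderiv ℝ (fI h) (r, θ, x) (0, 0, v)) 0 := by
    have := HasFDerivAt.comp_hasDerivAt (x := (0 : ℝ)) (l := fI h)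
      (f := fun t : ℝ => ((r, θ, x + t • v) : ℝ × ℝ × F n))
      (l' := fderiv ℝ (fI h) (r, θ, x)) (f' := (0, 0, v)) (by simpa using h1) h2
    exact this
  have h4 : HasDerivAt (fun t : ℝ => fI h (r, θ, x + t • v))
      (Complex.exp (-(θ : ℂ) * Complex.I) * fderiv ℝ h (x - r • ev' θ) v) 0 := by
    show HasDerivAt (fun t : ℝ => Complex.exp (-(θ : ℂ) * Complex.I) * h (x + t • v - r • ev' θ))
      _ 0
    refine HasDerivAt.const_mul _ ?_
    have h5 : HasFDerivAt h (fderiv ℝ h (x - r • ev' θ)) (x + (0 : ℝ) • v - r • ev' θ) := by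
      simpa using (hh.differentiable (by simp) (x - r • ev' θ)).hasFDerivAt
    have h6 : HasDerivAt (fun t : ℝ => x + t • v - r • ev' θ) v 0 := by
      simpa using (((hasDerivAt_id (0 : ℝ)).smul_const v).const_add x).sub_const (r • ev' θ)
    exact h5.comp_hasDerivAt (0 : ℝ) h6
  exact h3.unique h4

lemma hasDerivAt_r {h : F n → ℂ} (hh : ContDiff ℝ ∞ h) (r θ : ℝ) (x : F n) :
    HasDerivAt (fun r : ℝ => h (x - r • ev' θ)) (-(fderiv ℝ h (x - r • ev' θ) (ev' θ))) r := by
  have h5 : HasFDerivAt h (fderiv ℝ h (x - r • ev' θ)) (x - r • ev' θ) :=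
    (hh.differentiable (by simp) (x - r • ev' θ)).hasFDerivAt
  have h6 : HasDerivAt (fun r : ℝ => x - r • (ev' θ : F n)) (-(ev' θ)) r := by
    simpa using ((hasDerivAt_id r).smul_const (ev' θ : F n)).const_sub x
  have := h5.comp_hasDerivAt r h6
  rwa [map_neg] at this

lemma hasDerivAt_θ {h : F n → ℂ} (hh : ContDiff ℝ ∞ h) (r θ : ℝ) (x : F n) :
    HasDerivAt (fun θ : ℝ => h (x - r • ev' θ))
      (-((r : ℂ) * (Real.cos θ * fderiv ℝ h (x - r • ev' θ) e1 -
        Real.sin θ * fderiv ℝ h (x - r • ev' θ) e0))) θ := by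
  have h5 : HasFDerivAt h (fderiv ℝ h (x - r • ev' θ)) (x - r • ev' θ) :=
    (hh.differentiable (by simp) (x - r • ev' θ)).hasFDerivAt
  have h6 : HasDerivAt (fun θ : ℝ => x - r • (ev' θ : F n))
      (-(r • ((-Real.sin θ) • e0 + Real.cos θ • e1))) θ := by
    have h7 : HasDerivAt (fun θ : ℝ => (ev' θ : F n)) ((-Real.sin θ) • e0 + Real.cos θ • e1) θ :=
      ((Real.hasDerivAt_cos θ).smul_const e0).add ((Real.hasDerivAt_sin θ).smul_const e1)
    simpa using (h7.const_smul r).const_sub x
  have := h5.comp_hasDerivAt θ h6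
  refine this.congr_deriv ?_
  simp only [map_neg, map_smul, map_add, Complex.real_smul]
  push_cast
  ring

end Main

end Pool.Agent.WPD.DBAux

namespace Pool.Agent.WPD

open DBAux in
/-- the equation `(∂_0 + i ∂_1) k = h` -/
theorem db : Stmt_DB := by
  intro n h R hh
  have hs : ContDiff ℝ ∞ h := hh.smooth
  obtain ⟨R₀, hR₀⟩ := hh.supp.isCompact.isBounded.subset_closedBall (0 : F n)
  set L : ℝ := |R| + |R₀| + 1 with hL
  have hL0 : 0 < L := by positivity
  have hzero : ∀ y : F n, |R₀| < ‖y‖ → h y = 0 := by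
    intro y hy
    by_contra hne
    have h1 := hR₀ (subset_tsupport _ (Function.mem_support.2 hne))
    rw [mem_closedBall_zero_iff] at h1
    linarith [le_abs_self R₀]
  have hf := contDiff_fI hs
  refine ⟨fun x => (2 * Real.pi : ℂ)⁻¹ *
    ∫ θ in (0 : ℝ)..(2 * Real.pi), ∫ r in (0 : ℝ)..L, fI h (r, θ, x), ?_, ?_⟩
  · exact contDiff_const.mul (contDiff_two hf L (2 * Real.pi))
  · intro x hx
    have hd : DifferentiableAt ℝ
        (fun x : F n => ∫ θ in (0 : ℝ)..(2 * Real.pi), ∫ r in (0 : ℝ)..L, fI h (r, θ, x)) x :=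
      (contDiff_two hf L (2 * Real.pi)).differentiable (by simp) x
    have e : ∀ v : F n, fderiv ℝ (fun x => (2 * Real.pi : ℂ)⁻¹ *
        ∫ θ in (0 : ℝ)..(2 * Real.pi), ∫ r in (0 : ℝ)..L, fI h (r, θ, x)) x v =
        (2 * Real.pi : ℂ)⁻¹ * ∫ θ in (0 : ℝ)..(2 * Real.pi), ∫ r in (0 : ℝ)..L,
          Complex.exp (-(θ : ℂ) * Complex.I) * fderiv ℝ h (x - r • ev' θ) v := by
      intro v
      rw [fderiv_const_mul hd]
      simp only [smul_apply, smul_eq_mul]
      rw [fderiv_two hf L (2 * Real.pi) x v]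
      simp only [fderiv_fI hs]
    rw [e, e]
    -- continuity of the integrands
    have hcf : Continuous (fderiv ℝ h) := hs.continuous_fderiv (by simp)
    have hcev : Continuous (fun θ : ℝ => (ev' θ : F n)) := contDiff_ev'.continuous
    have hcA : ∀ v : F n, Continuous (fun p : ℝ × ℝ => fderiv ℝ h (x - p.2 • ev' p.1) v) := by
      intro v
      refine (hcf.comp ?_).clm_apply continuous_const
      exact continuous_const.sub (continuous_snd.smul (hcev.comp continuous_fst))
    have hcI : ∀ v : F n, Continuous (fun p : ℝ × ℝ => Complex.exp (-(p.1 : ℂ) * Complex.I) *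
        fderiv ℝ h (x - p.2 • ev' p.1) v) := by
      intro v
      refine Continuous.mul ?_ (hcA v)
      fun_prop
    have hin : ∀ (v : F n) (θ : ℝ), IntervalIntegrable (fun r : ℝ =>
        Complex.exp (-(θ : ℂ) * Complex.I) * fderiv ℝ h (x - r • ev' θ) v) volume 0 L := by
      intro v θ
      exact ((hcI v).comp (by fun_prop : Continuous fun r : ℝ => (θ, r))).intervalIntegrable _ _
    have hout : ∀ (g : ℝ × ℝ → ℂ), Continuous g → IntervalIntegrable (fun θ : ℝ =>
        ∫ r in (0 : ℝ)..L, g (θ, r)) volume 0 (2 * Real.pi) := by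
      intro g hg
      refine Continuous.intervalIntegrable ?_ _ _
      exact intervalIntegral.continuous_parametric_intervalIntegral_of_continuous'
        (f := fun θ r => g (θ, r)) hg 0 L
    have hIe1 : Complex.I * ∫ θ in (0 : ℝ)..(2 * Real.pi), ∫ r in (0 : ℝ)..L,
          Complex.exp (-(θ : ℂ) * Complex.I) * fderiv ℝ h (x - r • ev' θ) e1 =
        ∫ θ in (0 : ℝ)..(2 * Real.pi), ∫ r in (0 : ℝ)..L,
          Complex.I * (Complex.exp (-(θ : ℂ) * Complex.I) * fderiv ℝ h (x - r • ev' θ) e1) := by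
      rw [← intervalIntegral.integral_const_mul]
      refine intervalIntegral.integral_congr fun θ _ => ?_
      rw [← intervalIntegral.integral_const_mul]
    -- the two parts
    set T : ℝ × ℝ → ℂ := fun p => Real.cos p.1 * fderiv ℝ h (x - p.2 • ev' p.1) e1 -
        Real.sin p.1 * fderiv ℝ h (x - p.2 • ev' p.1) e0 with hT
    have hTc : Continuous T := by
      refine Continuous.sub (Continuous.mul ?_ (hcA e1)) (Continuous.mul ?_ (hcA e0))
      · exact Complex.continuous_ofReal.comp (Real.continuous_cos.comp continuous_fst)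
      · exact Complex.continuous_ofReal.comp (Real.continuous_sin.comp continuous_fst)
    have hpt : ∀ θ r : ℝ, Complex.exp (-(θ : ℂ) * Complex.I) * fderiv ℝ h (x - r • ev' θ) e0 +
        Complex.I * (Complex.exp (-(θ : ℂ) * Complex.I) * fderiv ℝ h (x - r • ev' θ) e1) =
        fderiv ℝ h (x - r • ev' θ) (ev' θ) + Complex.I * T (θ, r) := by
      intro θ r
      have e1' : Complex.exp (-(θ : ℂ) * Complex.I) = Real.cos θ - Real.sin θ * Complex.I := by
        rw [Complex.exp_mul_I, Complex.cos_neg, Complex.sin_neg]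
        push_cast
        ring
      have e2' : fderiv ℝ h (x - r • ev' θ) (ev' θ) =
          Real.cos θ * fderiv ℝ h (x - r • ev' θ) e0 +
            Real.sin θ * fderiv ℝ h (x - r • ev' θ) e1 := by
        have : (ev' θ : F n) = Real.cos θ • e0 + Real.sin θ • e1 := rfl
        generalize x - r • ev' θ = y
        rw [this, map_add, map_smul, map_smul, Complex.real_smul, Complex.real_smul]
      rw [e1', e2', hT]
      simp only
      linear_combination (-(Real.sin θ : ℂ) * fderiv ℝ h (x - r • ev' θ) e1) * Complex.I_sq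
    have hD1 : ∀ θ : ℝ, ∫ r in (0 : ℝ)..L, fderiv ℝ h (x - r • ev' θ) (ev' θ) = h x := by
      intro θ
      have h1 : ∫ r in (0 : ℝ)..L, -(fderiv ℝ h (x - r • ev' θ) (ev' θ)) =
          h (x - L • ev' θ) - h (x - (0 : ℝ) • ev' θ) := by
        refine intervalIntegral.integral_eq_sub_of_hasDerivAt
          (f := fun r : ℝ => h (x - r • ev' θ)) (fun r _ => hasDerivAt_r hs r θ x) ?_
        refine Continuous.intervalIntegrable ?_ _ _
        refine Continuous.neg ((hcf.comp ?_).clm_apply continuous_const)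
        exact continuous_const.sub (continuous_id.smul continuous_const)
      rw [intervalIntegral.integral_neg] at h1
      have h2 : h (x - L • ev' θ) = 0 := by
        apply hzero
        have h3 : ‖L • (ev' θ : F n)‖ = L := by
          rw [norm_smul, norm_ev', mul_one, Real.norm_of_nonneg hL0.le]
        have h4 := norm_sub_norm_le (L • (ev' θ : F n)) x
        rw [h3, norm_sub_rev] at h4
        have h5 := le_abs_self R
        linarith
      rw [h2, zero_smul, sub_zero, zero_sub] at h1
      exact neg_injective h1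
    have hD2 : ∫ θ in (0 : ℝ)..(2 * Real.pi), ∫ r in (0 : ℝ)..L, T (θ, r) = 0 := by
      rw [intervalIntegral_intervalIntegral_swap (F := fun θ r => T (θ, r))]
      · refine intervalIntegral.integral_zero_ae (ae_of_all _ fun r hr => ?_)
        rw [uIoc_of_le hL0.le] at hr
        have hr0 : (r : ℂ) ≠ 0 := by exact_mod_cast hr.1.ne'
        have h1 : ∫ θ in (0 : ℝ)..(2 * Real.pi), -((r : ℂ) * T (θ, r)) =
            h (x - r • ev' (2 * Real.pi)) - h (x - r • ev' 0) := by
          refine intervalIntegral.integral_eq_sub_of_hasDerivAt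
            (f := fun θ : ℝ => h (x - r • ev' θ)) (fun θ _ => hasDerivAt_θ hs r θ x) ?_
          refine Continuous.intervalIntegrable ?_ _ _
          exact (continuous_const.mul (hTc.comp (by fun_prop))).neg
        have h2 : (ev' (2 * Real.pi) : F n) = ev' 0 := by simp [ev']
        rw [h2, sub_self, intervalIntegral.integral_neg, intervalIntegral.integral_const_mul,
          neg_eq_zero, mul_eq_zero] at h1
        exact h1.resolve_left hr0
      · refine (hTc.continuousOn.integrableOn_compact (isCompact_uIcc.prod isCompact_uIcc)).mono_set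
          (prod_mono uIoc_subset_uIcc uIoc_subset_uIcc)
    have hsum : (∫ θ in (0 : ℝ)..(2 * Real.pi), ∫ r in (0 : ℝ)..L,
          Complex.exp (-(θ : ℂ) * Complex.I) * fderiv ℝ h (x - r • ev' θ) e0) +
        Complex.I * ∫ θ in (0 : ℝ)..(2 * Real.pi), ∫ r in (0 : ℝ)..L,
          Complex.exp (-(θ : ℂ) * Complex.I) * fderiv ℝ h (x - r • ev' θ) e1 =
        2 * Real.pi * h x := by
      have i0 : IntervalIntegrable (fun θ : ℝ => ∫ r in (0 : ℝ)..L,
          Complex.exp (-(θ : ℂ) * Complex.I) * fderiv ℝ h (x - r • ev' θ) e0) volume 0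
          (2 * Real.pi) := hout _ (hcI e0)
      have i1 : IntervalIntegrable (fun θ : ℝ => ∫ r in (0 : ℝ)..L,
          Complex.I * (Complex.exp (-(θ : ℂ) * Complex.I) * fderiv ℝ h (x - r • ev' θ) e1)) volume 0
          (2 * Real.pi) := hout (fun p => Complex.I * (Complex.exp (-(p.1 : ℂ) * Complex.I) *
            fderiv ℝ h (x - p.2 • ev' p.1) e1)) (continuous_const.mul (hcI e1))
      rw [hIe1, ← intervalIntegral.integral_add i0 i1]
      have h1 : ∀ θ : ℝ, ((∫ r in (0 : ℝ)..L,
          Complex.exp (-(θ : ℂ) * Complex.I) * fderiv ℝ h (x - r • ev' θ) e0) +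
          ∫ r in (0 : ℝ)..L, Complex.I * (Complex.exp (-(θ : ℂ) * Complex.I) *
            fderiv ℝ h (x - r • ev' θ) e1)) =
          h x + Complex.I * ∫ r in (0 : ℝ)..L, T (θ, r) := by
        intro θ
        rw [← intervalIntegral.integral_add (hin e0 θ) ((hin e1 θ).const_mul _)]
        simp only [hpt]
        rw [intervalIntegral.integral_add, hD1, intervalIntegral.integral_const_mul]
        · refine Continuous.intervalIntegrable ?_ _ _
          refine (hcf.comp ?_).clm_apply continuous_const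
          exact continuous_const.sub (continuous_id.smul continuous_const)
        · refine Continuous.intervalIntegrable ?_ _ _
          exact continuous_const.mul (hTc.comp (by fun_prop))
      simp only [h1]
      rw [intervalIntegral.integral_add intervalIntegrable_const, intervalIntegral.integral_const,
        intervalIntegral.integral_const_mul, hD2]
      · simp
      · exact (hout T hTc).const_mul _
    have hπ : (2 * Real.pi : ℂ) ≠ 0 := by
      have := Real.pi_ne_zero
      exact mul_ne_zero two_ne_zero (by exact_mod_cast this)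
    calc _ = (2 * Real.pi : ℂ)⁻¹ * ((∫ θ in (0 : ℝ)..(2 * Real.pi), ∫ r in (0 : ℝ)..L,
          Complex.exp (-(θ : ℂ) * Complex.I) * fderiv ℝ h (x - r • ev' θ) e0) +
        Complex.I * ∫ θ in (0 : ℝ)..(2 * Real.pi), ∫ r in (0 : ℝ)..L,
          Complex.exp (-(θ : ℂ) * Complex.I) * fderiv ℝ h (x - r • ev' θ) e1) := by
            simp only [e0, e1]
            ring
      _ = h x := by
        rw [hsum]
        field_simp

end Pool.Agent.WPD
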