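import Pool.Agent.WPD.Stmts

/-!
# The derivative along the geodesic field of a test function is a test function
-/

set_option autoImplicit false

namespace Pool.Agent.WPD

open MeasureTheory Set Filter Topology

namespace DTFAux

variable {n : ℕ} (D : WD n)

theorem rho_pos (x : F n) : 0 < D.ρ x := lt_of_lt_of_le D.a0 (D.ρa x)

theorem grad_smooth : ContDiff ℝ (⊤ : ℕ∞) (fun x : F n => gradient D.ρ x) := by
  have h1 : ContDiff ℝ (⊤ : ℕ∞) (fun x : F n => fderiv ℝ D.ρ x) :=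
    D.ρs.fderiv_right (m := (⊤ : ℕ∞)) (by simp)
  have h2 : ContDiff ℝ (⊤ : ℕ∞)
      (fun x : F n => (InnerProductSpace.toDual ℝ (F n)).symm (fderiv ℝ D.ρ x)) :=
    (InnerProductSpace.toDual ℝ (F n)).symm.contDiff.comp h1
  exact h2

theorem rho_fst : ContDiff ℝ (⊤ : ℕ∞) (fun z : P n => D.ρ z.1) := D.ρs.comp contDiff_fst

theorem norm_snd : ContDiff ℝ (⊤ : ℕ∞) (fun z : P n => ‖z.2‖ ^ 2) := by
  have h1 : ContDiff ℝ (⊤ : ℕ∞) (fun q : F n => ‖q‖ ^ 2) := contDiff_norm_sq ℝ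
  have h2 : ContDiff ℝ (⊤ : ℕ∞) (fun z : P n => z.2) := contDiff_snd
  exact h1.comp h2

theorem Y_smooth : ContDiff ℝ (⊤ : ℕ∞) D.Y := by
  have hr := rho_fst D
  have h0 : ContDiff ℝ (⊤ : ℕ∞) (fun z : P n => (D.ρ z.1)⁻¹) :=
    ContDiff.inv hr (fun z : P n => (rho_pos D z.1).ne')
  have h1 : ContDiff ℝ (⊤ : ℕ∞) (fun z : P n => (D.ρ z.1)⁻¹ • z.2) := h0.smul contDiff_snd
  have h2 : ContDiff ℝ (⊤ : ℕ∞)
      (fun z : P n => (‖z.2‖ ^ 2 / (2 * D.ρ z.1 ^ 2)) • gradient D.ρ z.1) := by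
    have h3 : ContDiff ℝ (⊤ : ℕ∞) (fun z : P n => gradient D.ρ z.1) :=
      (grad_smooth D).comp contDiff_fst
    have h4 : ContDiff ℝ (⊤ : ℕ∞) (fun z : P n => 2 * D.ρ z.1 ^ 2) :=
      contDiff_const.mul (hr.pow 2)
    have h5 : ∀ z : P n, 2 * D.ρ z.1 ^ 2 ≠ 0 := by
      intro z
      have := rho_pos D z.1
      positivity
    have h6 : ContDiff ℝ (⊤ : ℕ∞) (fun z : P n => ‖z.2‖ ^ 2 / (2 * D.ρ z.1 ^ 2)) :=
      ContDiff.div norm_snd h4 h5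
    exact h6.smul h3
  exact h1.prodMk h2

theorem k_cont : Continuous D.k := by
  have h : Continuous (fun z : P n => ‖z.2‖ ^ 2 / D.ρ z.1) :=
    norm_snd.continuous.div (rho_fst D).continuous (fun z => (rho_pos D z.1).ne')
  exact h

theorem der_smooth {Ψ : P n → ℂ} (h : ContDiff ℝ (⊤ : ℕ∞) Ψ) : ContDiff ℝ (⊤ : ℕ∞) (D.der Ψ) := by
  have h1 : ContDiff ℝ (⊤ : ℕ∞) (fun z : P n => fderiv ℝ Ψ z) :=
    h.fderiv_right (m := (⊤ : ℕ∞)) (by simp)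
  exact h1.clm_apply (Y_smooth D)

theorem der_supp {Ψ : P n → ℂ} (h : HasCompactSupport Ψ) : HasCompactSupport (D.der Ψ) := by
  have h1 : HasCompactSupport (fderiv ℝ Ψ) := h.fderiv ℝ
  refine h1.mono (fun z hz => ?_)
  rw [Function.mem_support] at hz ⊢
  intro h0
  apply hz
  show fderiv ℝ Ψ z (D.Y z) = 0
  rw [h0]
  rfl

theorem der_gt {Ψ : P n → ℂ} (h : ∀ z, 1 ≤ D.k z → Ψ z = 0) {z : P n} (hz : 1 < D.k z) :
    D.der Ψ z = 0 := by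
  have h1 : Ψ =ᶠ[𝓝 z] (fun _ => (0 : ℂ)) := by
    have h2 : ∀ᶠ y in 𝓝 z, 1 < D.k y := (k_cont D).continuousAt.eventually (lt_mem_nhds hz)
    filter_upwards [h2] with y hy
    exact h y hy.le
  show fderiv ℝ Ψ z (D.Y z) = 0
  rw [h1.fderiv_eq]
  simp

theorem der_ge {Ψ : P n → ℂ} (hs : ContDiff ℝ (⊤ : ℕ∞) Ψ) (h : ∀ z, 1 ≤ D.k z → Ψ z = 0) {z : P n}
    (hz : 1 ≤ D.k z) : D.der Ψ z = 0 := by
  have hc : Continuous (D.der Ψ) := (der_smooth D hs).continuous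
  have hcv : Continuous (fun δ : ℝ => D.der Ψ (z.1, (1 + δ) • z.2)) := by
    refine hc.comp ?_
    fun_prop
  have hk : ∀ δ : ℝ, D.k (z.1, (1 + δ) • z.2) = (1 + δ) ^ 2 * D.k z := by
    intro δ
    show ‖(1 + δ) • z.2‖ ^ 2 / D.ρ z.1 = (1 + δ) ^ 2 * (‖z.2‖ ^ 2 / D.ρ z.1)
    rw [norm_smul, mul_pow, Real.norm_eq_abs, sq_abs, mul_div_assoc]
  have h1 : Tendsto (fun δ : ℝ => D.der Ψ (z.1, (1 + δ) • z.2)) (𝓝[>] 0)
      (𝓝 (D.der Ψ (z.1, (1 + (0 : ℝ)) • z.2))) :=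
    (hcv.tendsto 0).mono_left nhdsWithin_le_nhds
  have h2 : Tendsto (fun δ : ℝ => D.der Ψ (z.1, (1 + δ) • z.2)) (𝓝[>] 0) (𝓝 0) := by
    refine tendsto_const_nhds.congr' ?_
    filter_upwards [self_mem_nhdsWithin] with δ hδ
    have hδ0 : (0 : ℝ) < δ := hδ
    refine (der_gt D h ?_).symm
    rw [hk]
    nlinarith [sq_nonneg δ]
  have h3 := tendsto_nhds_unique h1 h2
  have h4 : (z.1, (1 + (0 : ℝ)) • z.2) = z := by
    rw [add_zero, one_smul]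
  rwa [h4] at h3

end DTFAux

theorem dtf : Stmt_DTF := by
  intro n D Ψ h
  exact ⟨DTFAux.der_smooth D h.smooth, DTFAux.der_supp D h.supp,
    fun z hz => DTFAux.der_ge D h.smooth h.low hz⟩

end Pool.Agent.WPD
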