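import Pool.Agent.WPD.Stmts

/-!
# Warped products: expansion in powers of the energy
-/

set_option autoImplicit false

namespace Pool.Agent.WPD

open MeasureTheory Set Filter Topology

namespace EXPAux

theorem cb_succ (m : ℕ) : ((m : ℝ) + 1) * WD.cb (m + 1) = (m + 1 / 2) * WD.cb m := by
  unfold WD.cb
  have h := Nat.succ_mul_centralBinom_succ m
  have h2 : ((m : ℝ) + 1) * (Nat.centralBinom (m + 1) : ℝ) =
      2 * (2 * m + 1) * (Nat.centralBinom m : ℝ) := by exact_mod_cast h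
  have h4 : (4 : ℝ) ^ m ≠ 0 := by positivity
  rw [pow_succ]
  field_simp
  linear_combination 2 * h2

theorem cb_nonneg (m : ℕ) : 0 ≤ WD.cb m := by unfold WD.cb; positivity

noncomputable def pp (J : ℕ) (y : ℝ) : ℝ := ∑ m ∈ Finset.range (J + 1), WD.cb m * y ^ m

noncomputable def dp (J : ℕ) (y : ℝ) : ℝ :=
  ∑ m ∈ Finset.range (J + 1), WD.cb m * ((m : ℝ) * y ^ (m - 1))

theorem hasDeriv_pp (J : ℕ) (y : ℝ) : HasDerivAt (pp J) (dp J y) y := by
  unfold pp dp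
  have h : ∀ m ∈ Finset.range (J + 1), HasDerivAt (fun y : ℝ => WD.cb m * y ^ m)
      (WD.cb m * ((m : ℝ) * y ^ (m - 1))) y := by
    intro m _
    exact (hasDerivAt_pow m y).const_mul _
  exact HasDerivAt.fun_sum h

theorem ode (J : ℕ) (y : ℝ) : (1 - y) * dp J y - 1 / 2 * pp J y = -((J + 1 / 2) * WD.cb J * y ^ J) := by
  induction J with
  | zero => simp [dp, pp]
  | succ J ih =>
    have e1 : dp (J + 1) y = dp J y + WD.cb (J + 1) * (((J + 1 : ℕ) : ℝ) * y ^ J) := by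
      unfold dp
      rw [Finset.sum_range_succ]
      simp
    have e2 : pp (J + 1) y = pp J y + WD.cb (J + 1) * y ^ (J + 1) := by
      unfold pp
      rw [Finset.sum_range_succ]
    rw [e1, e2]
    have h := cb_succ J
    push_cast
    linear_combination ih + (y ^ J) * h

/-- the scalar expansion -/
theorem scalar (J : ℕ) : ∃ C : ℝ, 0 ≤ C ∧ ∀ y : ℝ, 0 ≤ y → y ≤ 1 / 2 →
    |(√(1 - y))⁻¹ - pp J y| ≤ C * y ^ (J + 1) := by
  refine ⟨4 * ((J + 1 / 2) * WD.cb J), by have := cb_nonneg J; positivity, ?_⟩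
  intro y hy0 hy
  set K : ℝ := (J + 1 / 2) * WD.cb J with hK
  have hK0 : 0 ≤ K := by have := cb_nonneg J; positivity
  have hs : ∀ u : ℝ, u ≤ 1 / 2 → 1 / 2 ≤ √(1 - u) := by
    intro u hu
    apply Real.le_sqrt_of_sq_le
    nlinarith
  have hder : ∀ u ∈ Icc (0 : ℝ) y, HasDerivWithinAt (fun u => √(1 - u) * pp J u)
      (-(K * u ^ J) / √(1 - u)) (Icc (0 : ℝ) y) u := by
    intro u hu
    have hu2 : u ≤ 1 / 2 := hu.2.trans hy
    have h1 : HasDerivAt (fun u : ℝ => 1 - u) (-1) u := by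
      simpa using (hasDerivAt_id u).const_sub 1
    have h2 : HasDerivAt (fun u : ℝ => √(1 - u)) (-1 / (2 * √(1 - u))) u :=
      h1.sqrt (by linarith)
    have h3 := h2.mul (hasDeriv_pp J u)
    have hpos : 0 < √(1 - u) := by linarith [hs u hu2]
    have hsq : √(1 - u) * √(1 - u) = 1 - u := Real.mul_self_sqrt (by linarith)
    have h4 : -1 / (2 * √(1 - u)) * pp J u + √(1 - u) * dp J u = -(K * u ^ J) / √(1 - u) := by
      have := ode J u
      rw [← hK] at this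
      field_simp
      have hsq' : √(1 - u) ^ 2 = 1 - u := by rw [sq]; exact hsq
      rw [hsq']
      linear_combination 2 * this
    rw [h4] at h3
    exact h3.hasDerivWithinAt
  have hb : ∀ u ∈ Icc (0 : ℝ) y, ‖-(K * u ^ J) / √(1 - u)‖ ≤ 2 * K * y ^ J := by
    intro u hu
    have hu2 : u ≤ 1 / 2 := hu.2.trans hy
    have hpos : 0 < √(1 - u) := by linarith [hs u hu2]
    rw [norm_div, norm_neg, Real.norm_eq_abs, Real.norm_eq_abs, abs_of_pos hpos,
      abs_of_nonneg (by have := hu.1; positivity), div_le_iff₀ hpos]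
    have h1 : u ^ J ≤ y ^ J := pow_le_pow_left₀ hu.1 hu.2 J
    have h2 : K * u ^ J ≤ K * y ^ J := mul_le_mul_of_nonneg_left h1 hK0
    have h3 : 0 ≤ K * y ^ J := by positivity
    nlinarith [hs u hu2]
  have hmv := (convex_Icc (0 : ℝ) y).norm_image_sub_le_of_norm_hasDerivWithin_le hder hb
    (left_mem_Icc.2 hy0) (right_mem_Icc.2 hy0)
  have hp0 : pp J 0 = 1 := by
    unfold pp
    rw [Finset.sum_range_succ']
    simp [WD.cb]
  simp only [sub_zero, Real.sqrt_one, hp0, mul_one, Real.norm_eq_abs,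
    abs_of_nonneg hy0] at hmv
  have hpos : 0 < √(1 - y) := by linarith [hs y hy]
  have e : (√(1 - y))⁻¹ - pp J y = -(√(1 - y) * pp J y - 1) / √(1 - y) := by
    field_simp
    ring
  rw [e, abs_div, abs_neg, abs_of_pos hpos, div_le_iff₀ hpos]
  have h5 : 0 ≤ K * y ^ J * y := by positivity
  calc |√(1 - y) * pp J y - 1| ≤ 2 * K * y ^ J * y := hmv
    _ ≤ 4 * K * y ^ (J + 1) * √(1 - y) := by
      rw [pow_succ]
      nlinarith [hs y hy]

variable {n : ℕ} (D : WD n)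

theorem βpos (t : ℝ) : 0 < D.β t := D.a0.trans_le (D.βa t)

theorem αnn (t : ℝ) : 0 ≤ D.α t := (D.a0.trans_le (D.αa t)).le

theorem quot {κ : ℝ} (t : ℝ) (h0 : 0 ≤ κ) (h1 : κ ≤ D.a / 2) :
    0 ≤ κ / D.β t ∧ κ / D.β t ≤ 1 / 2 ∧ κ / D.β t ≤ κ / D.a := by
  have hb := βpos D t
  have ha := D.a0
  have hab := D.βa t
  refine ⟨by positivity, ?_, ?_⟩
  · rw [div_le_iff₀ hb]; linarith
  · exact div_le_div_of_nonneg_left h0 ha hab

theorem sqrt_sub {κ : ℝ} (t : ℝ) :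
    √(D.β t - κ) = √(D.β t) * √(1 - κ / D.β t) := by
  have hb := βpos D t
  rw [← Real.sqrt_mul hb.le]
  congr 1
  field_simp

/-- the expansion of `w` -/
theorem exp_w (J : ℕ) : ∃ C : ℝ, 0 ≤ C ∧ ∀ t κ : ℝ, 0 ≤ κ → κ ≤ D.a / 2 →
    |D.w κ t - ∑ m ∈ Finset.range (J + 1), D.wc m t * κ ^ m| ≤ C * κ ^ (J + 1) := by
  obtain ⟨C, hC, h⟩ := scalar J
  have ha := D.a0
  refine ⟨√D.B * (C / D.a ^ (J + 1)), by positivity, ?_⟩
  intro t κ h0 h1
  have hb := βpos D t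
  obtain ⟨q0, q1, q2⟩ := quot D t h0 h1
  have e : D.w κ t - ∑ m ∈ Finset.range (J + 1), D.wc m t * κ ^ m =
      √(D.α t) * ((√(1 - κ / D.β t))⁻¹ - pp J (κ / D.β t)) := by
    unfold WD.w pp WD.wc
    rw [sqrt_sub, mul_sub, Finset.mul_sum]
    congr 1
    · have : √(D.β t) ≠ 0 := (Real.sqrt_pos.2 hb).ne'
      field_simp
    · apply Finset.sum_congr rfl
      intro m _
      rw [div_pow]
      ring
  rw [e, abs_mul, abs_of_nonneg (Real.sqrt_nonneg _)]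
  have h2 : √(D.α t) ≤ √D.B := Real.sqrt_le_sqrt (D.αB t)
  have h3 := h _ q0 q1
  have h4 : (κ / D.β t) ^ (J + 1) ≤ (κ / D.a) ^ (J + 1) := pow_le_pow_left₀ q0 q2 _
  calc √(D.α t) * |(√(1 - κ / D.β t))⁻¹ - pp J (κ / D.β t)| ≤
      √D.B * (C * (κ / D.a) ^ (J + 1)) := by
        apply mul_le_mul h2 (h3.trans (mul_le_mul_of_nonneg_left h4 hC)) (abs_nonneg _)
          (Real.sqrt_nonneg _)
    _ = √D.B * (C / D.a ^ (J + 1)) * κ ^ (J + 1) := by rw [div_pow]; ring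

theorem cont_sci (m : ℕ) : Continuous (fun s => √(D.α s) * WD.cb m / D.β s ^ (m + 1)) := by
  have := D.αc
  have := D.βc
  apply Continuous.div (by fun_prop) (by fun_prop)
  intro s
  have := βpos D s
  positivity

theorem cont_sgi {κ : ℝ} (h1 : κ ≤ D.a / 2) :
    Continuous (fun s => √(D.α s) / (√(D.β s) * √(D.β s - κ))) := by
  have := D.αc
  have := D.βc
  apply Continuous.div (by fun_prop) (by fun_prop)
  intro s
  have h2 := βpos D s
  have h3 : 0 < D.β s - κ := by linarith [D.βa s, D.a0]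
  have h4 := Real.sqrt_pos.2 h2
  have h5 := Real.sqrt_pos.2 h3
  positivity

theorem cont_sc (m : ℕ) : Continuous (D.sc m) := by
  unfold WD.sc
  exact intervalIntegral.continuous_primitive
    (fun a b => (cont_sci D m).intervalIntegrable a b) 0

/-- the expansion of `sg` -/
theorem exp_sg (J : ℕ) : ∃ C : ℝ, 0 ≤ C ∧ ∀ t, |t| ≤ D.R → ∀ κ : ℝ, 0 ≤ κ → κ ≤ D.a / 2 →
    |D.sg κ t - ∑ m ∈ Finset.range (J + 1), D.sc m t * κ ^ m| ≤ C * κ ^ (J + 1) := by
  obtain ⟨C, hC, h⟩ := scalar J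
  have ha := D.a0
  have hR := D.R0
  refine ⟨√D.B / D.a * (C / D.a ^ (J + 1)) * D.R, by positivity, ?_⟩
  intro t ht κ h0 h1
  have e : D.sg κ t - ∑ m ∈ Finset.range (J + 1), D.sc m t * κ ^ m =
      ∫ s in (0 : ℝ)..t, √(D.α s) / D.β s * ((√(1 - κ / D.β s))⁻¹ - pp J (κ / D.β s)) := by
    have e1 : ∑ m ∈ Finset.range (J + 1), D.sc m t * κ ^ m =
        ∫ s in (0 : ℝ)..t, ∑ m ∈ Finset.range (J + 1),
          √(D.α s) * WD.cb m / D.β s ^ (m + 1) * κ ^ m := by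
      rw [intervalIntegral.integral_finsetSum]
      · apply Finset.sum_congr rfl
        intro m _
        rw [intervalIntegral.integral_mul_const]
        rfl
      · intro m _
        exact ((cont_sci D m).mul continuous_const).intervalIntegrable _ _
    rw [e1]
    unfold WD.sg
    rw [← intervalIntegral.integral_sub ((cont_sgi D h1).intervalIntegrable _ _)]
    · apply intervalIntegral.integral_congr
      intro s _
      have hb := βpos D s
      show √(D.α s) / (√(D.β s) * √(D.β s - κ)) - ∑ m ∈ Finset.range (J + 1),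
        √(D.α s) * WD.cb m / D.β s ^ (m + 1) * κ ^ m =
        √(D.α s) / D.β s * ((√(1 - κ / D.β s))⁻¹ - pp J (κ / D.β s))
      unfold pp
      rw [sqrt_sub, mul_sub, Finset.mul_sum, ← mul_assoc, Real.mul_self_sqrt hb.le]
      congr 1
      · rw [← div_eq_mul_inv, div_div]
      · apply Finset.sum_congr rfl
        intro m _
        rw [div_pow, pow_succ]
        field_simp
    · apply Continuous.intervalIntegrable
      apply continuous_finsetSum
      intro m _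
      exact (cont_sci D m).mul continuous_const
  rw [e]
  have hb : ∀ s ∈ uIoc (0 : ℝ) t, ‖√(D.α s) / D.β s * ((√(1 - κ / D.β s))⁻¹ -
      pp J (κ / D.β s))‖ ≤ √D.B / D.a * (C / D.a ^ (J + 1)) * κ ^ (J + 1) := by
    intro s _
    have hb := βpos D s
    obtain ⟨q0, q1, q2⟩ := quot D s h0 h1
    rw [norm_mul, Real.norm_eq_abs, Real.norm_eq_abs, abs_of_nonneg (by positivity)]
    have h2 : √(D.α s) / D.β s ≤ √D.B / D.a :=
      div_le_div₀ (Real.sqrt_nonneg _) (Real.sqrt_le_sqrt (D.αB s)) ha (D.βa s)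
    have h3 := h _ q0 q1
    have h4 : (κ / D.β s) ^ (J + 1) ≤ (κ / D.a) ^ (J + 1) := pow_le_pow_left₀ q0 q2 _
    calc √(D.α s) / D.β s * |(√(1 - κ / D.β s))⁻¹ - pp J (κ / D.β s)| ≤
        √D.B / D.a * (C * (κ / D.a) ^ (J + 1)) := by
          apply mul_le_mul h2 (h3.trans (mul_le_mul_of_nonneg_left h4 hC)) (abs_nonneg _)
            (by positivity)
      _ = √D.B / D.a * (C / D.a ^ (J + 1)) * κ ^ (J + 1) := by rw [div_pow]; ring
  have h6 := intervalIntegral.norm_integral_le_of_norm_le_const hb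
  rw [sub_zero, Real.norm_eq_abs] at h6
  calc _ ≤ √D.B / D.a * (C / D.a ^ (J + 1)) * κ ^ (J + 1) * |t| := h6
    _ ≤ √D.B / D.a * (C / D.a ^ (J + 1)) * κ ^ (J + 1) * D.R := by
      apply mul_le_mul_of_nonneg_left ht
      positivity
    _ = _ := by ring

theorem sc_bound (m : ℕ) : ∃ C : ℝ, 0 ≤ C ∧ ∀ t, |t| ≤ D.R → |D.sc m t| ≤ C := by
  obtain ⟨C, hC⟩ := (isCompact_Icc (a := -D.R) (b := D.R)).exists_bound_of_continuousOn
    (cont_sc D m).continuousOn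
  refine ⟨|C|, abs_nonneg _, ?_⟩
  intro t ht
  exact (hC t (abs_le.1 ht)).trans (le_abs_self _)

theorem sg_bound : ∃ C : ℝ, 0 ≤ C ∧ ∀ t, |t| ≤ D.R → ∀ κ : ℝ, 0 ≤ κ → κ ≤ D.a / 2 →
    |D.sg κ t| ≤ C := by
  obtain ⟨C, hC, h⟩ := exp_sg D 0
  obtain ⟨C', hC', h'⟩ := sc_bound D 0
  have ha := D.a0
  refine ⟨C * (D.a / 2) + C', by positivity, ?_⟩
  intro t ht κ h0 h1
  have h2 := h t ht κ h0 h1
  have h3 := h' t ht
  simp only [zero_add, Finset.range_one, Finset.sum_singleton, pow_zero, mul_one, pow_one] at h2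
  have h4 : C * κ ≤ C * (D.a / 2) := mul_le_mul_of_nonneg_left h1 hC
  have h5 : |D.sg κ t| ≤ |D.sg κ t - D.sc 0 t| + |D.sc 0 t| := by
    have := abs_add_le (D.sg κ t - D.sc 0 t) (D.sc 0 t)
    simpa using this
  linarith

theorem w_bound : ∃ C : ℝ, 0 ≤ C ∧ ∀ t κ : ℝ, 0 ≤ κ → κ ≤ D.a / 2 → |D.w κ t| ≤ C := by
  obtain ⟨C, hC, h⟩ := exp_w D 0
  have ha := D.a0
  refine ⟨C * (D.a / 2) + √D.B, by positivity, ?_⟩
  intro t κ h0 h1
  have h2 := h t κ h0 h1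
  have h3 : D.wc 0 t = √(D.α t) := by simp [WD.wc, WD.cb]
  simp only [zero_add, Finset.range_one, Finset.sum_singleton, pow_zero, mul_one, pow_one,
    h3] at h2
  have h4 : C * κ ≤ C * (D.a / 2) := mul_le_mul_of_nonneg_left h1 hC
  have h5 : |D.w κ t| ≤ |D.w κ t - √(D.α t)| + |√(D.α t)| := by
    have := abs_add_le (D.w κ t - √(D.α t)) (√(D.α t))
    simpa using this
  rw [abs_of_nonneg (Real.sqrt_nonneg _)] at h5
  have h6 : √(D.α t) ≤ √D.B := Real.sqrt_le_sqrt (D.αB t)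
  linarith

/-- products -/
theorem prod (u v : ℝ → ℝ → ℝ) (c d : ℕ → ℝ → ℝ)
    (hu : ∀ J : ℕ, ∃ C : ℝ, 0 ≤ C ∧ ∀ t, |t| ≤ D.R → ∀ κ, 0 ≤ κ → κ ≤ D.a / 2 →
      |u κ t - ∑ m ∈ Finset.range (J + 1), c m t * κ ^ m| ≤ C * κ ^ (J + 1))
    (hv : ∀ J : ℕ, ∃ C : ℝ, 0 ≤ C ∧ ∀ t, |t| ≤ D.R → ∀ κ, 0 ≤ κ → κ ≤ D.a / 2 →
      |v κ t - ∑ m ∈ Finset.range (J + 1), d m t * κ ^ m| ≤ C * κ ^ (J + 1))
    (hc : ∀ m : ℕ, ∃ C : ℝ, 0 ≤ C ∧ ∀ t, |t| ≤ D.R → |c m t| ≤ C)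
    (hvb : ∃ C : ℝ, 0 ≤ C ∧ ∀ t, |t| ≤ D.R → ∀ κ, 0 ≤ κ → κ ≤ D.a / 2 → |v κ t| ≤ C) (J : ℕ) :
    ∃ C : ℝ, 0 ≤ C ∧ ∀ t, |t| ≤ D.R → ∀ κ, 0 ≤ κ → κ ≤ D.a / 2 →
      |u κ t * v κ t - ∑ m ∈ Finset.range (J + 1),
        (∑ l ∈ Finset.range (m + 1), c l t * d (m - l) t) * κ ^ m| ≤ C * κ ^ (J + 1) := by
  obtain ⟨Cu, hCu, hu⟩ := hu J
  choose Cv hCv hv using hv
  choose Cc hCc hc using hc
  obtain ⟨Cb, hCb, hb⟩ := hvb
  refine ⟨Cu * Cb + ∑ l ∈ Finset.range (J + 1), Cc l * Cv (J - l), ?_, ?_⟩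
  · have : 0 ≤ ∑ l ∈ Finset.range (J + 1), Cc l * Cv (J - l) :=
      Finset.sum_nonneg (fun l _ => mul_nonneg (hCc l) (hCv _))
    positivity
  intro t ht κ h0 h1
  have e1 : ∑ m ∈ Finset.range (J + 1), (∑ l ∈ Finset.range (m + 1), c l t * d (m - l) t) * κ ^ m =
      ∑ l ∈ Finset.range (J + 1), c l t * κ ^ l *
        ∑ m ∈ Finset.range (J - l + 1), d m t * κ ^ m := by
    have e2 := Finset.sum_range_diag_flip (J + 1) (fun l m => c l t * κ ^ l * (d m t * κ ^ m))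
    have e3 : ∀ m ∈ Finset.range (J + 1), (∑ l ∈ Finset.range (m + 1), c l t * d (m - l) t) * κ ^ m =
        ∑ l ∈ Finset.range (m + 1), c l t * κ ^ l * (d (m - l) t * κ ^ (m - l)) := by
      intro m _
      rw [Finset.sum_mul]
      apply Finset.sum_congr rfl
      intro l hl
      have hl' : l ≤ m := Nat.lt_succ_iff.1 (Finset.mem_range.1 hl)
      have : κ ^ m = κ ^ l * κ ^ (m - l) := by rw [← pow_add]; congr 1; omega
      rw [this]
      ring
    rw [Finset.sum_congr rfl e3, e2]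
    apply Finset.sum_congr rfl
    intro l hl
    have hl' : l ≤ J := Nat.lt_succ_iff.1 (Finset.mem_range.1 hl)
    rw [Finset.mul_sum]
    congr 2
    omega
  have e4 : u κ t * v κ t - ∑ m ∈ Finset.range (J + 1),
      (∑ l ∈ Finset.range (m + 1), c l t * d (m - l) t) * κ ^ m =
      (u κ t - ∑ m ∈ Finset.range (J + 1), c m t * κ ^ m) * v κ t +
      ∑ l ∈ Finset.range (J + 1), c l t * κ ^ l *
        (v κ t - ∑ m ∈ Finset.range (J - l + 1), d m t * κ ^ m) := by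
    rw [e1]
    simp only [mul_sub, Finset.sum_sub_distrib, sub_mul, Finset.sum_mul]
    ring
  rw [e4]
  refine (abs_add_le _ _).trans ?_
  rw [add_mul]
  apply add_le_add
  · rw [abs_mul]
    calc |u κ t - ∑ m ∈ Finset.range (J + 1), c m t * κ ^ m| * |v κ t| ≤
        (Cu * κ ^ (J + 1)) * Cb := mul_le_mul (hu t ht κ h0 h1) (hb t ht κ h0 h1) (abs_nonneg _)
          (by positivity)
      _ = Cu * Cb * κ ^ (J + 1) := by ring
  · refine (Finset.abs_sum_le_sum_abs _ _).trans ?_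
    rw [Finset.sum_mul]
    apply Finset.sum_le_sum
    intro l hl
    have hl' : l ≤ J := Nat.lt_succ_iff.1 (Finset.mem_range.1 hl)
    rw [abs_mul, abs_mul, abs_of_nonneg (pow_nonneg h0 l)]
    have h2 := hc l t ht
    have h3 := hv (J - l) t ht κ h0 h1
    have h4 : κ ^ (J + 1) = κ ^ l * κ ^ (J - l + 1) := by rw [← pow_add]; congr 1; omega
    rw [h4]
    calc |c l t| * κ ^ l * |v κ t - ∑ m ∈ Finset.range (J - l + 1), d m t * κ ^ m| ≤
        Cc l * κ ^ l * (Cv (J - l) * κ ^ (J - l + 1)) := by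
          apply mul_le_mul (mul_le_mul_of_nonneg_right h2 (by positivity)) h3 (abs_nonneg _)
          have := hCc l
          positivity
      _ = _ := by ring

theorem main (i : ℕ) : ∀ J : ℕ, ∃ C : ℝ, 0 ≤ C ∧ ∀ t, |t| ≤ D.R → ∀ κ, 0 ≤ κ → κ ≤ D.a / 2 →
    |D.sg κ t ^ i * D.w κ t - ∑ m ∈ Finset.range (J + 1), D.co i m t * κ ^ m| ≤
      C * κ ^ (J + 1) := by
  induction i with
  | zero =>
    intro J
    obtain ⟨C, hC, h⟩ := exp_w D J
    refine ⟨C, hC, ?_⟩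
    intro t _ κ h0 h1
    simpa [WD.co] using h t κ h0 h1
  | succ i ih =>
    intro J
    obtain ⟨Cs, hCs, hs⟩ := sg_bound D
    obtain ⟨Cw, hCw, hw⟩ := w_bound D
    obtain ⟨C, hC, h⟩ := prod D D.sg (fun κ t => D.sg κ t ^ i * D.w κ t) D.sc (D.co i)
      (exp_sg D) ih (sc_bound D) ⟨Cs ^ i * Cw, by positivity, by
        intro t ht κ h0 h1
        rw [abs_mul, abs_pow]
        exact mul_le_mul (pow_le_pow_left₀ (abs_nonneg _) (hs t ht κ h0 h1) i) (hw t κ h0 h1)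
          (abs_nonneg _) (by positivity)⟩ J
    refine ⟨C, hC, ?_⟩
    intro t ht κ h0 h1
    have h2 := h t ht κ h0 h1
    have e : D.sg κ t ^ (i + 1) * D.w κ t = D.sg κ t * (D.sg κ t ^ i * D.w κ t) := by ring
    rw [e]
    simpa only [WD.co] using h2

end EXPAux

theorem exp_ : Stmt_EXP := by
  intro n D i J
  obtain ⟨C, _, h⟩ := EXPAux.main D i J
  exact ⟨C, h⟩

end Pool.Agent.WPD
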