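import Pool.Agent.WPD.Stmts

/-!
# Warped products: the curves are geodesics
-/

set_option autoImplicit false

namespace Pool.Agent.WPD

open MeasureTheory Set Filter Topology

namespace GEOAux

section Metric

variable {n m : ℕ}

/-- the derivative of the metric on the slices -/
lemma fderiv_metric {G : T n m → T n m →L[ℝ] T n m →L[ℝ] ℝ} {α β : ℝ → ℝ} {ρ : F n → ℝ}
    (hM : Met G α β ρ) (z v ξ : T n m) (hξ : ξ.2.2 = 0) :
    fderiv ℝ G z v ξ ξ =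
      (deriv α z.1 * v.1) * (ξ.1 * ξ.1) +
        (deriv β z.1 * v.1 * ρ z.2.1 + β z.1 * fderiv ℝ ρ z.2.1 v.2.1) * ‖ξ.2.1‖ ^ 2 := by
  have hline : HasDerivAt (fun s : ℝ => z + s • v) v 0 := by
    have h1 : HasDerivAt (fun s : ℝ => s • v) ((1 : ℝ) • v) 0 := (hasDerivAt_id (0 : ℝ)).smul_const v
    rw [one_smul] at h1
    exact h1.const_add z
  have h0 : z + (0 : ℝ) • v = z := by rw [zero_smul, add_zero]
  have h1 : HasDerivAt (fun s : ℝ => G (z + s • v)) (fderiv ℝ G z v) 0 := by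
    have h2 : HasFDerivAt G (fderiv ℝ G z) (z + (0 : ℝ) • v) := by
      rw [h0]
      exact (hM.metric.diff z).hasFDerivAt
    exact HasFDerivAt.comp_hasDerivAt (l := G) (f := fun s : ℝ => z + s • v) (0 : ℝ) h2 hline
  have h2 : HasDerivAt (fun s : ℝ => G (z + s • v) ξ ξ) (fderiv ℝ G z v ξ ξ) 0 := by
    have h3 := (h1.clm_apply (hasDerivAt_const (0 : ℝ) ξ)).clm_apply
      (hasDerivAt_const (0 : ℝ) ξ)
    simpa using h3
  have h3 : (fun s : ℝ => G (z + s • v) ξ ξ) = fun s : ℝ =>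
      α (z.1 + s * v.1) * (ξ.1 * ξ.1) +
        (β (z.1 + s * v.1) * ρ (z.2.1 + s • v.2.1)) * ‖ξ.2.1‖ ^ 2 := by
    funext s
    rw [hM.warp _ _ _ hξ, real_inner_self_eq_norm_sq]
    simp
  rw [h3] at h2
  have hx : HasDerivAt (fun s : ℝ => z.1 + s * v.1) v.1 0 := by
    have := ((hasDerivAt_id (0 : ℝ)).mul_const v.1).const_add z.1
    simpa using this
  have hy : HasDerivAt (fun s : ℝ => z.2.1 + s • v.2.1) v.2.1 0 := by
    have := ((hasDerivAt_id (0 : ℝ)).smul_const v.2.1).const_add z.2.1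
    simpa using this
  have hα : HasDerivAt (fun s : ℝ => α (z.1 + s * v.1)) (deriv α z.1 * v.1) 0 := by
    have h4 : HasDerivAt α (deriv α z.1) (z.1 + 0 * v.1) := by
      rw [zero_mul, add_zero]
      exact (hM.αd _).hasDerivAt
    exact h4.comp (0 : ℝ) hx
  have hβ : HasDerivAt (fun s : ℝ => β (z.1 + s * v.1)) (deriv β z.1 * v.1) 0 := by
    have h4 : HasDerivAt β (deriv β z.1) (z.1 + 0 * v.1) := by
      rw [zero_mul, add_zero]
      exact (hM.βd _).hasDerivAt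
    exact h4.comp (0 : ℝ) hx
  have hρ : HasDerivAt (fun s : ℝ => ρ (z.2.1 + s • v.2.1)) (fderiv ℝ ρ z.2.1 v.2.1) 0 := by
    have h4 : HasFDerivAt ρ (fderiv ℝ ρ z.2.1) (z.2.1 + (0 : ℝ) • v.2.1) := by
      rw [zero_smul, add_zero]
      exact (hM.ρs.differentiable (by simp) _).hasFDerivAt
    exact HasFDerivAt.comp_hasDerivAt (l := ρ) (f := fun s : ℝ => z.2.1 + s • v.2.1) (0 : ℝ) h4 hy
  have h5 := (hα.mul_const (ξ.1 * ξ.1)).add ((hβ.mul hρ).mul_const (‖ξ.2.1‖ ^ 2))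
  have h6 := h2.unique h5
  rw [h6]
  simp

end Metric

section Curve

variable {n : ℕ} {D : WD n} {κ : ℝ} {L S : ℝ → ℝ}

lemma bk (D : WD n) {κ : ℝ} (hκ : κ ≤ D.a / 2) (t : ℝ) : 0 < D.β t - κ := by
  have h1 := D.βa t
  have h2 := D.a0
  linarith

lemma w_pos (D : WD n) {κ : ℝ} (hκ : κ ≤ D.a / 2) (t : ℝ) : 0 < D.w κ t := by
  have h1 : 0 < D.α t := lt_of_lt_of_le D.a0 (D.αa t)
  have h2 : 0 < D.β t := lt_of_lt_of_le D.a0 (D.βa t)
  have h3 := bk D hκ t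
  unfold WD.w
  have := Real.sqrt_pos.mpr h1
  have := Real.sqrt_pos.mpr h2
  have := Real.sqrt_pos.mpr h3
  positivity

lemma L_mono (hκ : κ ≤ D.a / 2) (hL : ∀ t, HasDerivAt L (D.w κ t) t) : StrictMono L :=
  strictMono_of_deriv_pos fun t => by
    rw [(hL t).deriv]
    exact w_pos D hκ t

lemma S_deriv (hκ : κ ≤ D.a / 2) (hL : ∀ t, HasDerivAt L (D.w κ t) t) (hSL : ∀ t, S (L t) = t)
    (hLS : ∀ τ, L (S τ) = τ) (τ : ℝ) : HasDerivAt S (D.w κ (S τ))⁻¹ τ := by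
  have hmono := L_mono hκ hL
  have hSm : Monotone S := by
    intro s t hst
    rw [← hmono.le_iff_le, hLS, hLS]
    exact hst
  have hSc : Continuous S := hSm.continuous_of_surjective fun τ => ⟨L τ, hSL τ⟩
  exact HasDerivAt.of_local_left_inverse hSc.continuousAt (hL (S τ))
    (w_pos D hκ (S τ)).ne' (Eventually.of_forall hLS)

/-- the flow in the arc length -/
lemma coef {A B K e : ℝ} (hA : 0 < A) (hB : 0 < B) (hK : 0 < K) :
    e * (√A / (√B * √K)) * (√A * √B / √K)⁻¹ = e / B := by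
  have h1 := Real.sqrt_pos.mpr hA
  have h2 := Real.sqrt_pos.mpr hB
  have h3 := Real.sqrt_pos.mpr hK
  have h4 := Real.mul_self_sqrt hB.le
  have h5 : e * (√A / (√B * √K)) * (√A * √B / √K)⁻¹ = e / (√B * √B) := by
    field_simp
  rw [h5, h4]

/-- `α / w` as one root -/
lemma aow {A B κ : ℝ} (hA : 0 < A) (hB : 0 < B) (hK : 0 < B - κ) :
    A * (√A * √B / √(B - κ))⁻¹ = √(A * (1 - κ / B)) := by
  have h1 := Real.sqrt_pos.mpr hA
  have h2 := Real.sqrt_pos.mpr hB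
  have h3 := Real.sqrt_pos.mpr hK
  have h4 : A * (1 - κ / B) = A * (B - κ) / B := by
    field_simp
  rw [h4, Real.sqrt_div (by positivity), Real.sqrt_mul hA.le]
  have h5 := Real.mul_self_sqrt hA.le
  have h6 : A * (√A * √B / √(B - κ))⁻¹ = (√A * √A) * (√A * √B / √(B - κ))⁻¹ := by rw [h5]
  rw [h6]
  field_simp

/-- `w ^ 2` -/
lemma wsq {A B κ : ℝ} (hA : 0 < A) (hB : 0 < B) (hK : 0 < B - κ) :
    (√A * √B / √(B - κ)) ^ 2 = A * B / (B - κ) := by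
  rw [div_pow, mul_pow, Real.sq_sqrt hA.le, Real.sq_sqrt hB.le, Real.sq_sqrt hK.le]

/-- unit speed -/
lemma unitA {A B κ w e q r N : ℝ} (hA : 0 < A) (hB : 0 < B) (hK : 0 < B - κ) (hr : 0 < r)
    (hw : w ^ 2 = A * B / (B - κ)) (hq : q ^ 2 = N * r) (hκ : κ = e ^ 2 * N) :
    A * (w⁻¹ * w⁻¹) + B * r * ((e / (B * r)) ^ 2 * q ^ 2) = 1 := by
  have h1 : w⁻¹ * w⁻¹ = (w ^ 2)⁻¹ := by
    rw [sq, mul_inv]
  rw [h1, hw, hq]
  have h2 : A * (A * B / (B - κ))⁻¹ = (B - κ) / B := by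
    field_simp
  have h3 : B * r * ((e / (B * r)) ^ 2 * (N * r)) = e ^ 2 * N / B := by
    field_simp
  rw [h2, h3, ← hκ]
  field_simp
  ring

/-- Euler-Lagrange, the algebra of the first component -/
lemma eulA {A B κ w dA dB : ℝ} (hA : 0 < A) (hB : 0 < B) (hK : 0 < B - κ) (_ : 0 < w)
    (hw : w ^ 2 = A * B / (B - κ)) (hr : A * w⁻¹ = √(A * (1 - κ / B))) :
    (dA * (1 - κ / B) + A * (κ * dB / B ^ 2)) / (2 * √(A * (1 - κ / B))) * w⁻¹ =
      2⁻¹ * (dA * (w⁻¹ * w⁻¹) + dB * κ / B ^ 2) := by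
  rw [← hr]
  have h1 : w⁻¹ * w⁻¹ = (w ^ 2)⁻¹ := by
    rw [sq, mul_inv]
  have h2 : (dA * (1 - κ / B) + A * (κ * dB / B ^ 2)) / (2 * (A * w⁻¹)) * w⁻¹ =
      2⁻¹ * (dA * ((1 - κ / B) / A) + dB * κ / B ^ 2) := by
    field_simp
  rw [h2, h1, hw]
  have h3 : (1 - κ / B) / A = (A * B / (B - κ))⁻¹ := by
    field_simp
  rw [h3]

/-- Euler-Lagrange, the algebra -/
lemma eulB {B κ w dA dB v e q r N R : ℝ} (hB : 0 < B) (hr : 0 < r)
    (hq : q ^ 2 = N * r) (hκ : κ = e ^ 2 * N) :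
    2⁻¹ * (dA * (w⁻¹ * w⁻¹) + dB * κ / B ^ 2) * v + e * (e / B * (q ^ 2 / (2 * r ^ 2) * R)) =
      2⁻¹ * (dA * v * (w⁻¹ * w⁻¹) + (dB * v * r + B * R) * ((e / (B * r)) ^ 2 * q ^ 2)) := by
  rw [hκ, hq]
  field_simp
  ring

end Curve

end GEOAux

open GEOAux in
theorem geo (hS : Stmt_SG) : Stmt_GEO := by
  intro n m G α β ρ hM D φ hF ε hε hεa z w₀ L S hk hL hSL hLS a' b' hab hev
  obtain ⟨C, hC⟩ := hS n D
  have hk0 : 0 ≤ D.k z := by
    unfold WD.k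
    exact div_nonneg (sq_nonneg _) (D.a0.le.trans (D.ρa _))
  have hκ : ε ^ 2 * D.k z ≤ D.a / 2 := by
    have h1 : ε ^ 2 * D.k z ≤ ε ^ 2 * 1 := mul_le_mul_of_nonneg_left hk.le (sq_nonneg _)
    rw [mul_one] at h1
    exact h1.trans hεa
  have hk4 : D.k z ≤ 4 := by linarith
  generalize hκd : ε ^ 2 * D.k z = κ at *
  have hmono := L_mono hκ hL
  have hSd := S_deriv hκ hL hSL hLS
  have hmem : ∀ τ ∈ Ioo (L a') (L b'), S τ ∈ Ioo a' b' := by
    intro τ hτ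
    constructor
    · rw [← hmono.lt_iff_lt, hLS]
      exact hτ.1
    · rw [← hmono.lt_iff_lt, hLS]
      exact hτ.2
  have hDα : ∀ t, 0 < D.α t := fun t => lt_of_lt_of_le D.a0 (D.αa t)
  have hDβ : ∀ t, 0 < D.β t := fun t => lt_of_lt_of_le D.a0 (D.βa t)
  have hDρ : ∀ x, 0 < D.ρ x := fun x => lt_of_lt_of_le D.a0 (D.ρa x)
  have hbk := bk D hκ
  have hwp := w_pos D hκ
  -- the flow along the curve
  have hΦ : ∀ τ, HasDerivAt (fun τ => φ (ε * D.sg κ (S τ)) z)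
      ((ε / D.β (S τ)) • D.Y (φ (ε * D.sg κ (S τ)) z)) τ := by
    intro τ
    have h1 : HasDerivAt (fun τ => ε * D.sg κ (S τ))
        (ε * (√(D.α (S τ)) / (√(D.β (S τ)) * √(D.β (S τ) - κ)) * (D.w κ (S τ))⁻¹)) τ :=
      (((hC.sgd κ (S τ) hκ).comp τ (hSd τ))).const_mul ε
    have h2 := (hF.deriv (ε * D.sg κ (S τ)) z hk4).scomp τ h1
    have h3 : ε * (√(D.α (S τ)) / (√(D.β (S τ)) * √(D.β (S τ) - κ)) * (D.w κ (S τ))⁻¹) =
        ε / D.β (S τ) := by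
      rw [← mul_assoc]
      exact coef (hDα _) (hDβ _) (hbk _)
    rw [h3] at h2
    exact h2
  have hX : ∀ τ, HasDerivAt (fun τ => (φ (ε * D.sg κ (S τ)) z).1)
      ((ε / (D.β (S τ) * D.ρ (φ (ε * D.sg κ (S τ)) z).1)) • (φ (ε * D.sg κ (S τ)) z).2) τ := by
    intro τ
    have h1 := (ContinuousLinearMap.fst ℝ (F n) (F n)).hasFDerivAt.comp_hasDerivAt τ (hΦ τ)
    have h2 : (ContinuousLinearMap.fst ℝ (F n) (F n))
        ((ε / D.β (S τ)) • D.Y (φ (ε * D.sg κ (S τ)) z)) =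
        (ε / (D.β (S τ) * D.ρ (φ (ε * D.sg κ (S τ)) z).1)) • (φ (ε * D.sg κ (S τ)) z).2 := by
      show (ε / D.β (S τ)) • ((D.ρ (φ (ε * D.sg κ (S τ)) z).1)⁻¹ • (φ (ε * D.sg κ (S τ)) z).2) = _
      rw [smul_smul]
      congr 1
      rw [← div_eq_mul_inv, div_div]
    rw [h2] at h1
    exact h1
  have hQ : ∀ τ, HasDerivAt (fun τ => (φ (ε * D.sg κ (S τ)) z).2)
      ((ε / D.β (S τ)) • ((‖(φ (ε * D.sg κ (S τ)) z).2‖ ^ 2 /
        (2 * D.ρ (φ (ε * D.sg κ (S τ)) z).1 ^ 2)) •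
          gradient D.ρ (φ (ε * D.sg κ (S τ)) z).1)) τ := by
    intro τ
    exact (ContinuousLinearMap.snd ℝ (F n) (F n)).hasFDerivAt.comp_hasDerivAt τ (hΦ τ)
  have hγ : ∀ τ, HasDerivAt (fun τ => cv D φ ε z m w₀ (S τ))
      ((D.w κ (S τ))⁻¹,
      (ε / (D.β (S τ) * D.ρ (φ (ε * D.sg κ (S τ)) z).1)) •
        (φ (ε * D.sg κ (S τ)) z).2, 0) τ := by
    intro τ
    have h1 := (hSd τ).prodMk ((hX τ).prodMk (hasDerivAt_const τ w₀))
    unfold cv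
    rw [hκd]
    exact h1
  have hcv : ∀ t, cv D φ ε z m w₀ t = (t, (φ (ε * D.sg κ t) z).1, w₀) := by
    intro t
    unfold cv
    rw [hκd]
  -- the energy
  have hq : ∀ τ, ‖(φ (ε * D.sg κ (S τ)) z).2‖ ^ 2 = D.k z * D.ρ (φ (ε * D.sg κ (S τ)) z).1 := by
    intro τ
    have h1 := hF.energy (ε * D.sg κ (S τ)) z
    rw [← h1]
    unfold WD.k
    exact (div_mul_cancel₀ _ (hDρ _).ne').symm
  have hnorm : ∀ τ, ‖(ε / (D.β (S τ) * D.ρ (φ (ε * D.sg κ (S τ)) z).1)) •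
        (φ (ε * D.sg κ (S τ)) z).2‖ ^ 2 =
      (ε / (D.β (S τ) * D.ρ (φ (ε * D.sg κ (S τ)) z).1)) ^ 2 *
        ‖(φ (ε * D.sg κ (S τ)) z).2‖ ^ 2 := by
    intro τ
    rw [norm_smul, mul_pow, Real.norm_eq_abs, sq_abs]
  -- the values along the curve
  have hval : ∀ τ ∈ Ioo (L a') (L b'), α (S τ) = D.α (S τ) ∧ β (S τ) = D.β (S τ) ∧
      ρ (φ (ε * D.sg κ (S τ)) z).1 = D.ρ (φ (ε * D.sg κ (S τ)) z).1 := by
    intro τ hτ
    obtain ⟨h1, h2⟩ := hev (S τ) (hmem τ hτ)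
    have h3 := h1.self_of_nhds
    have h4 := h2.self_of_nhds
    rw [hcv] at h4
    exact ⟨h3.1.symm, h3.2.symm, h4.symm⟩
  refine ⟨⟨fun τ _ => (hγ τ).differentiableAt, ?_, ?_⟩, fun τ _ => hγ τ⟩
  · intro τ hτ v
    have hev1 : (fun s => G (cv D φ ε z m w₀ (S s))
        (deriv (fun τ => cv D φ ε z m w₀ (S τ)) s) v) =ᶠ[𝓝 τ] fun s =>
        √(α (S s) * (1 - κ / β (S s))) * v.1 +
          ε * inner ℝ (φ (ε * D.sg κ (S s)) z).2 v.2.1 := by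
      filter_upwards [Ioo_mem_nhds hτ.1 hτ.2] with s hs
      obtain ⟨e1, e2, e3⟩ := hval s hs
      rw [(hγ s).deriv, hM.warp _ _ _ rfl, hcv]
      simp only
      rw [e1, e2, e3, ← aow (hDα _) (hDβ _) (hbk _), real_inner_smul_left]
      have e4 := (hDβ (S s)).ne'
      have e5 := (hDρ (φ (ε * D.sg κ (S s)) z).1).ne'
      have e6 : D.β (S s) * D.ρ (φ (ε * D.sg κ (S s)) z).1 *
          (ε / (D.β (S s) * D.ρ (φ (ε * D.sg κ (S s)) z).1) *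
            inner ℝ (φ (ε * D.sg κ (S s)) z).2 v.2.1) =
          ε * inner ℝ (φ (ε * D.sg κ (S s)) z).2 v.2.1 := by
        field_simp
      rw [e6]
      unfold WD.w
      rw [mul_assoc]
    refine HasDerivAt.congr_of_eventuallyEq ?_ hev1
    obtain ⟨e1, e2, e3⟩ := hval τ hτ
    have hαd : HasDerivAt (fun s => α (S s)) (deriv α (S τ) * (D.w κ (S τ))⁻¹) τ :=
      ((hM.αd (S τ)).hasDerivAt).comp τ (hSd τ)
    have hβd : HasDerivAt (fun s => β (S s)) (deriv β (S τ) * (D.w κ (S τ))⁻¹) τ :=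
      ((hM.βd (S τ)).hasDerivAt).comp τ (hSd τ)
    have hpos : 0 < α (S τ) * (1 - κ / β (S τ)) := by
      rw [e1, e2]
      have h1 : 1 - κ / D.β (S τ) = (D.β (S τ) - κ) / D.β (S τ) := by
        rw [sub_div, div_self (hDβ _).ne']
      rw [h1]
      exact mul_pos (hDα _) (div_pos (hbk _) (hDβ _))
    have h1 : HasDerivAt (fun s => 1 - κ / β (S s))
        (κ * (deriv β (S τ) * (D.w κ (S τ))⁻¹) / β (S τ) ^ 2) τ := by
      have h2 := ((hasDerivAt_const τ κ).div hβd (hM.β0 _).ne').const_sub 1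
      refine h2.congr_deriv ?_
      ring
    have h2 : HasDerivAt (fun s => √(α (S s) * (1 - κ / β (S s))))
        ((deriv α (S τ) * (D.w κ (S τ))⁻¹ * (1 - κ / β (S τ)) +
          α (S τ) * (κ * (deriv β (S τ) * (D.w κ (S τ))⁻¹) / β (S τ) ^ 2)) /
            (2 * √(α (S τ) * (1 - κ / β (S τ))))) τ := (hαd.mul h1).sqrt hpos.ne'
    have h3 := (h2.mul_const v.1).add (((hQ τ).inner ℝ (hasDerivAt_const τ v.2.1)).const_mul ε)
    refine h3.congr_deriv ?_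
    have hgr : inner ℝ (gradient D.ρ (φ (ε * D.sg κ (S τ)) z).1) v.2.1 =
        fderiv ℝ ρ (φ (ε * D.sg κ (S τ)) z).1 v.2.1 := by
      have h4 : D.ρ =ᶠ[𝓝 (φ (ε * D.sg κ (S τ)) z).1] ρ := by
        have h5 := (hev (S τ) (hmem τ hτ)).2
        rw [hcv] at h5
        exact h5
      unfold gradient
      rw [InnerProductSpace.toDual_symm_apply, h4.fderiv_eq]
    rw [(hγ τ).deriv, fderiv_metric hM _ _ _ rfl, hcv]
    simp only [inner_zero_right, zero_add]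
    rw [real_inner_smul_left, real_inner_smul_left, hgr, hnorm, e1, e2, e3]
    rw [← eulB (κ := κ) (hDβ (S τ)) (hDρ _) (hq τ) hκd.symm,
      ← eulA (hDα (S τ)) (hDβ (S τ)) (hbk _) (hwp _) (wsq (hDα _) (hDβ _) (hbk _))
        (aow (hDα _) (hDβ _) (hbk _))]
    ring
  · intro τ hτ
    obtain ⟨e1, e2, e3⟩ := hval τ hτ
    rw [(hγ τ).deriv, hM.warp _ _ _ rfl, hcv]
    simp only
    rw [real_inner_self_eq_norm_sq, hnorm, e1, e2, e3]
    exact unitA (hDα _) (hDβ _) (hbk _) (hDρ _) (wsq (hDα _) (hDβ _) (hbk _)) (hq τ) hκd.symm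

end Pool.Agent.WPD
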