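import Pool.Agent.WPD.Stmts

/-!
# The key identity
-/

set_option autoImplicit false

namespace Pool.Agent.WPD

open MeasureTheory Set Filter Topology

namespace KEYAux

theorem iter (hN : Stmt_NRS) (hD : Stmt_DTF) (hL : Stmt_LOC) {n : ℕ} (D : WD n) (j : ℕ)
    (g : F n → ℂ) (Ψ : P n → ℂ) (hΨ : D.TF Ψ) (hg : Cc g) (hNr : Nr j g Ψ) :
    ∀ i ≤ j, D.TF (D.der^[i] Ψ) ∧ Cc (D.Lo^[i] g) ∧ Nr (j - i) (D.Lo^[i] g) (D.der^[i] Ψ) := by
  intro i
  induction i with
  | zero => intro _; exact ⟨hΨ, hg, hNr⟩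
  | succ i ih =>
    intro hi
    obtain ⟨h1, h2, h3⟩ := ih (by omega)
    rw [Function.iterate_succ_apply', Function.iterate_succ_apply']
    refine ⟨hD n D _ h1, hL n D _ h2, ?_⟩
    have h4 : j - i = (j - (i + 1)) + 1 := by omega
    rw [h4] at h3
    exact hN n D _ _ _ h1 h2 h3

/-- the sum of the squares of the variables -/
noncomputable def Sq (n : ℕ) : MvPolynomial (Fin (n + 2)) ℂ := ∑ l, MvPolynomial.X l ^ 2

theorem Sq_hom (n m : ℕ) : (Sq n ^ m).IsHomogeneous (2 * m) := by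
  refine MvPolynomial.IsHomogeneous.pow ?_ m
  unfold Sq
  refine MvPolynomial.IsHomogeneous.sum _ _ _ fun l _ => ?_
  have h := (MvPolynomial.isHomogeneous_X ℂ l).pow 2
  rw [one_mul] at h
  exact h

theorem Sq_nv (n : ℕ) {m : ℕ} (hm : 1 ≤ m) : MvPolynomial.eval (nv n) (Sq n ^ m) = 0 := by
  rw [map_pow]
  have h : MvPolynomial.eval (nv n) (Sq n) = 0 := by
    unfold Sq
    rw [map_sum]
    simp only [map_pow, MvPolynomial.eval_X]
    rw [Fin.sum_univ_succ, Fin.sum_univ_succ]
    have h0 : nv n 0 = 1 := by simp [nv]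
    have h1 : nv n (Fin.succ 0) = Complex.I := by simp [nv]
    have h2 : ∀ l : Fin n, nv n l.succ.succ = 0 := by
      intro l
      unfold nv
      rw [if_neg (Fin.succ_ne_zero _), if_neg]
      intro h
      have := congrArg Fin.val h
      simp at this
    rw [h0, h1, Finset.sum_eq_zero fun l _ => by rw [h2 l, zero_pow two_ne_zero]]
    simp
  rw [h, zero_pow (by omega)]

theorem Sq_ev (n m : ℕ) (q : F n) : ev (Sq n ^ m) q = (((‖q‖ ^ 2 : ℝ)) : ℂ) ^ m := by
  unfold ev Sq
  rw [map_pow, map_sum]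
  simp only [map_pow, MvPolynomial.eval_X]
  rw [EuclideanSpace.real_norm_sq_eq]
  push_cast
  rfl

theorem term_zero {n : ℕ} (D : WD n) (t : ℝ) {m : ℕ} (hm : 1 ≤ m) (c : ℂ) (h : F n → ℂ)
    (Ψ : P n → ℂ) (hNr : Nr (2 * m) h Ψ) :
    ∫ z : P n, (D.f t z.1 : ℂ) * c * (D.k z : ℂ) ^ m * Ψ z = 0 := by
  by_cases hi : Integrable (fun z : P n => (D.f t z.1 : ℂ) * c * (D.k z : ℂ) ^ m * Ψ z)
      ((volume : Measure (F n)).prod (volume : Measure (F n)))
  · have h1 := integral_prod _ hi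
    rw [Measure.volume_eq_prod, h1]
    have h2 : ∀ x : F n, ∫ q : F n, (D.f t x : ℂ) * c * (D.k (x, q) : ℂ) ^ m * Ψ (x, q) = 0 := by
      intro x
      have h3 : ∀ q : F n, (D.f t x : ℂ) * c * (D.k (x, q) : ℂ) ^ m * Ψ (x, q) =
          ((D.f t x : ℂ) * c * ((D.ρ x : ℂ) ^ m)⁻¹) * (ev (Sq n ^ m) q * Ψ (x, q)) := by
        intro q
        rw [Sq_ev]
        unfold WD.k
        rw [Complex.ofReal_div, div_pow]
        ring
      simp only [h3]
      rw [integral_const_mul, hNr (2 * m) le_rfl _ (Sq_hom n m) x, if_pos rfl, Sq_nv n hm,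
        zero_mul, mul_zero]
    simp only [h2]
    exact integral_zero _ _
  · exact integral_undef hi

theorem meas_f {n : ℕ} (D : WD n) (t : ℝ) : Measurable fun x => D.f t x :=
  D.fm.comp measurable_prodMk_left

theorem term_main {n : ℕ} (D : WD n) (t : ℝ) (c : ℂ) (h : F n → ℂ)
    (Ψ : P n → ℂ) (hΨ : D.TF Ψ) (hNr : Nr 0 h Ψ) :
    ∫ z : P n, (D.f t z.1 : ℂ) * c * Ψ z = ∫ x : F n, (D.f t x : ℂ) * c * h x := by
  have hint : Integrable Ψ ((volume : Measure (F n)).prod (volume : Measure (F n))) := by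
    have : IsFiniteMeasureOnCompacts ((volume : Measure (F n)).prod (volume : Measure (F n))) :=
      inferInstance
    exact hΨ.smooth.continuous.integrable_of_hasCompactSupport hΨ.supp
  have hi : Integrable (fun z : P n => (D.f t z.1 : ℂ) * c * Ψ z)
      ((volume : Measure (F n)).prod (volume : Measure (F n))) := by
    have hm : Measurable fun z : P n => (D.f t z.1 : ℂ) * c :=
      (Complex.measurable_ofReal.comp ((meas_f D t).comp measurable_fst)).mul_const c
    refine (hint.norm.const_mul (D.B * ‖c‖)).mono'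
      (hm.aestronglyMeasurable.mul hint.aestronglyMeasurable) ?_
    refine Eventually.of_forall fun z => ?_
    rw [norm_mul, norm_mul, Complex.norm_real, Real.norm_eq_abs]
    exact mul_le_mul_of_nonneg_right (mul_le_mul_of_nonneg_right (D.fB t z.1) (norm_nonneg _))
      (norm_nonneg _)
  have h1 := integral_prod _ hi
  rw [Measure.volume_eq_prod, h1]
  refine integral_congr_ae (Eventually.of_forall fun x => ?_)
  have h2 := hNr 0 le_rfl 1 (MvPolynomial.isHomogeneous_one _ _) x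
  rw [if_pos rfl, map_one, one_mul] at h2
  have h3 : ∀ q : F n, ev (1 : MvPolynomial (Fin (n + 2)) ℂ) q * Ψ (x, q) = Ψ (x, q) := by
    intro q
    unfold ev
    rw [map_one, one_mul]
  simp only [h3] at h2
  change ∫ q : F n, (D.f t x : ℂ) * c * Ψ (x, q) = _
  rw [integral_const_mul, h2]

theorem integrable_main (hK : Stmt_COC) {n : ℕ} (D : WD n) (j : ℕ) (h : F n → ℂ) (hh : Cc h) :
    Integrable (Function.uncurry fun (t : ℝ) (x : F n) =>
      (D.f t x : ℂ) * (D.co j 0 t : ℂ) * h x)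
      ((volume : Measure ℝ).prod (volume : Measure (F n))) := by
  obtain ⟨C, hC⟩ := isCompact_Icc.exists_bound_of_continuousOn (s := Icc (-D.R) D.R)
    (hK n D j 0).continuousOn
  have hC0 : 0 ≤ C := (norm_nonneg _).trans (hC 0 ⟨by linarith [D.R0], D.R0.le⟩)
  have hhint : Integrable h := hh.smooth.continuous.integrable_of_hasCompactSupport hh.supp
  have hbd : Integrable (fun p : ℝ × F n => (Icc (-D.R) D.R).indicator (fun _ => D.B * C) p.1 *
      ‖h p.2‖) ((volume : Measure ℝ).prod (volume : Measure (F n))) := by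
    refine Integrable.mul_prod (μ := (volume : Measure ℝ)) (ν := (volume : Measure (F n)))
      ?_ hhint.norm
    rw [integrable_indicator_iff measurableSet_Icc]
    exact integrableOn_const (by simp)
  have hmeas : AEStronglyMeasurable (Function.uncurry fun (t : ℝ) (x : F n) =>
      (D.f t x : ℂ) * (D.co j 0 t : ℂ) * h x)
      ((volume : Measure ℝ).prod (volume : Measure (F n))) := by
    have h1 : Measurable fun p : ℝ × F n => (D.f p.1 p.2 : ℂ) :=
      Complex.measurable_ofReal.comp D.fm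
    have h2 : Measurable fun p : ℝ × F n => (D.co j 0 p.1 : ℂ) :=
      Complex.measurable_ofReal.comp ((hK n D j 0).measurable.comp measurable_fst)
    have h3 : Measurable fun p : ℝ × F n => h p.2 :=
      hh.smooth.continuous.measurable.comp measurable_snd
    exact ((h1.mul h2).mul h3).aestronglyMeasurable
  refine hbd.mono' hmeas (Eventually.of_forall fun p => ?_)
  simp only [Function.uncurry]
  rw [norm_mul, norm_mul, Complex.norm_real, Complex.norm_real]
  refine mul_le_mul_of_nonneg_right ?_ (norm_nonneg _)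
  have hB0 : 0 ≤ D.B := (abs_nonneg _).trans (D.fB 0 0)
  by_cases ht : p.1 ∈ Icc (-D.R) D.R
  · rw [Set.indicator_of_mem ht]
    exact mul_le_mul (D.fB _ _) (hC _ ht) (norm_nonneg _) hB0
  · rw [Set.indicator_of_notMem ht]
    have h1 : D.R ≤ |p.1| := by
      by_contra hcon
      rw [not_le] at hcon
      exact ht ⟨(abs_lt.1 hcon).1.le, (abs_lt.1 hcon).2.le⟩
    rw [D.f0 _ _ (Or.inl h1), norm_zero, zero_mul]

end KEYAux

open KEYAux in
theorem key (hO : Stmt_ORD) (hN : Stmt_NRS) (hT : Stmt_TST) (hD : Stmt_DTF) (hL : Stmt_LOC)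
    (hK : Stmt_COC) : Stmt_KEY := by
  intro n D φ hφ ε₀ hε₀ hZ j g hg
  obtain ⟨Ψ, hΨ, hNr⟩ := hT n D j g hg
  have hit := iter hN hD hL D j g Ψ hΨ hg hNr
  have h1 := hO n D φ hφ ε₀ hε₀ hZ Ψ hΨ j
  rw [Finset.sum_range_succ'] at h1
  rw [Finset.sum_eq_zero, zero_add] at h1
  · have hj := hit j le_rfl
    rw [Nat.sub_self] at hj
    have h2 : ∫ t : ℝ, ∫ z : P n, (D.f t z.1 : ℂ) * (D.co (j - 2 * 0) 0 t : ℂ) *
        (D.k z : ℂ) ^ 0 * (D.der^[j - 2 * 0] Ψ) z =
        ∫ t : ℝ, ∫ x : F n, (D.f t x : ℂ) * (D.co j 0 t : ℂ) * (D.Lo^[j] g) x := by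
      refine integral_congr_ae (Eventually.of_forall fun t => ?_)
      simp only [mul_zero, Nat.sub_zero, pow_zero, mul_one]
      exact term_main D t _ _ _ hj.1 hj.2.2
    rw [h2] at h1
    have h3 : ((-1 : ℂ) ^ (j - 2 * 0) / ((j - 2 * 0).factorial : ℂ)) ≠ 0 :=
      div_ne_zero (pow_ne_zero _ (neg_ne_zero.2 one_ne_zero))
        (Nat.cast_ne_zero.2 (Nat.factorial_ne_zero _))
    have h4 : ∫ t : ℝ, ∫ x : F n, (D.f t x : ℂ) * (D.co j 0 t : ℂ) * (D.Lo^[j] g) x = 0 := by
      rcases mul_eq_zero.1 h1 with h | h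
      · exact absurd h h3
      · exact h
    rw [← h4, integral_integral_swap (integrable_main hK D j _ hj.2.1)]
    refine integral_congr_ae (Eventually.of_forall fun x => ?_)
    simp only
    rw [integral_mul_const]
    congr 1
    unfold WD.M
    rw [← integral_complex_ofReal]
    refine integral_congr_ae (Eventually.of_forall fun t => ?_)
    simp only
    rw [Complex.ofReal_mul]
  · intro m hm
    rw [Finset.mem_range] at hm
    have hm2 : 2 * (m + 1) ≤ j := by omega
    have h2 := hit (j - 2 * (m + 1)) (Nat.sub_le _ _)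
    have h3 : j - (j - 2 * (m + 1)) = 2 * (m + 1) := by omega
    rw [h3] at h2
    have h4 : ∀ t : ℝ, ∫ z : P n, (D.f t z.1 : ℂ) * (D.co (j - 2 * (m + 1)) (m + 1) t : ℂ) *
        (D.k z : ℂ) ^ (m + 1) * (D.der^[j - 2 * (m + 1)] Ψ) z = 0 := fun t =>
      term_zero D t (by omega) _ _ _ h2.2.2
    simp only [h4]
    rw [integral_zero, mul_zero]

end Pool.Agent.WPD
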