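import Pool.Agent.WPD.Stmts

/-!
# Warped products: `Lo` preserves the smooth functions with compact support
-/

set_option autoImplicit false

namespace Pool.Agent.WPD

namespace LOCAux

lemma divSmooth {n : ℕ} (D : WD n) (g : F n → ℂ) (hg : ContDiff ℝ (⊤ : ℕ∞) g) :
    ContDiff ℝ (⊤ : ℕ∞) (fun y => g y / (D.ρ y : ℂ)) := by
  have h1 : (fun y => g y / (D.ρ y : ℂ)) = fun y => g y * (((D.ρ y)⁻¹ : ℝ) : ℂ) := by
    funext y
    rw [div_eq_mul_inv, Complex.ofReal_inv]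
  rw [h1]
  have h2 : ContDiff ℝ (⊤ : ℕ∞) (fun y => (D.ρ y)⁻¹) :=
    D.ρs.inv fun x => (lt_of_lt_of_le D.a0 (D.ρa x)).ne'
  exact hg.mul (Complex.ofRealCLM.contDiff.comp h2)

lemma divSupp {n : ℕ} (D : WD n) (g : F n → ℂ) (hg : HasCompactSupport g) :
    HasCompactSupport (fun y => g y / (D.ρ y : ℂ)) := by
  have h1 : (fun y => g y / (D.ρ y : ℂ)) = fun y => g y * ((D.ρ y : ℂ))⁻¹ := by
    funext y
    rw [div_eq_mul_inv]
  rw [h1]
  exact hg.mul_right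

end LOCAux

theorem loc : Stmt_LOC := by
  intro n D g hg
  have h1 := LOCAux.divSmooth D g hg.smooth
  have h2 := LOCAux.divSupp D g hg.supp
  have h3 : ContDiff ℝ (⊤ : ℕ∞) (fderiv ℝ (fun y => g y / (D.ρ y : ℂ))) :=
    h1.fderiv_right (m := (⊤ : ℕ∞)) (by simp)
  have h4 := h2.fderiv (𝕜 := ℝ)
  have h5 : ∀ v : F n, ContDiff ℝ (⊤ : ℕ∞) (fun x => fderiv ℝ (fun y => g y / (D.ρ y : ℂ)) x v) :=
    fun v => h3.clm_apply contDiff_const
  have h6 : ∀ v : F n, HasCompactSupport (fun x => fderiv ℝ (fun y => g y / (D.ρ y : ℂ)) x v) :=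
    fun v => h4.comp_left (g := fun L : F n →L[ℝ] ℂ => L v) rfl
  refine ⟨?_, ?_⟩
  · exact (h5 _).add (contDiff_const.mul (h5 _))
  · exact (h6 _).add ((h6 _).mul_left (f := fun _ => Complex.I))

end Pool.Agent.WPD
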