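import Pool.Agent.WPD.Stmts

set_option autoImplicit false

namespace Pool.Agent.WPD

open MeasureTheory Set Filter Topology

namespace METAux

/-- the inclusion of the axis -/
noncomputable def ax (n m : ℕ) (t : ℝ) : T n m := (t, 0, 0)

theorem ax_diff (n m : ℕ) : Differentiable ℝ (ax n m) := by
  intro t
  exact (differentiableAt_id).prodMk (differentiableAt_const _)

theorem gen {V : Type*} [NormedAddCommGroup V] [NormedSpace ℝ V] {G : V → V →L[ℝ] V →L[ℝ] ℝ}
    (hG : Pool.Agent.XRay.IsMetric G) {c : ℝ → V} (hc : Differentiable ℝ c) (v v' : V) :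
    Differentiable ℝ (fun t : ℝ => G (c t) v v') := by
  have h1 : Differentiable ℝ (fun t : ℝ => G (c t)) :=
    fun t => DifferentiableAt.comp (g := G) (f := c) t (hG.diff (c t)) (hc t)
  have h2 : Differentiable ℝ (fun t : ℝ => G (c t) v) :=
    fun t => (h1 t).clm_apply (differentiableAt_const v)
  exact fun t => (h2 t).clm_apply (differentiableAt_const v')

theorem diffG {n m : ℕ} {G : T n m → T n m →L[ℝ] T n m →L[ℝ] ℝ}
    (hG : Pool.Agent.XRay.IsMetric G) (v v' : T n m) :
    Differentiable ℝ (fun t : ℝ => G (ax n m t) v v') :=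
  gen hG (ax_diff n m) v v'

end METAux

open METAux in
theorem met : Stmt_MET := by
  intro n m G α β ρ hG hW hρ hβ hρ0
  set e0 : F n := EuclideanSpace.single 0 1 with he0
  have he : inner ℝ e0 e0 = (1 : ℝ) := by
    rw [real_inner_self_eq_norm_sq, he0]
    simp
  have hα : ∀ t, α t = G (ax n m t) ((1, 0, 0) : T n m) ((1, 0, 0) : T n m) := by
    intro t
    rw [hW (ax n m t) (1, 0, 0) (1, 0, 0) rfl]
    simp [ax]
  have hβ' : ∀ t, β t = (ρ 0)⁻¹ * G (ax n m t) ((0, e0, 0) : T n m) ((0, e0, 0) : T n m) := by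
    intro t
    rw [hW (ax n m t) (0, e0, 0) (0, e0, 0) rfl]
    have h0 := (hρ0 0).ne'
    simp only [ax, mul_zero, zero_add]
    rw [he]
    field_simp
  refine ⟨hG, hW, ?_, ?_, hρ, ?_, hβ, hρ0⟩
  · have : α = fun t => G (ax n m t) ((1, 0, 0) : T n m) ((1, 0, 0) : T n m) := funext hα
    rw [this]
    exact diffG hG _ _
  · have : β = fun t => (ρ 0)⁻¹ * G (ax n m t) ((0, e0, 0) : T n m) ((0, e0, 0) : T n m) :=
      funext hβ'
    rw [this]
    exact (diffG hG _ _).const_mul _
  · intro t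
    rw [hα t]
    apply hG.pos
    intro h
    exact one_ne_zero (congrArg Prod.fst h)

end Pool.Agent.WPD
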