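import Pool.Agent.WPD.Stmts

/-!
# Modification of a smooth positive function away from a ball
-/

set_option autoImplicit false

namespace Pool.Agent.WPD

open MeasureTheory Set Filter Topology

theorem mod_ : Stmt_MOD := by
  intro n ρ R hρ h0
  have hr : (0 : ℝ) < |R| + 1 := by positivity
  let ζ : ContDiffBump (0 : F n) :=
    { rIn := |R| + 1, rOut := |R| + 2, rIn_pos := hr, rIn_lt_rOut := by linarith }
  have hζ : ContDiff ℝ (⊤ : ℕ∞) (fun x => ζ x) := ζ.contDiff
  have hK : IsCompact (Metric.closedBall (0 : F n) (|R| + 2)) := isCompact_closedBall _ _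
  have hne : (Metric.closedBall (0 : F n) (|R| + 2)).Nonempty :=
    ⟨0, Metric.mem_closedBall_self (by positivity)⟩
  obtain ⟨x₀, -, hmin⟩ := hK.exists_isMinOn hne hρ.continuous.continuousOn
  obtain ⟨x₁, -, hmax⟩ := hK.exists_isMaxOn hne hρ.continuous.continuousOn
  refine ⟨fun x => ζ x * ρ x + (1 - ζ x), min (ρ x₀) 1, max (ρ x₁) 1, |R| + 2, 1,
    lt_min (h0 _) one_pos, (hζ.mul hρ).add (contDiff_const.sub hζ), ?_, ?_, ?_⟩
  · intro x
    by_cases hx : x ∈ Metric.closedBall (0 : F n) (|R| + 2)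
    · have h1 : ρ x₀ ≤ ρ x := hmin hx
      have h2 : ρ x ≤ ρ x₁ := hmax hx
      have h3 : (0 : ℝ) ≤ ζ x := ζ.nonneg
      have h4 : (ζ x : ℝ) ≤ 1 := ζ.le_one
      have a1 : min (ρ x₀) 1 ≤ ρ x := (min_le_left _ _).trans h1
      have a2 : min (ρ x₀) 1 ≤ 1 := min_le_right _ _
      have a3 : ρ x ≤ max (ρ x₁) 1 := h2.trans (le_max_left _ _)
      have a4 : 1 ≤ max (ρ x₁) 1 := le_max_right _ _
      constructor
      · nlinarith [mul_le_mul_of_nonneg_left a1 h3,
          mul_le_mul_of_nonneg_left a2 (sub_nonneg.2 h4)]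
      · nlinarith [mul_le_mul_of_nonneg_left a3 h3,
          mul_le_mul_of_nonneg_left a4 (sub_nonneg.2 h4)]
    · have h5 : |R| + 2 ≤ dist x 0 := (not_le.1 fun h => hx (Metric.mem_closedBall.2 h)).le
      have h6 : ζ x = 0 := ζ.zero_of_le_dist h5
      show min (ρ x₀) 1 ≤ ζ x * ρ x + (1 - ζ x) ∧ ζ x * ρ x + (1 - ζ x) ≤ max (ρ x₁) 1
      rw [h6, zero_mul, zero_add, sub_zero]
      exact ⟨min_le_right _ _, le_max_right _ _⟩
  · intro x hx
    have h5 : |R| + 2 ≤ dist x 0 := by rwa [dist_zero_right]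
    have h6 : ζ x = 0 := ζ.zero_of_le_dist h5
    show ζ x * ρ x + (1 - ζ x) = 1
    rw [h6]
    ring
  · intro x hx
    have h5 : x ∈ Metric.closedBall (0 : F n) (|R| + 1) := by
      rw [mem_closedBall_zero_iff]
      linarith [le_abs_self R]
    have h6 : ζ x = 1 := ζ.one_of_mem_closedBall h5
    show ζ x * ρ x + (1 - ζ x) = ρ x
    rw [h6]
    ring

end Pool.Agent.WPD
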