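import Pool.Agent.WPD.Stmts

/-!
# Warped products: the moments vanish   (helper63)
-/

set_option autoImplicit false

namespace Pool.Agent.WPD

open MeasureTheory Set Filter Topology

namespace MZAux

variable {n : ℕ}

theorem M_zero (D : WD n) (j : ℕ) {x : F n} (hx : D.R ≤ ‖x‖) : D.M j x = 0 := by
  unfold WD.M
  simp [D.f0 _ x (Or.inr hx)]

theorem M_meas (hK : Stmt_COC) (D : WD n) (j : ℕ) : StronglyMeasurable (D.M j) := by
  have h1 : StronglyMeasurable
      (Function.uncurry fun (t : ℝ) (x : F n) => D.f t x * D.co j 0 t) := by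
    refine Measurable.stronglyMeasurable ?_
    exact D.fm.mul ((hK n D j 0).measurable.comp measurable_fst)
  exact h1.integral_prod_left (μ := volume)

theorem M_bdd (hK : Stmt_COC) (D : WD n) (j : ℕ) : ∃ K : ℝ, ∀ x, ‖D.M j x‖ ≤ K := by
  obtain ⟨c, hc⟩ := (isCompact_Icc (a := -D.R) (b := D.R)).exists_bound_of_continuousOn
    (hK n D j 0).continuousOn
  have hB : 0 ≤ D.B := (abs_nonneg _).trans (D.fB 0 0)
  refine ⟨∫ t : ℝ, (Icc (-D.R) D.R).indicator (fun _ => D.B * c) t, fun x => ?_⟩
  refine norm_integral_le_of_norm_le ?_ (Eventually.of_forall fun t => ?_)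
  · rw [integrable_indicator_iff measurableSet_Icc]
    exact integrableOn_const (by simp [Real.volume_Icc])
  · by_cases ht : t ∈ Icc (-D.R) D.R
    · rw [indicator_of_mem ht, norm_mul]
      exact mul_le_mul (D.fB t x) (hc t ht) (norm_nonneg _) hB
    · rw [indicator_of_notMem ht]
      have h1 : D.R ≤ |t| := by
        by_contra h
        push Not at h
        rw [abs_lt] at h
        exact ht ⟨h.1.le, h.2.le⟩
      rw [D.f0 t x (Or.inl h1), zero_mul, norm_zero]

theorem M_loc (hK : Stmt_COC) (D : WD n) (j : ℕ) : LocallyIntegrable (D.M j) volume := by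
  obtain ⟨K, hK'⟩ := M_bdd hK D j
  refine (locallyIntegrable_const K).mono (M_meas hK D j).aestronglyMeasurable ?_
  exact Eventually.of_forall fun x => (hK' x).trans (le_abs_self K)

end MZAux

theorem mz (hS : Stmt_SOL) (hK : Stmt_COC) : Stmt_MZ := by
  intro n D h j
  refine ae_eq_zero_of_integral_contDiff_smul_eq_zero (MZAux.M_loc hK D j) fun g hg hgs => ?_
  have hχ : Cc (fun x : F n => (g x : ℂ)) :=
    ⟨Complex.ofRealCLM.contDiff.comp hg, hgs.comp_left (g := fun r : ℝ => (r : ℂ)) (by simp)⟩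
  obtain ⟨g', hg', hL⟩ := hS n D j _ D.R hχ
  have h1 := h j g' hg'
  have h2 : ∀ x : F n, (D.M j x : ℂ) * (D.Lo^[j] g') x = ((g x • D.M j x : ℝ) : ℂ) := by
    intro x
    by_cases hx : ‖x‖ ≤ D.R
    · rw [hL x hx, smul_eq_mul]
      push_cast
      ring
    · rw [MZAux.M_zero D j (not_le.1 hx).le]
      simp
  simp only [h2] at h1
  have h3 := integral_ofReal (𝕜 := ℂ) (μ := volume) (f := fun x : F n => g x • D.M j x)
  exact Complex.ofReal_injective (h3.symm.trans (h1.trans Complex.ofReal_zero.symm))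

end Pool.Agent.WPD
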