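import Pool.Agent.WPD.Stmts

/-!
# NUL: null sets along the curves
-/

set_option autoImplicit false

namespace Pool.Agent.WPD

open MeasureTheory Set Filter Topology

namespace NULAux

theorem continuous_k {n : ℕ} (D : WD n) : Continuous D.k := by
  unfold WD.k
  have h1 : Continuous D.ρ := D.ρs.continuous
  refine (continuous_snd.norm.pow 2).div (h1.comp continuous_fst) fun z => ?_
  exact (D.a0.trans_le (D.ρa z.1)).ne'

theorem k_nonneg {n : ℕ} (D : WD n) (z : P n) : 0 ≤ D.k z := by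
  unfold WD.k
  have h1 : 0 < D.ρ z.1 := D.a0.trans_le (D.ρa z.1)
  positivity

end NULAux

open NULAux in
theorem nul (hM : Stmt_MPG) (hS : Stmt_SG) : Stmt_NUL := by
  intro n D φ hφ ε hε hε2 N hN hN0
  obtain ⟨C, hC⟩ := hS n D
  obtain ⟨Φ, hΦ⟩ : ∃ Φ : ℝ → P n → P n, ∀ t z,
      Φ t z = φ (ε * D.sg (min (ε ^ 2 * D.k z) (D.a / 2)) t) z := ⟨_, fun t z => rfl⟩
  have hk := continuous_k D
  have hcont : Continuous (fun p : ℝ × P n => Φ p.1 p.2) := by
    have e : (fun p : ℝ × P n => Φ p.1 p.2) =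
        (fun p : ℝ × P n => φ p.1 p.2) ∘ (fun p : ℝ × P n =>
          (ε * D.sg (min (ε ^ 2 * D.k p.2) (D.a / 2)) p.1, p.2)) := by
      funext p
      exact hΦ p.1 p.2
    rw [e]
    refine hφ.cont.comp (Continuous.prodMk ?_ continuous_snd)
    have h1 : Continuous (fun p : ℝ × P n => (ε ^ 2 * D.k p.2, p.1)) :=
      (continuous_const.mul (hk.comp continuous_snd)).prodMk continuous_fst
    exact continuous_const.mul (hC.sgc.comp h1)
  have hmp : ∀ t, MeasurePreserving (Φ t) volume volume := by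
    intro t
    have h1 := hM n D φ hφ (fun κ => ε * D.sg (min (ε ^ 2 * κ) (D.a / 2)) t) (by
      have h2 : Continuous (fun κ : ℝ => (ε ^ 2 * κ, t)) :=
        (continuous_const.mul continuous_id).prodMk continuous_const
      exact continuous_const.mul (hC.sgc.comp h2))
    have e : Φ t = fun z => φ (ε * D.sg (min (ε ^ 2 * D.k z) (D.a / 2)) t) z := by
      funext z
      exact hΦ t z
    rw [e]
    exact h1
  have hmeas : MeasurableSet {p : ℝ × P n | (p.1, (Φ p.1 p.2).1) ∉ N} := by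
    have h1 : Measurable (fun p : ℝ × P n => (p.1, (Φ p.1 p.2).1)) :=
      (continuous_fst.prodMk (continuous_fst.comp hcont)).measurable
    exact h1 hN.compl
  have h1 : ∀ᵐ t : ℝ, ∀ᵐ x : F n, (t, x) ∉ N := by
    have h2 : ∀ᵐ p : ℝ × F n, p ∉ N := measure_eq_zero_iff_ae_notMem.1 hN0
    rw [Measure.volume_eq_prod] at h2
    exact Measure.ae_ae_of_ae_prod h2
  have h2 : ∀ᵐ t : ℝ, ∀ᵐ z : P n, (t, (Φ t z).1) ∉ N := by
    filter_upwards [h1] with t ht
    have h3 : ∀ᵐ z : P n, (t, z.1) ∉ N := by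
      rw [Measure.volume_eq_prod]
      exact Measure.quasiMeasurePreserving_fst.ae ht
    exact (hmp t).quasiMeasurePreserving.ae h3
  have h3 : ∀ᵐ z : P n, ∀ᵐ t : ℝ, (t, (Φ t z).1) ∉ N := (Measure.ae_ae_comm hmeas).1 h2
  filter_upwards [h3] with z hz hkz
  filter_upwards [hz] with t ht
  have h4 : min (ε ^ 2 * D.k z) (D.a / 2) = ε ^ 2 * D.k z := by
    apply min_eq_left
    have h5 : ε ^ 2 * D.k z ≤ ε ^ 2 * 1 := mul_le_mul_of_nonneg_left hkz.le (sq_nonneg ε)
    linarith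
  rw [hΦ, h4] at ht
  exact ht

end Pool.Agent.WPD
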