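import Pool.Agent.WPD.Stmts

/-!
# The coefficient of `ε^j` in the data
-/

set_option autoImplicit false

namespace Pool.Agent.WPD

open MeasureTheory Set Filter Topology

namespace ORDAux

/-- a polynomial which is `O(ε^j)` has zero coefficients below `j` -/
theorem poly_coeff (C ε₁ : ℝ) (h1 : 0 < ε₁) : ∀ (j : ℕ) (P : Polynomial ℂ),
    (∀ ε : ℝ, 0 < ε → ε < ε₁ → ‖P.eval (ε : ℂ)‖ ≤ C * ε ^ j) → ∀ l < j, P.coeff l = 0 := by
  intro j
  induction j with
  | zero =>
    intro P _ l hl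
    omega
  | succ j ih =>
    intro P hP l hl
    have h0 : P.coeff 0 = 0 := by
      have hc : Tendsto (fun ε : ℝ => ‖P.eval (ε : ℂ)‖) (𝓝[>] 0)
          (𝓝 ‖P.eval ((0 : ℝ) : ℂ)‖) := by
        have h2 : Continuous (fun ε : ℝ => ‖P.eval (ε : ℂ)‖) :=
          (P.continuous.comp Complex.continuous_ofReal).norm
        exact (h2.tendsto 0).mono_left nhdsWithin_le_nhds
      have hd : Tendsto (fun ε : ℝ => C * ε ^ (j + 1)) (𝓝[>] 0) (𝓝 0) := by
        have h2 : Continuous (fun ε : ℝ => C * ε ^ (j + 1)) := by fun_prop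
        have h3 := h2.tendsto 0
        simp only [ne_eq, Nat.succ_ne_zero, not_false_eq_true, zero_pow, mul_zero] at h3
        exact h3.mono_left nhdsWithin_le_nhds
      have hev : ∀ᶠ ε : ℝ in 𝓝[>] (0 : ℝ), ‖P.eval (ε : ℂ)‖ ≤ C * ε ^ (j + 1) := by
        filter_upwards [Ioo_mem_nhdsGT h1] with ε hε
        exact hP ε hε.1 hε.2
      have h3 : ‖P.eval ((0 : ℝ) : ℂ)‖ ≤ 0 := le_of_tendsto_of_tendsto hc hd hev
      have h4 : P.eval ((0 : ℝ) : ℂ) = 0 := norm_le_zero_iff.1 h3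
      rw [Complex.ofReal_zero] at h4
      rw [Polynomial.coeff_zero_eq_eval_zero]
      exact h4
    rcases l with _ | l
    · exact h0
    · have h5 : ∀ ε : ℝ, 0 < ε → ε < ε₁ → ‖P.divX.eval (ε : ℂ)‖ ≤ C * ε ^ j := by
        intro ε he he1
        have h6 := hP ε he he1
        have h7 : P.eval (ε : ℂ) = P.divX.eval (ε : ℂ) * ε := by
          conv_lhs => rw [← Polynomial.divX_mul_X_add P]
          rw [h0]
          simp
        rw [h7, norm_mul, Complex.norm_real, Real.norm_eq_abs, abs_of_pos he, pow_succ,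
          ← mul_assoc] at h6
        exact le_of_mul_le_mul_right h6 he
      have h8 := ih P.divX h5 l (by omega)
      rw [Polynomial.coeff_divX] at h8
      exact h8

variable {n : ℕ} (D : WD n)

theorem k_cont : Continuous D.k := by
  unfold WD.k
  have h1 : Continuous D.ρ := D.ρs.continuous
  refine Continuous.div (by fun_prop) (h1.comp continuous_fst) fun z => ?_
  exact (D.a0.trans_le (D.ρa z.1)).ne'

theorem k_nonneg (z : P n) : 0 ≤ D.k z :=
  div_nonneg (by positivity) (D.a0.le.trans (D.ρa z.1))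

/-- the box -/
def box (n : ℕ) (R r : ℝ) : Set (ℝ × P n) := Icc (-R) R ×ˢ Metric.closedBall (0 : P n) r

theorem box_compact (R r : ℝ) : IsCompact (box n R r) :=
  isCompact_Icc.prod (isCompact_closedBall _ _)

theorem mem_box {R r : ℝ} {p : ℝ × P n} :
    p ∈ box n R r ↔ |p.1| ≤ R ∧ p.2 ∈ Metric.closedBall (0 : P n) r := by
  unfold box
  rw [mem_prod, mem_Icc, abs_le]

/-- the measure on the product -/
noncomputable abbrev μ (n : ℕ) : Measure (ℝ × P n) := (volume : Measure ℝ).prod volume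

theorem sf (n : ℕ) : SFinite (volume : Measure (P n)) := by
  have := haarP n
  infer_instance

theorem box_lt (R r : ℝ) : μ n (box n R r) < ⊤ := by
  have := haarP n
  unfold μ box
  rw [Measure.prod_prod]
  exact ENNReal.mul_lt_top isCompact_Icc.measure_lt_top (isCompact_closedBall _ _).measure_lt_top

theorem f_meas : Measurable (fun p : ℝ × P n => (D.f p.1 p.2.1 : ℂ)) :=
  Complex.measurable_ofReal.comp
    (D.fm.comp (by fun_prop : Measurable (fun p : ℝ × P n => (p.1, p.2.1))))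

theorem f_le (t : ℝ) (x : F n) : ‖(D.f t x : ℂ)‖ ≤ D.B := by
  rw [Complex.norm_real, Real.norm_eq_abs]
  exact D.fB t x

theorem integrable_fg {g : ℝ × P n → ℂ} {r : ℝ} (hg : Continuous g)
    (h0 : ∀ p : ℝ × P n, |p.1| ≤ D.R → p.2 ∉ Metric.closedBall (0 : P n) r → g p = 0) :
    Integrable (fun p : ℝ × P n => (D.f p.1 p.2.1 : ℂ) * g p) (μ n) := by
  obtain ⟨C, hC⟩ := (box_compact (n := n) D.R r).exists_bound_of_continuousOn hg.continuousOn
  have hsup : Function.support (fun p : ℝ × P n => (D.f p.1 p.2.1 : ℂ) * g p) ⊆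
      box n D.R r := by
    intro p hp
    rw [Function.mem_support] at hp
    rw [mem_box]
    have h1 : |p.1| ≤ D.R := by
      by_contra h
      apply hp
      rw [D.f0 p.1 p.2.1 (Or.inl (not_le.1 h).le)]
      simp
    refine ⟨h1, ?_⟩
    by_contra h
    apply hp
    rw [h0 p h1 h, mul_zero]
  rw [← integrableOn_iff_integrable_of_support_subset hsup]
  refine Measure.integrableOn_of_bounded (M := D.B * C) (box_lt _ _).ne ?_ ?_
  · exact ((f_meas D).mul hg.measurable).aestronglyMeasurable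
  · rw [ae_restrict_iff' (box_compact _ _).measurableSet]
    refine Eventually.of_forall fun p hp => ?_
    rw [norm_mul]
    exact mul_le_mul (f_le D _ _) (hC p hp) (norm_nonneg _) ((norm_nonneg _).trans (f_le D p.1 p.2.1))

theorem norm_integral_box {h : ℝ × P n → ℂ} {R r E : ℝ}
    (hE : ∀ p ∈ box n R r, ‖h p‖ ≤ E) (h0 : ∀ p ∉ box n R r, h p = 0) :
    ‖∫ p, h p ∂(μ n)‖ ≤ E * (μ n).real (box n R r) := by
  rw [← setIntegral_eq_integral_of_forall_compl_eq_zero h0]
  exact norm_setIntegral_le_of_norm_le_const (box_lt _ _) hE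

/-- the sum over `i + 2 m = j` -/
theorem sum_diag (j : ℕ) (a : ℕ → ℕ → ℂ) :
    ∑ i ∈ Finset.range (j + 1), ∑ m ∈ Finset.range (j + 1), (if i + 2 * m = j then a i m else 0) =
      ∑ m ∈ Finset.range (j / 2 + 1), a (j - 2 * m) m := by
  rw [Finset.sum_comm]
  have h1 : ∀ m ∈ Finset.range (j + 1),
      ∑ i ∈ Finset.range (j + 1), (if i + 2 * m = j then a i m else 0) =
        if 2 * m ≤ j then a (j - 2 * m) m else 0 := by
    intro m _
    by_cases hm : 2 * m ≤ j
    · rw [if_pos hm, Finset.sum_eq_single (j - 2 * m)]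
      · rw [if_pos (by omega)]
      · intro i _ hi
        rw [if_neg (by omega)]
      · intro h
        exact absurd (Finset.mem_range.2 (by omega)) h
    · rw [if_neg hm]
      refine Finset.sum_eq_zero fun i _ => ?_
      rw [if_neg (by omega)]
  rw [Finset.sum_congr rfl h1]
  symm
  rw [← Finset.sum_filter]
  refine Finset.sum_congr ?_ fun _ _ => rfl
  ext m
  simp only [Finset.mem_range, Finset.mem_filter]
  omega

/-- continuity of the iterated derivatives and bounds -/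
theorem tf_bound {Ψ : P n → ℂ} (h : D.TF Ψ) : ∃ C r : ℝ, (∀ z, ‖Ψ z‖ ≤ C) ∧
    ∀ z, r < ‖z‖ → Ψ z = 0 := by
  obtain ⟨C, hC⟩ := h.smooth.continuous.bounded_above_of_compact_support h.supp
  obtain ⟨r, hr⟩ := h.supp.isCompact.isBounded.subset_closedBall 0
  refine ⟨C, r, hC, fun z hz => ?_⟩
  by_contra h1
  have h2 : z ∈ tsupport Ψ := subset_tsupport _ h1
  have h3 := hr h2
  rw [Metric.mem_closedBall, dist_zero_right] at h3
  linarith

/-- the clamped integrand -/
noncomputable def gE (φ : ℝ → P n → P n) (Ψ : P n → ℂ) (ε : ℝ) (p : ℝ × P n) : ℂ :=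
  Ψ (φ (-(ε * D.sg (min (ε ^ 2 * D.k p.2) (D.a / 2)) p.1)) p.2) *
    (D.w (min (ε ^ 2 * D.k p.2) (D.a / 2)) p.1 : ℂ)

theorem gE_cont {φ : ℝ → P n → P n} (hφ : D.Flow φ) {Ψ : P n → ℂ} (hΨ : D.TF Ψ) {C : ℝ}
    (hS : Sgf D C) (ε : ℝ) : Continuous (gE D φ Ψ ε) := by
  have hk := k_cont D
  have h1 : Continuous (fun p : ℝ × P n => ((ε ^ 2 * D.k p.2, p.1) : ℝ × ℝ)) := by fun_prop
  have h2 : Continuous (fun p : ℝ × P n => D.sg (min (ε ^ 2 * D.k p.2) (D.a / 2)) p.1) :=
    hS.sgc.comp h1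
  have h3 : Continuous (fun p : ℝ × P n => D.w (min (ε ^ 2 * D.k p.2) (D.a / 2)) p.1) :=
    hS.wc.comp h1
  have h4 : Continuous (fun p : ℝ × P n =>
      ((-(ε * D.sg (min (ε ^ 2 * D.k p.2) (D.a / 2)) p.1), p.2) : ℝ × P n)) := by fun_prop
  exact (hΨ.smooth.continuous.comp (hφ.cont.comp h4)).mul (Complex.continuous_ofReal.comp h3)

theorem gE_low {φ : ℝ → P n → P n} (hφ : D.Flow φ) {Ψ : P n → ℂ} (hΨ : D.TF Ψ) (ε : ℝ)
    {p : ℝ × P n} (h : 1 ≤ D.k p.2) : gE D φ Ψ ε p = 0 := by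
  unfold gE
  rw [hΨ.low _ (by rw [hφ.energy]; exact h), zero_mul]

theorem gE_eq {φ : ℝ → P n → P n} (hφ : D.Flow φ) {Ψ : P n → ℂ} (hΨ : D.TF Ψ) {ε : ℝ}
    (hε : ε ^ 2 ≤ D.a / 2) (t : ℝ) (z : P n) :
    gE D φ Ψ ε (t, z) = Ψ (φ (-(ε * D.sg (ε ^ 2 * D.k z) t)) z) *
      (D.w (ε ^ 2 * D.k z) t : ℂ) := by
  rcases lt_or_ge (D.k z) 1 with h | h
  · unfold gE
    have h1 : min (ε ^ 2 * D.k z) (D.a / 2) = ε ^ 2 * D.k z := by
      apply min_eq_left
      nlinarith [sq_nonneg ε, k_nonneg D z]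
    simp only [h1]
  · rw [gE_low D hφ hΨ ε (p := (t, z)) h, hΨ.low _ (by rw [hφ.energy]; exact h), zero_mul]

/-- the terms of the expansion -/
noncomputable def gA (Ψ : P n → ℂ) (i m : ℕ) (p : ℝ × P n) : ℂ :=
  (D.co i m p.1 : ℂ) * (D.k p.2 : ℂ) ^ m * (D.der^[i] Ψ) p.2

theorem gA_cont (hK : Stmt_COC) {Ψ : P n → ℂ} {i : ℕ} (hΨ : D.TF (D.der^[i] Ψ)) (m : ℕ) :
    Continuous (gA D Ψ i m) := by
  have h1 : Continuous (fun p : ℝ × P n => (D.co i m p.1 : ℂ)) :=
    Complex.continuous_ofReal.comp ((hK n D i m).comp continuous_fst)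
  have h2 : Continuous (fun p : ℝ × P n => (D.k p.2 : ℂ) ^ m) :=
    (Complex.continuous_ofReal.comp ((k_cont D).comp continuous_snd)).pow m
  exact (h1.mul h2).mul (hΨ.smooth.continuous.comp continuous_snd)

/-- the algebra of the expansion -/
theorem algebra (j : ℕ) (ε sg w κ k : ℝ) (hκ : κ = ε ^ 2 * k) (Φ : ℂ) (ψ : ℕ → ℂ)
    (co : ℕ → ℕ → ℝ) :
    Φ * (w : ℂ) - ∑ i ∈ Finset.range (j + 1), ∑ m ∈ Finset.range (j + 1),
        ((-1 : ℂ) ^ i / (i.factorial : ℂ)) * (ε : ℂ) ^ (i + 2 * m) *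
          ((co i m : ℂ) * (k : ℂ) ^ m * ψ i) =
      (Φ - ∑ i ∈ Finset.range (j + 1), (((-(ε * sg) : ℝ) : ℂ) ^ i / (i.factorial : ℂ)) * ψ i) *
        (w : ℂ) +
      ∑ i ∈ Finset.range (j + 1), ((-1 : ℂ) ^ i / (i.factorial : ℂ)) * (ε : ℂ) ^ i * ψ i *
        ((sg ^ i * w - ∑ m ∈ Finset.range (j + 1), co i m * κ ^ m : ℝ) : ℂ) := by
  have h1 : (∑ i ∈ Finset.range (j + 1), (((-(ε * sg) : ℝ) : ℂ) ^ i / (i.factorial : ℂ)) * ψ i) *
        (w : ℂ) = ∑ i ∈ Finset.range (j + 1), ((-1 : ℂ) ^ i / (i.factorial : ℂ)) *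
          (ε : ℂ) ^ i * ψ i * ((sg ^ i * w : ℝ) : ℂ) := by
    rw [Finset.sum_mul]
    refine Finset.sum_congr rfl fun i _ => ?_
    have h2 : ((-(ε * sg) : ℝ) : ℂ) ^ i = (-1) ^ i * (ε : ℂ) ^ i * (sg : ℂ) ^ i := by
      push_cast
      rw [← mul_pow, ← mul_pow]
      congr 1
      ring
    rw [h2]
    push_cast
    ring
  have h3 : ∑ i ∈ Finset.range (j + 1), ∑ m ∈ Finset.range (j + 1),
        ((-1 : ℂ) ^ i / (i.factorial : ℂ)) * (ε : ℂ) ^ (i + 2 * m) *
          ((co i m : ℂ) * (k : ℂ) ^ m * ψ i) =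
      ∑ i ∈ Finset.range (j + 1), ((-1 : ℂ) ^ i / (i.factorial : ℂ)) * (ε : ℂ) ^ i * ψ i *
        ((∑ m ∈ Finset.range (j + 1), co i m * κ ^ m : ℝ) : ℂ) := by
    refine Finset.sum_congr rfl fun i _ => ?_
    rw [Complex.ofReal_sum, Finset.mul_sum]
    refine Finset.sum_congr rfl fun m _ => ?_
    rw [hκ]
    push_cast
    rw [pow_add, pow_mul, mul_pow]
    ring
  rw [sub_mul, h1, h3]
  simp only [Complex.ofReal_sub, mul_sub, Finset.sum_sub_distrib]
  ring

end ORDAux

open ORDAux in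
theorem ord (hC : Stmt_CHG) (hT : Stmt_TAY) (hE : Stmt_EXP) (hK : Stmt_COC) (hS : Stmt_SG)
    (hD : Stmt_DTF) : Stmt_ORD := by
  intro n D φ hφ ε₀ hε₀ hZ Ψ hΨ j
  obtain ⟨C1, hS1⟩ := hS n D
  obtain ⟨C2, hT1⟩ := hT n D φ hφ Ψ hΨ j
  choose C3 hE1 using fun i => hE n D i j
  obtain ⟨C5, h5⟩ := hφ.move
  have hTF : ∀ i, D.TF (D.der^[i] Ψ) := by
    intro i
    induction i with
    | zero => exact hΨ
    | succ i ih =>
      rw [Function.iterate_succ_apply']
      exact hD n D _ ih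
  choose C4 r4 h4 h4' using fun i => tf_bound D (hTF i)
  have hB0 : 0 ≤ D.B := (norm_nonneg _).trans (f_le D 0 0)
  have hR0 := D.R0
  have hC1 := hS1.C0
  set r : ℝ := ∑ i ∈ Finset.range (j + 1), |r4 i| + |C5| * (C1 * D.R) with hr
  have hr4 : ∀ i ∈ Finset.range (j + 1), r4 i + |C5| * (C1 * D.R) ≤ r := by
    intro i hi
    have h1 : |r4 i| ≤ ∑ i ∈ Finset.range (j + 1), |r4 i| :=
      Finset.single_le_sum (f := fun i => |r4 i|) (fun i _ => abs_nonneg _) hi
    have h2 := le_abs_self (r4 i)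
    rw [hr]
    linarith
  have hC5 : 0 ≤ |C5| * (C1 * D.R) := by positivity
  -- the terms of the expansion
  have hA0 : ∀ i ∈ Finset.range (j + 1), ∀ z : P n, z ∉ Metric.closedBall (0 : P n) r →
      (D.der^[i] Ψ) z = 0 := by
    intro i hi z hz
    apply h4' i z
    rw [Metric.mem_closedBall, dist_zero_right, not_le] at hz
    have := hr4 i hi
    linarith
  have hAi : ∀ i ∈ Finset.range (j + 1), ∀ m : ℕ,
      Integrable (fun p : ℝ × P n => (D.f p.1 p.2.1 : ℂ) * gA D Ψ i m p) (μ n) := by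
    intro i hi m
    refine integrable_fg D (gA_cont D hK (hTF i) m) (r := r) fun p _ hp => ?_
    unfold gA
    rw [hA0 i hi p.2 hp, mul_zero]
  have hAval : ∀ i ∈ Finset.range (j + 1), ∀ m : ℕ,
      ∫ p, (D.f p.1 p.2.1 : ℂ) * gA D Ψ i m p ∂(μ n) =
        ∫ t : ℝ, ∫ z : P n, (D.f t z.1 : ℂ) * (D.co i m t : ℂ) * (D.k z : ℂ) ^ m *
          (D.der^[i] Ψ) z := by
    intro i hi m
    have := sf n
    rw [integral_prod _ (hAi i hi m)]
    refine integral_congr_ae (Eventually.of_forall fun t => ?_)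
    refine integral_congr_ae (Eventually.of_forall fun z => ?_)
    simp only [gA]
    ring
  set c : ℕ → ℕ → ℂ := fun i m => ∫ p, (D.f p.1 p.2.1 : ℂ) * gA D Ψ i m p ∂(μ n) with hc
  -- the polynomial
  set Q : Polynomial ℂ := ∑ i ∈ Finset.range (j + 1), ∑ m ∈ Finset.range (j + 1),
    Polynomial.monomial (i + 2 * m) (((-1 : ℂ) ^ i / (i.factorial : ℂ)) * c i m) with hQ
  set ε₁ : ℝ := min ε₀ (min 1 (D.a / 2)) with hε₁
  have ha := D.a0
  have hε₁0 : 0 < ε₁ := lt_min hε₀ (lt_min one_pos (by linarith))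
  set E0 : ℝ := D.B * (|C2| * (C1 * D.R) ^ (j + 1) * C1 +
    ∑ i ∈ Finset.range (j + 1), |C4 i| * |C3 i|) with hE0
  have hE00 : 0 ≤ E0 := by positivity
  have key : ∀ ε : ℝ, 0 < ε → ε < ε₁ →
      ‖Q.eval (ε : ℂ)‖ ≤ (E0 * (μ n).real (box n D.R r)) * ε ^ (j + 1) := by
    intro ε he he1
    have he0 : ε < ε₀ := he1.trans_le (min_le_left _ _)
    have he2 : ε ≤ 1 := (he1.trans_le ((min_le_right _ _).trans (min_le_left _ _))).le
    have he3 : ε ≤ D.a / 2 := (he1.trans_le ((min_le_right _ _).trans (min_le_right _ _))).le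
    have he4 : ε ^ 2 ≤ D.a / 2 := by nlinarith
    have he5 : ε ^ 2 ≤ ε := by nlinarith
    -- facts on the time
    have hmin : ∀ z : P n, 0 ≤ min (ε ^ 2 * D.k z) (D.a / 2) :=
      fun z => le_min (mul_nonneg (sq_nonneg _) (k_nonneg D z)) (by linarith)
    have hs : ∀ (t : ℝ) (z : P n), |t| ≤ D.R →
        |-(ε * D.sg (min (ε ^ 2 * D.k z) (D.a / 2)) t)| ≤ ε * (C1 * D.R) := by
      intro t z ht
      rw [abs_neg, abs_mul, abs_of_pos he]
      refine mul_le_mul_of_nonneg_left ?_ he.le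
      exact (hS1.sgb _ t (hmin z) (min_le_right _ _)).trans
        (mul_le_mul_of_nonneg_left ht hC1.le)
    have hg0 : ∀ p : ℝ × P n, |p.1| ≤ D.R → p.2 ∉ Metric.closedBall (0 : P n) r →
        gE D φ Ψ ε p = 0 := by
      intro p hp1 hp2
      unfold gE
      rw [Metric.mem_closedBall, dist_zero_right, not_le] at hp2
      set s := -(ε * D.sg (min (ε ^ 2 * D.k p.2) (D.a / 2)) p.1) with hsdef
      have h1 : ‖φ s p.2 - p.2‖ ≤ |C5| * (C1 * D.R) := by
        refine (h5 s p.2).trans ?_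
        refine (mul_le_mul_of_nonneg_right (le_abs_self C5) (abs_nonneg s)).trans ?_
        refine mul_le_mul_of_nonneg_left ?_ (abs_nonneg _)
        refine (hs p.1 p.2 hp1).trans ?_
        have : 0 ≤ C1 * D.R := by positivity
        nlinarith
      have h2 : ‖p.2‖ ≤ ‖φ s p.2‖ + ‖φ s p.2 - p.2‖ := by
        have := norm_sub_le (φ s p.2) (φ s p.2 - p.2)
        rwa [sub_sub_cancel] at this
      have h3 := hr4 0 (Finset.mem_range.2 (by omega))
      have h6 : Ψ (φ s p.2) = 0 := h4' 0 _ (by linarith)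
      rw [h6, zero_mul]
    have hgi : Integrable (fun p : ℝ × P n => (D.f p.1 p.2.1 : ℂ) * gE D φ Ψ ε p) (μ n) :=
      integrable_fg D (gE_cont D hφ hΨ hS1 ε) (r := r) hg0
    have hgz : ∫ p, (D.f p.1 p.2.1 : ℂ) * gE D φ Ψ ε p ∂(μ n) = 0 := by
      have := sf n
      rw [integral_prod _ hgi, ← hC n D φ hφ ε he he4 (hZ ε he he0) Ψ hΨ]
      refine integral_congr_ae (Eventually.of_forall fun t => ?_)
      refine integral_congr_ae (Eventually.of_forall fun z => ?_)
      simp only [gE_eq D hφ hΨ he4]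
      ring
    -- the difference
    have hint : ∫ p, ((D.f p.1 p.2.1 : ℂ) * gE D φ Ψ ε p - ∑ i ∈ Finset.range (j + 1),
        ∑ m ∈ Finset.range (j + 1), ((-1 : ℂ) ^ i / (i.factorial : ℂ)) * (ε : ℂ) ^ (i + 2 * m) *
          ((D.f p.1 p.2.1 : ℂ) * gA D Ψ i m p)) ∂(μ n) = - Q.eval (ε : ℂ) := by
      rw [integral_sub hgi, hgz, zero_sub, integral_finsetSum]
      · rw [hQ, Polynomial.eval_finsetSum]
        congr 1
        refine Finset.sum_congr rfl fun i hi => ?_
        rw [integral_finsetSum]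
        · rw [Polynomial.eval_finsetSum]
          refine Finset.sum_congr rfl fun m _ => ?_
          rw [integral_const_mul, Polynomial.eval_monomial]
          ring
        · intro m _
          exact (hAi i hi m).const_mul _
      · intro i hi
        exact integrable_finsetSum _ fun m _ => (hAi i hi m).const_mul _
      · exact integrable_finsetSum _ fun i hi =>
          integrable_finsetSum _ fun m _ => (hAi i hi m).const_mul _
    rw [← norm_neg, ← hint]
    have hbd := norm_integral_box (n := n) (R := D.R) (r := r) (E := E0 * ε ^ (j + 1))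
      (h := fun p => (D.f p.1 p.2.1 : ℂ) * gE D φ Ψ ε p - ∑ i ∈ Finset.range (j + 1),
        ∑ m ∈ Finset.range (j + 1), ((-1 : ℂ) ^ i / (i.factorial : ℂ)) * (ε : ℂ) ^ (i + 2 * m) *
          ((D.f p.1 p.2.1 : ℂ) * gA D Ψ i m p)) ?_ ?_
    · refine hbd.trans (le_of_eq ?_)
      ring
    · intro p hp
      rw [mem_box] at hp
      rcases lt_or_ge (D.k p.2) 1 with hk | hk
      · have hk0 := k_nonneg D p.2
        set κ := ε ^ 2 * D.k p.2 with hκ
        have hκ0 : 0 ≤ κ := by positivity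
        have hκε : κ ≤ ε := by nlinarith
        have hκa : κ ≤ D.a / 2 := hκε.trans he3
        have hmn : min κ (D.a / 2) = κ := min_eq_left hκa
        have hsp := hs p.1 p.2 hp.1
        rw [← hκ, hmn] at hsp
        have hfac : (D.f p.1 p.2.1 : ℂ) * gE D φ Ψ ε p - ∑ i ∈ Finset.range (j + 1),
            ∑ m ∈ Finset.range (j + 1), ((-1 : ℂ) ^ i / (i.factorial : ℂ)) *
              (ε : ℂ) ^ (i + 2 * m) * ((D.f p.1 p.2.1 : ℂ) * gA D Ψ i m p) =
            (D.f p.1 p.2.1 : ℂ) * (Ψ (φ (-(ε * D.sg κ p.1)) p.2) * (D.w κ p.1 : ℂ) -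
              ∑ i ∈ Finset.range (j + 1), ∑ m ∈ Finset.range (j + 1),
              ((-1 : ℂ) ^ i / (i.factorial : ℂ)) * (ε : ℂ) ^ (i + 2 * m) *
              ((D.co i m p.1 : ℂ) * (D.k p.2 : ℂ) ^ m * (D.der^[i] Ψ) p.2)) := by
          rw [mul_sub, Finset.mul_sum]
          congr 1
          · unfold gE
            rw [← hκ, hmn]
          · refine Finset.sum_congr rfl fun i _ => ?_
            rw [Finset.mul_sum]
            refine Finset.sum_congr rfl fun m _ => ?_
            unfold gA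
            ring
        rw [hfac, algebra j ε (D.sg κ p.1) (D.w κ p.1) κ (D.k p.2) hκ
          (Ψ (φ (-(ε * D.sg κ p.1)) p.2)) (fun i => (D.der^[i] Ψ) p.2)
          (fun i m => D.co i m p.1), norm_mul]
        have hw0 : 0 ≤ D.w κ p.1 := (inv_pos.2 hC1).le.trans (hS1.wl κ p.1 hκ0 hκa)
        have b1 : ‖(Ψ (φ (-(ε * D.sg κ p.1)) p.2) - ∑ i ∈ Finset.range (j + 1),
            (((-(ε * D.sg κ p.1) : ℝ) : ℂ) ^ i / (i.factorial : ℂ)) * (D.der^[i] Ψ) p.2) *
            (D.w κ p.1 : ℂ)‖ ≤ |C2| * (C1 * D.R) ^ (j + 1) * C1 * ε ^ (j + 1) := by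
          rw [norm_mul, Complex.norm_real, Real.norm_eq_abs, abs_of_nonneg hw0]
          have b2 := hT1 (-(ε * D.sg κ p.1)) p.2
          have b3 : C2 * |-(ε * D.sg κ p.1)| ^ (j + 1) ≤
              |C2| * (ε * (C1 * D.R)) ^ (j + 1) :=
            mul_le_mul (le_abs_self _) (pow_le_pow_left₀ (abs_nonneg _) hsp _)
              (pow_nonneg (abs_nonneg _) _) (abs_nonneg _)
          calc _ ≤ |C2| * (ε * (C1 * D.R)) ^ (j + 1) * C1 :=
                mul_le_mul (b2.trans b3) (hS1.wu κ p.1 hκ0 hκa) hw0 (by positivity)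
            _ = _ := by rw [mul_pow]; ring
        have b4 : ‖∑ i ∈ Finset.range (j + 1), ((-1 : ℂ) ^ i / (i.factorial : ℂ)) *
            (ε : ℂ) ^ i * (D.der^[i] Ψ) p.2 * ((D.sg κ p.1 ^ i * D.w κ p.1 -
              ∑ m ∈ Finset.range (j + 1), D.co i m p.1 * κ ^ m : ℝ) : ℂ)‖ ≤
            (∑ i ∈ Finset.range (j + 1), |C4 i| * |C3 i|) * ε ^ (j + 1) := by
          rw [Finset.sum_mul]
          refine (norm_sum_le _ _).trans (Finset.sum_le_sum fun i _ => ?_)
          rw [norm_mul, norm_mul, norm_mul, Complex.norm_real, Real.norm_eq_abs, norm_div,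
            norm_pow, norm_neg, norm_one, one_pow, norm_pow, Complex.norm_real,
            Real.norm_eq_abs, abs_of_pos he, Complex.norm_natCast]
          have b5 := hE1 i p.1 hp.1 κ hκ0 hκa
          have b6 : C3 i * κ ^ (j + 1) ≤ |C3 i| * ε ^ (j + 1) :=
            mul_le_mul (le_abs_self _) (pow_le_pow_left₀ hκ0 hκε _) (by positivity)
              (abs_nonneg _)
          have b7 : 1 / (i.factorial : ℝ) ≤ 1 := by
            rw [div_le_one (by exact_mod_cast i.factorial_pos)]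
            exact_mod_cast i.factorial_pos
          have b8 : ε ^ i ≤ 1 := pow_le_one₀ he.le he2
          have b9 : 1 / (i.factorial : ℝ) * ε ^ i ≤ 1 :=
            mul_le_one₀ b7 (by positivity) b8
          have b10 : ‖(D.der^[i] Ψ) p.2‖ ≤ |C4 i| := (h4 i p.2).trans (le_abs_self _)
          have b11 : 1 / (i.factorial : ℝ) * ε ^ i * ‖(D.der^[i] Ψ) p.2‖ ≤ |C4 i| := by
            have := mul_le_mul b9 b10 (norm_nonneg _) zero_le_one
            rwa [one_mul] at this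
          have b12 := mul_le_mul b11 (b5.trans b6) (abs_nonneg _) (abs_nonneg _)
          rw [← mul_assoc] at b12
          exact b12
        calc _ ≤ D.B * (|C2| * (C1 * D.R) ^ (j + 1) * C1 * ε ^ (j + 1) +
              (∑ i ∈ Finset.range (j + 1), |C4 i| * |C3 i|) * ε ^ (j + 1)) :=
              mul_le_mul (f_le D _ _) ((norm_add_le _ _).trans (add_le_add b1 b4))
                (norm_nonneg _) hB0
          _ = _ := by rw [hE0]; ring
      · have h1 : (D.f p.1 p.2.1 : ℂ) * gE D φ Ψ ε p - ∑ i ∈ Finset.range (j + 1),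
            ∑ m ∈ Finset.range (j + 1), ((-1 : ℂ) ^ i / (i.factorial : ℂ)) *
              (ε : ℂ) ^ (i + 2 * m) * ((D.f p.1 p.2.1 : ℂ) * gA D Ψ i m p) = 0 := by
          rw [gE_low D hφ hΨ ε hk, mul_zero, zero_sub, neg_eq_zero]
          refine Finset.sum_eq_zero fun i _ => Finset.sum_eq_zero fun m _ => ?_
          unfold gA
          rw [(hTF i).low p.2 hk, mul_zero, mul_zero, mul_zero]
        rw [h1, norm_zero]
        positivity
    · intro p hp
      rw [mem_box, not_and_or] at hp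
      by_cases hp1 : |p.1| ≤ D.R
      · have hp2 : p.2 ∉ Metric.closedBall (0 : P n) r := by
          rcases hp with hp | hp
          · exact absurd hp1 hp
          · exact hp
        rw [hg0 p hp1 hp2, mul_zero, zero_sub, neg_eq_zero]
        refine Finset.sum_eq_zero fun i hi => Finset.sum_eq_zero fun m _ => ?_
        unfold gA
        rw [hA0 i hi p.2 hp2, mul_zero, mul_zero, mul_zero]
      · rw [D.f0 p.1 p.2.1 (Or.inl (not_le.1 hp1).le), Complex.ofReal_zero, zero_mul, zero_sub,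
          neg_eq_zero]
        refine Finset.sum_eq_zero fun i _ => Finset.sum_eq_zero fun m _ => ?_
        rw [zero_mul, mul_zero]
  have h6 := poly_coeff _ _ hε₁0 (j + 1) Q key j (by omega)
  have h7 : Q.coeff j = ∑ m ∈ Finset.range (j / 2 + 1),
      (((-1 : ℂ) ^ (j - 2 * m) / ((j - 2 * m).factorial : ℂ)) * c (j - 2 * m) m) := by
    rw [← sum_diag j (fun i m => ((-1 : ℂ) ^ i / (i.factorial : ℂ)) * c i m), hQ,
      Polynomial.finsetSum_coeff]
    refine Finset.sum_congr rfl fun i _ => ?_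
    rw [Polynomial.finsetSum_coeff]
    refine Finset.sum_congr rfl fun m _ => ?_
    rw [Polynomial.coeff_monomial]
  rw [h6] at h7
  rw [h7]
  refine Finset.sum_congr rfl fun m hm => ?_
  rw [hc]
  simp only
  rw [hAval _ (Finset.mem_range.2 (by omega)) m]

end Pool.Agent.WPD
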