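import Pool.Agent.WPD.Stmts
import Pool.Agent.Lib_helper92.XRay.Comp

/-!
# Warped products: the integrals along the curves vanish (module SEG)
-/

set_option autoImplicit false

namespace Pool.Agent.WPD

open MeasureTheory Set Filter Topology Pool.Agent.XRay

namespace SEGAux

theorem grow_right {g g' : ℝ → ℝ} (hg : ∀ t, HasDerivAt g (g' t) t) {κ : ℝ}
    (hκ : ∀ t, κ ≤ g' t) {s t : ℝ} (hst : s ≤ t) : g s + κ * (t - s) ≤ g t := by
  have h1 : MonotoneOn (fun t => g t - κ * t) univ := by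
    apply monotoneOn_of_deriv_nonneg convex_univ
    · apply Continuous.continuousOn
      have : Continuous g := continuous_iff_continuousAt.2 fun t => (hg t).continuousAt
      fun_prop
    · intro x _
      exact ((hg x).sub ((hasDerivAt_id x).const_mul κ)).differentiableAt.differentiableWithinAt
    · intro x _
      have h2 : HasDerivAt (fun t => g t - κ * t) (g' x - κ * 1) x :=
        (hg x).sub ((hasDerivAt_id x).const_mul κ)
      rw [h2.deriv]
      linarith [hκ x]
  have h3 := h1 (mem_univ s) (mem_univ t) hst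
  simp only at h3
  linarith

theorem exists_inv {g g' : ℝ → ℝ} (hg : ∀ t, HasDerivAt g (g' t) t) {κ : ℝ} (hκ0 : 0 < κ)
    (hκ : ∀ t, κ ≤ g' t) : StrictMono g ∧ ∃ S : ℝ → ℝ, (∀ t, S (g t) = t) ∧ ∀ t, g (S t) = t := by
  have hmono : StrictMono g := by
    intro s t hst
    have h1 := grow_right hg hκ hst.le
    nlinarith [mul_pos hκ0 (sub_pos.2 hst)]
  refine ⟨hmono, ?_⟩
  have hc : Continuous g := continuous_iff_continuousAt.2 fun t => (hg t).continuousAt
  have hsurj : Function.Surjective g := by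
    intro u
    set L := |u - g 0| / κ with hL
    have hL0 : 0 ≤ L := by positivity
    have hκL : κ * L = |u - g 0| := by rw [hL]; field_simp
    have h1 := grow_right hg hκ hL0
    have h2 := grow_right hg hκ (neg_nonpos.2 hL0)
    have h3 : u ∈ Icc (g (-L)) (g L) := by
      constructor
      · have := neg_abs_le (u - g 0)
        nlinarith
      · have := le_abs_self (u - g 0)
        nlinarith
    obtain ⟨x, _, hx⟩ := intermediate_value_Icc (neg_le_self hL0) hc.continuousOn h3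
    exact ⟨x, hx⟩
  choose S hS using hsurj
  exact ⟨S, fun t => hmono.injective (hS (g t)), hS⟩

theorem k_nonneg {n : ℕ} (D : WD n) (z : P n) : 0 ≤ D.k z := by
  unfold WD.k
  have := D.ρa z.1
  have := D.a0
  exact div_nonneg (sq_nonneg _) (by linarith)

end SEGAux

open SEGAux in
theorem seg (hG : Stmt_GEO) (hS : Stmt_SG) : Stmt_SEG := by
  intro n m G α β ρ hMet M f δ hM hf hZ D φ hφ ε hε hεa hεδ z w₀ hz hloc hfr
  obtain ⟨C, hC⟩ := hS n D
  have ha0 := D.a0
  have hk0 := k_nonneg D z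
  set κ : ℝ := ε ^ 2 * D.k z with hκdef
  have hκ0 : 0 ≤ κ := by positivity
  have hε2 : 0 < ε ^ 2 := by positivity
  have hκε : κ < ε ^ 2 := by rw [hκdef]; nlinarith
  have hκa : κ ≤ D.a / 2 := by linarith
  have hw : Continuous (D.w κ) := by
    have h := hC.wc.comp (Continuous.prodMk continuous_const continuous_id :
      Continuous (fun t : ℝ => (κ, t)))
    simpa [Function.comp_def, min_eq_left hκa] using h
  have hw0 : ∀ t, C⁻¹ ≤ D.w κ t := fun t => hC.wl κ t hκ0 hκa
  have hCi : 0 < C⁻¹ := inv_pos.2 hC.C0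
  have hsg : Continuous (D.sg κ) := continuous_iff_continuousAt.2 fun t => (hC.sgd κ t hκa).continuousAt
  have hcv : Continuous (cv D φ ε z m w₀) := by
    unfold cv
    have h1 : Continuous (fun t : ℝ => φ (ε * D.sg κ t) z) :=
      hφ.cont.comp (Continuous.prodMk (continuous_const.mul hsg) continuous_const)
    exact continuous_id.prodMk (h1.fst.prodMk continuous_const)
  set T' : ℝ → ℝ := fun t => ∫ s in (0 : ℝ)..t, D.w κ s with hTdef
  have hTd : ∀ t, HasDerivAt T' (D.w κ t) t := fun t =>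
    intervalIntegral.integral_hasDerivAt_right (hw.intervalIntegrable _ _)
      (hw.stronglyMeasurableAtFilter _ _) hw.continuousAt
  obtain ⟨hT, S, hST, hTS⟩ := exists_inv hTd hCi hw0
  have hTc : Continuous T' := continuous_iff_continuousAt.2 fun t => (hTd t).continuousAt
  -- the curve leaves `M`
  obtain ⟨Cf, hCf⟩ := hM.exists_bound_of_continuousOn hf
  obtain ⟨L₀, hL₀⟩ := hM.exists_bound_of_continuousOn (continuous_fst (X := ℝ)
    (Y := F n × EuclideanSpace ℝ (Fin m))).continuousOn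
  set L := |L₀| + 1 with hLdef
  have hL0 : 0 ≤ L := by positivity
  have hout : ∀ t, L ≤ |t| → cv D φ ε z m w₀ t ∉ M := by
    intro t ht hmem
    have h1 := hL₀ _ hmem
    have h2 : ‖(cv D φ ε z m w₀ t).1‖ = |t| := rfl
    rw [h2] at h1
    have h4 := le_abs_self L₀
    linarith
  have hsupp : Function.support (fun t => M.indicator f (cv D φ ε z m w₀ t) * D.w κ t) ⊆
      Ioc (-L) L := by
    intro t ht
    have h1 : cv D φ ε z m w₀ t ∈ M := by
      by_contra hcon
      apply ht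
      simp only [indicator_of_notMem hcon, zero_mul]
    have h2 : ¬ L ≤ |t| := fun h2 => hout t h2 h1
    have h3 := abs_lt.1 (not_le.1 h2)
    exact ⟨h3.1, h3.2.le⟩
  rw [← intervalIntegral.integral_eq_integral_of_support_subset hsupp]
  have hLL : -L ≤ L := neg_le_self hL0
  refine integral_eq_zero_of_segments hM.isClosed hf (Cf := Cf) hCf hLL hcv
    (hout _ (by rw [abs_neg]; exact le_abs_self L)) (hout _ (le_abs_self L)) hw
    (ae_restrict_of_ae hfr) ?_
  intro y₁ y₂ _ h12 _ hmem hl hr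
  -- the open set where the hypotheses of `GEO` hold
  set O : Set ℝ := {t | (∀ᶠ s in 𝓝 t, D.α s = α s ∧ D.β s = β s) ∧
    ∀ᶠ x in 𝓝 (cv D φ ε z m w₀ t).2.1, D.ρ x = ρ x} with hOdef
  have hOo : IsOpen O := by
    have h1 : IsOpen {t : ℝ | ∀ᶠ s in 𝓝 t, D.α s = α s ∧ D.β s = β s} :=
      isOpen_setOfPred_eventually_nhds
    have h2 : IsOpen {x : F n | ∀ᶠ x' in 𝓝 x, D.ρ x' = ρ x'} := isOpen_setOfPred_eventually_nhds
    have h3 : Continuous (fun t => (cv D φ ε z m w₀ t).2.1) := hcv.snd.fst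
    exact h1.inter (h2.preimage h3)
  have hIO : ∀ y ∈ Icc y₁ y₂, y ∈ O := fun y hy => hloc _ (hmem y hy)
  obtain ⟨η₁, hη₁, hb1⟩ := Metric.isOpen_iff.1 hOo y₁ (hIO _ (left_mem_Icc.2 h12.le))
  obtain ⟨η₂, hη₂, hb2⟩ := Metric.isOpen_iff.1 hOo y₂ (hIO _ (right_mem_Icc.2 h12.le))
  set a := y₁ - η₁ with hadef
  set b := y₂ + η₂ with hbdef
  have ha1 : a < y₁ := by linarith
  have hb1' : y₂ < b := by linarith
  have hOab : ∀ t ∈ Ioo a b, t ∈ O := by
    intro t ht
    rcases lt_or_ge t y₁ with h1 | h1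
    · apply hb1
      rw [Metric.mem_ball, Real.dist_eq, abs_sub_lt_iff]
      constructor <;> linarith [ht.1]
    · rcases le_or_gt t y₂ with h2 | h2
      · exact hIO t ⟨h1, h2⟩
      · apply hb2
        rw [Metric.mem_ball, Real.dist_eq, abs_sub_lt_iff]
        constructor <;> linarith [ht.2]
  obtain ⟨hgeo, hder⟩ := hG n m G α β ρ hMet D φ hφ ε hε hεa z w₀ T' S hz hTd hST hTS
    a b (by linarith) hOab
  set γ : ℝ → T n m := fun t => cv D φ ε z m w₀ (S t) with hγdef
  have hγT : ∀ y, γ (T' y) = cv D φ ε z m w₀ y := by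
    intro y; simp only [hγdef, hST]
  have hmax : MaximalSegment M γ (T' y₁) (T' y₂) := by
    refine ⟨?_, ?_, ?_⟩
    · intro τ hτ
      rw [← hTS τ] at hτ ⊢
      rw [hγT]
      exact hmem _ ⟨hT.le_iff_le.1 hτ.1, hT.le_iff_le.1 hτ.2⟩
    · intro ε₁ hε₁
      obtain ⟨ε', hε', hc⟩ := Metric.continuous_iff.1 hTc y₁ ε₁ hε₁
      obtain ⟨y, hy, hyM⟩ := hl ε' hε'
      refine ⟨T' y, ⟨?_, hT hy.2⟩, by rw [hγT]; exact hyM⟩
      have h3 := hc y (by rw [Real.dist_eq, abs_sub_lt_iff]; constructor <;> linarith [hy.1, hy.2])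
      rw [Real.dist_eq, abs_sub_lt_iff] at h3
      linarith [h3.2]
    · intro ε₁ hε₁
      obtain ⟨ε', hε', hc⟩ := Metric.continuous_iff.1 hTc y₂ ε₁ hε₁
      obtain ⟨y, hy, hyM⟩ := hr ε' hε'
      refine ⟨T' y, ⟨hT hy.1, ?_⟩, by rw [hγT]; exact hyM⟩
      have h3 := hc y (by rw [Real.dist_eq, abs_sub_lt_iff]; constructor <;> linarith [hy.1, hy.2])
      rw [Real.dist_eq, abs_sub_lt_iff] at h3
      linarith [h3.1]
  have hz0 := hZ γ (T' a) (T' b) (T' y₁) (T' y₂) (hT ha1) (hT h12) (hT hb1') hgeo (by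
    intro t ht
    have hd := (hder t ht).deriv
    have hSt : S t ∈ Ioo a b := by
      rw [← hTS t] at ht
      exact ⟨hT.lt_iff_lt.1 ht.1, hT.lt_iff_lt.1 ht.2⟩
    have hOt := hOab _ hSt
    rw [hd]
    refine ⟨rfl, ?_⟩
    have e1 : D.β (S t) = β (S t) := hOt.1.self_of_nhds.2
    have e2 : D.ρ (φ (ε * D.sg κ (S t)) z).1 = ρ (φ (ε * D.sg κ (S t)) z).1 :=
      hOt.2.self_of_nhds
    show β (S t) ^ 2 * ρ (φ (ε * D.sg κ (S t)) z).1 *
      ‖(ε / (D.β (S t) * D.ρ (φ (ε * D.sg κ (S t)) z).1)) • (φ (ε * D.sg κ (S t)) z).2‖ ^ 2 < δ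
    have hen := hφ.energy (ε * D.sg κ (S t)) z
    have hβ := D.βa (S t)
    have hρ := D.ρa (φ (ε * D.sg κ (S t)) z).1
    unfold WD.k at hen
    rw [← e1, ← e2, norm_smul, mul_pow, Real.norm_eq_abs, sq_abs]
    set q := (φ (ε * D.sg κ (S t)) z).2 with hq
    set r := D.ρ (φ (ε * D.sg κ (S t)) z).1 with hr'
    set b' := D.β (S t) with hb'
    have hb0 : b' ≠ 0 := by linarith
    have hr0 : r ≠ 0 := by linarith
    have key : b' ^ 2 * r * ((ε / (b' * r)) ^ 2 * ‖q‖ ^ 2) = ε ^ 2 * (‖q‖ ^ 2 / r) := by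
      field_simp
    rw [key, hen]
    have : ε ^ 2 * (‖z.2‖ ^ 2 / D.ρ z.1) = κ := rfl
    rw [this]
    linarith) hmax
  rw [← hz0]
  have hScont : Continuous S := by
    have hiso : StrictMono S := by
      intro s t hst
      rw [← hT.lt_iff_lt, hTS, hTS]
      exact hst
    have hsur : Function.Surjective S := fun y => ⟨T' y, hST y⟩
    exact hiso.monotone.continuous_of_surjective hsur
  have hcvar := intervalIntegral.integral_comp_mul_deriv'' (a := y₁) (b := y₂) (f := T')
    (f' := D.w κ) (g := fun τ => f (γ τ)) hTc.continuousOn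
    (fun y _ => (hTd y).hasDerivWithinAt)
    hw.continuousOn (by
      apply hf.comp
      · exact (hcv.comp hScont).continuousOn
      · rintro _ ⟨y, hy, rfl⟩
        rw [uIcc_of_le h12.le] at hy
        rw [hγT]
        exact hmem y hy)
  rw [← hcvar]
  apply intervalIntegral.integral_congr
  intro y _
  simp only [Function.comp]
  rw [hγT]

end Pool.Agent.WPD
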