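import Pool.Agent.WPD.Stmts

/-!
# Warped products: module SG
-/

set_option autoImplicit false

namespace Pool.Agent.WPD

open MeasureTheory Set Filter Topology

namespace SGAux

variable {n : ℕ} (D : WD n)

theorem B0 : 0 < D.B := lt_of_lt_of_le D.a0 ((D.αa 0).trans (D.αB 0))

/-- the integrand -/
noncomputable def g (κ t : ℝ) : ℝ := √(D.α t) / (√(D.β t) * √(D.β t - κ))

theorem pos1 (κ t : ℝ) (h : κ ≤ D.a / 2) : D.a / 2 ≤ D.β t - κ := by
  have h1 := D.βa t
  linarith

theorem contg : Continuous (fun p : ℝ × ℝ => g D (min p.1 (D.a / 2)) p.2) := by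
  have hα := D.αc
  have hβ := D.βc
  have ha := D.a0
  unfold g
  apply Continuous.div
  · exact (hα.comp continuous_snd).sqrt
  · exact (hβ.comp continuous_snd).sqrt.mul
      (((hβ.comp continuous_snd).sub (continuous_fst.min continuous_const)).sqrt)
  · intro p
    have h1 := pos1 D (min p.1 (D.a / 2)) p.2 (min_le_right _ _)
    have h2 := D.βa p.2
    have h3 : 0 < √(D.β p.2) := Real.sqrt_pos.2 (by linarith)
    have h4 : 0 < √(D.β p.2 - min p.1 (D.a / 2)) := Real.sqrt_pos.2 (by linarith)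
    exact (mul_pos h3 h4).ne'

theorem contg1 (κ : ℝ) (h : κ ≤ D.a / 2) : Continuous (g D κ) := by
  have h1 := (contg D).comp (Continuous.prodMk (continuous_const (y := κ)) continuous_id)
  have h2 : ((fun p : ℝ × ℝ => g D (min p.1 (D.a / 2)) p.2) ∘ fun x => (κ, id x)) = g D κ := by
    funext x
    simp only [Function.comp, id, min_eq_left h]
  rw [h2] at h1
  exact h1

theorem g_nonneg (κ t : ℝ) : 0 ≤ g D κ t := by
  unfold g
  positivity

theorem g_le (κ t : ℝ) (h : κ ≤ D.a / 2) : g D κ t ≤ √D.B / (√D.a * √(D.a / 2)) := by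
  have ha := D.a0
  have h1 := pos1 D κ t h
  unfold g
  apply div_le_div₀ (Real.sqrt_nonneg _) (Real.sqrt_le_sqrt (D.αB t))
  · exact mul_pos (Real.sqrt_pos.2 ha) (Real.sqrt_pos.2 (by linarith))
  · exact mul_le_mul (Real.sqrt_le_sqrt (D.βa t)) (Real.sqrt_le_sqrt h1) (Real.sqrt_nonneg _)
      (Real.sqrt_nonneg _)

end SGAux

open SGAux in
theorem sg_ : Stmt_SG := by
  intro n D
  have ha := D.a0
  have hB := B0 D
  have hsa : 0 < √D.a := Real.sqrt_pos.2 ha
  have hsa2 : 0 < √(D.a / 2) := Real.sqrt_pos.2 (by linarith)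
  have hsB : 0 < √D.B := Real.sqrt_pos.2 hB
  set c1 : ℝ := √D.B / (√D.a * √(D.a / 2)) with hc1
  set c2 : ℝ := √D.B / D.a with hc2
  set c3 : ℝ := D.B / √(D.a / 2) with hc3
  have p1 : 0 < c1 := div_pos hsB (mul_pos hsa hsa2)
  have p2 : 0 < c2 := div_pos hsB ha
  have p3 : 0 < c3 := div_pos hB hsa2
  refine ⟨c1 + c2 + c3, by linarith, ?_, ?_, ?_, ?_, ?_, ?_⟩
  · have h1 := intervalIntegral.continuous_parametric_intervalIntegral_of_continuous
      (μ := volume) (a₀ := (0 : ℝ)) (f := fun (p : ℝ × ℝ) t => g D (min p.1 (D.a / 2)) t)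
      (s := fun p : ℝ × ℝ => p.2) (by
        have h2 := (contg D).comp (Continuous.prodMk
          ((continuous_fst (X := ℝ) (Y := ℝ)).comp (continuous_fst (X := ℝ × ℝ) (Y := ℝ)))
          (continuous_snd (X := ℝ × ℝ) (Y := ℝ)))
        exact h2) continuous_snd
    exact h1
  · have hα := D.αc
    have hβ := D.βc
    unfold WD.w
    apply Continuous.div
    · exact (hα.comp continuous_snd).sqrt.mul (hβ.comp continuous_snd).sqrt
    · exact ((hβ.comp continuous_snd).sub (continuous_fst.min continuous_const)).sqrt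
    · intro p
      have h1 := pos1 D (min p.1 (D.a / 2)) p.2 (min_le_right _ _)
      exact (Real.sqrt_pos.2 (by linarith)).ne'
  · intro κ t _ h
    have h1 : ‖∫ s in (0 : ℝ)..t, g D κ s‖ ≤ c1 * |t - 0| := by
      apply intervalIntegral.norm_integral_le_of_norm_le_const
      intro s _
      rw [Real.norm_eq_abs, abs_of_nonneg (g_nonneg D κ s)]
      exact g_le D κ s h
    rw [sub_zero, Real.norm_eq_abs] at h1
    have h2 : |D.sg κ t| ≤ c1 * |t| := h1
    refine h2.trans (mul_le_mul_of_nonneg_right (by linarith) (abs_nonneg t))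
  · intro κ t h0 h
    have h1 := pos1 D κ t h
    have h2 : c2⁻¹ ≤ D.w κ t := by
      rw [hc2, inv_div]
      unfold WD.w
      apply div_le_div₀
      · positivity
      · have h3 : √D.a * √D.a = D.a := Real.mul_self_sqrt ha.le
        rw [← h3]
        exact mul_le_mul (Real.sqrt_le_sqrt (D.αa t)) (Real.sqrt_le_sqrt (D.βa t))
          (Real.sqrt_nonneg _) (Real.sqrt_nonneg _)
      · exact Real.sqrt_pos.2 (by linarith)
      · exact Real.sqrt_le_sqrt (by linarith [D.βB t])
    refine le_trans ?_ h2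
    exact inv_anti₀ p2 (by linarith)
  · intro κ t _ h
    have h1 := pos1 D κ t h
    have h2 : D.w κ t ≤ c3 := by
      rw [hc3]
      unfold WD.w
      apply div_le_div₀ hB.le
      · have h3 : √D.B * √D.B = D.B := Real.mul_self_sqrt hB.le
        rw [← h3]
        exact mul_le_mul (Real.sqrt_le_sqrt (D.αB t))
          (Real.sqrt_le_sqrt (D.βB t)) (Real.sqrt_nonneg _) (Real.sqrt_nonneg _)
      · exact hsa2
      · exact Real.sqrt_le_sqrt h1
    linarith
  · intro κ t h
    have hc := contg1 D κ h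
    have h1 : HasDerivAt (fun u => ∫ s in (0 : ℝ)..u, g D κ s) (g D κ t) t :=
      intervalIntegral.integral_hasDerivAt_right (hc.intervalIntegrable _ _)
        hc.aestronglyMeasurable.stronglyMeasurableAtFilter hc.continuousAt
    exact h1

end Pool.Agent.WPD
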