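import Pool.Agent.WPD.Stmts

/-!
# Warped products: SOL

Local solution of `Lo^j g = χ`.
-/

set_option autoImplicit false

namespace Pool.Agent.WPD

open MeasureTheory Set Filter Topology

namespace SOLAux

variable {n : ℕ}

/-- `Lo` is local. -/
lemma lo_congr (D : WD n) {g₁ g₂ : F n → ℂ} {x : F n} (h : g₁ =ᶠ[𝓝 x] g₂) :
    D.Lo g₁ x = D.Lo g₂ x := by
  have h1 : (fun y => g₁ y / (D.ρ y : ℂ)) =ᶠ[𝓝 x] fun y => g₂ y / (D.ρ y : ℂ) := by
    filter_upwards [h] with y hy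
    rw [hy]
  unfold WD.Lo
  rw [h1.fderiv_eq]

/-- One step. -/
lemma step (hD : Stmt_DB) (D : WD n) (χ : F n → ℂ) (R : ℝ) (hχ : Cc χ) :
    ∃ g : F n → ℂ, Cc g ∧ ∀ x, ‖x‖ < R → D.Lo g x = χ x := by
  obtain ⟨κ, hκ, hκx⟩ := hD n χ R hχ
  let ζ : ContDiffBump (0 : F n) := ⟨|R| + 1, |R| + 2, by positivity, by linarith⟩
  refine ⟨fun x => ((ζ x : ℝ) : ℂ) * ((D.ρ x : ℂ) * κ x), ⟨?_, ?_⟩, ?_⟩
  · have h1 : ContDiff ℝ (⊤ : ℕ∞) (fun x => ((ζ x : ℝ) : ℂ)) :=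
      Complex.ofRealCLM.contDiff.comp ζ.contDiff
    have h2 : ContDiff ℝ (⊤ : ℕ∞) (fun x => (D.ρ x : ℂ)) :=
      Complex.ofRealCLM.contDiff.comp D.ρs
    exact h1.mul (h2.mul hκ)
  · have h1 : HasCompactSupport (fun x => ((ζ x : ℝ) : ℂ)) :=
      ζ.hasCompactSupport.comp_left (g := fun r : ℝ => (r : ℂ)) Complex.ofReal_zero
    exact h1.mul_right
  · intro x hx
    have h1 : (fun y => ((ζ y : ℝ) : ℂ) * ((D.ρ y : ℂ) * κ y) / (D.ρ y : ℂ)) =ᶠ[𝓝 x] κ := by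
      have h2 : Metric.ball (0 : F n) R ∈ 𝓝 x :=
        Metric.isOpen_ball.mem_nhds (by rwa [mem_ball_zero_iff])
      filter_upwards [h2] with y hy
      rw [mem_ball_zero_iff] at hy
      have h3 : ζ y = 1 := by
        refine ζ.one_of_mem_closedBall ?_
        rw [mem_closedBall_zero_iff]
        show ‖y‖ ≤ |R| + 1
        have := le_abs_self R
        linarith
      have h4 : (D.ρ y : ℂ) ≠ 0 := by
        rw [Ne, Complex.ofReal_eq_zero]
        exact (lt_of_lt_of_le D.a0 (D.ρa y)).ne'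
      rw [h3, Complex.ofReal_one, one_mul]
      field_simp
    unfold WD.Lo
    rw [h1.fderiv_eq]
    exact hκx x hx

end SOLAux

open SOLAux in
theorem sol (hD : Stmt_DB) (hL : Stmt_LOC) : Stmt_SOL := by
  intro n D j
  induction j with
  | zero =>
    intro χ R hχ
    exact ⟨χ, hχ, fun x _ => rfl⟩
  | succ j ih =>
    intro χ R hχ
    obtain ⟨g₁, hg₁, hg₁x⟩ := step hD D χ (R + 1) hχ
    obtain ⟨g, hg, hgx⟩ := ih g₁ (R + 1) hg₁
    refine ⟨g, hg, fun x hx => ?_⟩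
    rw [Function.iterate_succ_apply', ← hg₁x x (by linarith)]
    apply lo_congr
    have h2 : Metric.ball (0 : F n) (R + 1) ∈ 𝓝 x :=
      Metric.isOpen_ball.mem_nhds (by rw [mem_ball_zero_iff]; linarith)
    filter_upwards [h2] with y hy
    rw [mem_ball_zero_iff] at hy
    exact hgx y hy.le

end Pool.Agent.WPD
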