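import Pool.Agent.WPD.Stmts

/-!
# TST: test functions with prescribed moments
-/

set_option autoImplicit false

namespace Pool.Agent.WPD

open MeasureTheory Set Filter Topology

namespace TSTAux

open MvPolynomial

variable {n : ℕ}

/-- coordinates as linear maps to `ℂ` -/
noncomputable def cor (l : Fin (n + 2)) : F n →L[ℝ] ℂ :=
  Complex.ofRealCLM.comp (EuclideanSpace.proj l : F n →L[ℝ] ℝ)

lemma cor_apply (l : Fin (n + 2)) (q : F n) : cor l q = (q l : ℂ) := rfl

lemma ev_C (c : ℂ) (q : F n) : ev (C c : MvPolynomial (Fin (n + 2)) ℂ) q = c := by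
  simp [ev]

lemma ev_add (p p' : MvPolynomial (Fin (n + 2)) ℂ) (q : F n) :
    ev (p + p') q = ev p q + ev p' q := by
  simp [ev]

lemma ev_mul (p p' : MvPolynomial (Fin (n + 2)) ℂ) (q : F n) :
    ev (p * p') q = ev p q * ev p' q := by
  simp [ev]

lemma ev_X (l : Fin (n + 2)) (q : F n) :
    ev (X l : MvPolynomial (Fin (n + 2)) ℂ) q = cor l q := by
  simp [ev, cor_apply]

lemma ev_smooth (p : MvPolynomial (Fin (n + 2)) ℂ) : ContDiff ℝ (⊤ : ℕ∞) (ev p) := by
  induction p using MvPolynomial.induction_on with
  | C c =>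
    have : ev (C c : MvPolynomial (Fin (n + 2)) ℂ) = fun _ : F n => c := by
      funext q; exact ev_C c q
    rw [this]
    exact contDiff_const
  | add p q hp hq =>
    have : ev (p + q) = fun x : F n => ev p x + ev q x := by
      funext x; exact ev_add p q x
    rw [this]
    exact hp.add hq
  | mul_X p l hp =>
    have : ev (p * X l) = fun x : F n => ev p x * cor l x := by
      funext x; rw [ev_mul, ev_X]
    rw [this]
    exact hp.mul (cor l).contDiff

lemma ev_diff (p : MvPolynomial (Fin (n + 2)) ℂ) : Differentiable ℝ (ev p) :=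
  (ev_smooth p).differentiable (by simp)

lemma fderiv_ev (i : Fin (n + 2)) (p : MvPolynomial (Fin (n + 2)) ℂ) (q : F n) :
    fderiv ℝ (ev p) q (EuclideanSpace.single i 1) = ev (pderiv i p) q := by
  induction p using MvPolynomial.induction_on with
  | C c =>
    have : ev (C c : MvPolynomial (Fin (n + 2)) ℂ) = fun _ : F n => c := by
      funext q; exact ev_C c q
    rw [this]
    simp [ev]
  | add p p' hp hq =>
    have : ev (p + p') = fun x : F n => ev p x + ev p' x := by
      funext x; exact ev_add p p' x
    rw [this, fderiv_fun_add (ev_diff p q) (ev_diff p' q), map_add, ev_add]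
    simp [hp, hq]
  | mul_X p l hp =>
    have : ev (p * X l) = fun x : F n => ev p x * cor l x := by
      funext x; rw [ev_mul, ev_X]
    rw [this, fderiv_fun_mul (ev_diff p q) (cor l).differentiableAt, ContinuousLinearMap.fderiv]
    rw [Derivation.leibniz, ev_add, smul_eq_mul, smul_eq_mul, ev_mul, ev_mul, ev_X]
    simp only [add_apply, smul_apply, smul_eq_mul, hp]
    congr 1
    rw [cor_apply, pderiv_X]
    by_cases h : l = i
    · subst h
      simp [ev]
    · simp [ev, h]

/-- the operator `∂_0 + i ∂_1` -/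
noncomputable def dd (h : F n → ℂ) : F n → ℂ := fun q =>
  fderiv ℝ h q (EuclideanSpace.single 0 1) + Complex.I * fderiv ℝ h q (EuclideanSpace.single 1 1)

/-- the same for polynomials -/
noncomputable def dp (p : MvPolynomial (Fin (n + 2)) ℂ) : MvPolynomial (Fin (n + 2)) ℂ :=
  pderiv 0 p + C Complex.I * pderiv 1 p

lemma dd_smooth {h : F n → ℂ} (hh : ContDiff ℝ (⊤ : ℕ∞) h) : ContDiff ℝ (⊤ : ℕ∞) (dd h) := by
  have h1 : ContDiff ℝ (⊤ : ℕ∞) (fderiv ℝ h) := hh.fderiv_right (by simp)
  unfold dd
  exact (h1.clm_apply contDiff_const).add (contDiff_const.mul (h1.clm_apply contDiff_const))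

lemma dd_tsupport (h : F n → ℂ) : tsupport (dd h) ⊆ tsupport h := by
  have : Function.support (dd h) ⊆ Function.support (fderiv ℝ h) := by
    intro q hq h0
    apply hq
    unfold dd
    rw [h0]
    simp
  exact (closure_mono this).trans (tsupport_fderiv_subset ℝ)

/-- integration by parts -/
lemma parts (p : MvPolynomial (Fin (n + 2)) ℂ) {h : F n → ℂ} (hh : ContDiff ℝ (⊤ : ℕ∞) h)
    (hs : HasCompactSupport h) :
    ∫ q : F n, ev p q * dd h q = -∫ q : F n, ev (dp p) q * h q := by
  have hd : Differentiable ℝ h := hh.differentiable (by simp)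
  have h1 : Continuous (fderiv ℝ h) := hh.continuous_fderiv (by simp)
  have hc : ∀ v : F n, Continuous (fun q => fderiv ℝ h q v) := fun v => h1.clm_apply continuous_const
  have hsv : ∀ v : F n, HasCompactSupport (fun q => fderiv ℝ h q v) := fun v =>
    hs.fderiv_apply ℝ v
  have key : ∀ i : Fin (n + 2), ∫ q : F n, ev p q * fderiv ℝ h q (EuclideanSpace.single i 1) =
      -∫ q : F n, ev (pderiv i p) q * h q := by
    intro i
    rw [integral_mul_fderiv_eq_neg_fderiv_mul_of_integrable]
    · simp only [fderiv_ev]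
    · simp only [fderiv_ev]
      exact (((ev_smooth _).continuous.mul hh.continuous).integrable_of_hasCompactSupport
        hs.mul_left)
    · exact (((ev_smooth _).continuous.mul (hc _)).integrable_of_hasCompactSupport
        (hsv _).mul_left)
    · exact (((ev_smooth _).continuous.mul hh.continuous).integrable_of_hasCompactSupport
        hs.mul_left)
    · exact fun x _ => ev_diff p x
    · exact fun x _ => hd x
  have i1 : ∀ i : Fin (n + 2), Integrable (fun q : F n =>
      ev p q * fderiv ℝ h q (EuclideanSpace.single i 1)) := fun i =>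
    (((ev_smooth _).continuous.mul (hc _)).integrable_of_hasCompactSupport (hsv _).mul_left)
  have i2 : ∀ i : Fin (n + 2), Integrable (fun q : F n => ev (pderiv i p) q * h q) := fun i =>
    (((ev_smooth _).continuous.mul hh.continuous).integrable_of_hasCompactSupport hs.mul_left)
  have e1 : ∀ q : F n, ev p q * dd h q = ev p q * fderiv ℝ h q (EuclideanSpace.single 0 1) +
      Complex.I * (ev p q * fderiv ℝ h q (EuclideanSpace.single 1 1)) := by
    intro q
    unfold dd
    ring
  have e2 : ∀ q : F n, ev (dp p) q * h q = ev (pderiv 0 p) q * h q +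
      Complex.I * (ev (pderiv 1 p) q * h q) := by
    intro q
    unfold dp
    rw [ev_add, ev_mul, ev_C]
    ring
  simp only [e1, e2]
  rw [integral_add (i1 0) ((i1 1).const_mul _), integral_add (i2 0) ((i2 1).const_mul _),
    integral_const_mul, integral_const_mul, key, key]
  ring

lemma euler {d : ℕ} {p : MvPolynomial (Fin (n + 2)) ℂ} (hp : p.IsHomogeneous d) :
    eval (nv n) (dp p) = d * eval (nv n) p := by
  have h := congrArg (eval (nv n)) hp.sum_X_mul_pderiv
  rw [map_sum, nsmul_eq_mul, map_mul, map_natCast] at h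
  rw [← h]
  unfold dp
  rw [Fin.sum_univ_succ, Fin.sum_univ_succ]
  have h0 : ∀ i : Fin n, eval (nv n) (X i.succ.succ * pderiv i.succ.succ p) = 0 := by
    intro i
    rw [map_mul, eval_X]
    have : nv n i.succ.succ = 0 := by
      unfold nv
      rw [if_neg (Fin.succ_ne_zero _), if_neg]
      intro h
      have := congrArg Fin.val h
      simp at this
    rw [this, zero_mul]
  rw [Finset.sum_eq_zero (fun i _ => h0 i)]
  simp [nv]

lemma homog_dp {d : ℕ} {p : MvPolynomial (Fin (n + 2)) ℂ} (hp : p.IsHomogeneous (d + 1)) :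
    (dp p).IsHomogeneous d := by
  unfold dp
  have h0 : (pderiv 0 p).IsHomogeneous d := hp.pderiv
  have h1 : (pderiv 1 p).IsHomogeneous d := hp.pderiv
  exact h0.add (h1.C_mul _)

/-- the moments of the derivatives of a bump function -/
lemma moments {η : F n → ℂ} (hη : ContDiff ℝ (⊤ : ℕ∞) η) (hs : HasCompactSupport η)
    (h1 : ∫ q, η q = 1) (j : ℕ) : ContDiff ℝ (⊤ : ℕ∞) (dd^[j] η) ∧
      tsupport (dd^[j] η) ⊆ tsupport η ∧
      ∀ d ≤ j, ∀ Q : MvPolynomial (Fin (n + 2)) ℂ, Q.IsHomogeneous d →
        ∫ q : F n, ev Q q * (dd^[j] η) q =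
          if d = j then (-1) ^ j * (j.factorial : ℂ) * eval (nv n) Q else 0 := by
  induction j with
  | zero =>
    refine ⟨hη, subset_rfl, ?_⟩
    intro d hd Q hQ
    have hd0 : d = 0 := by omega
    subst hd0
    rw [← totalDegree_zero_iff_isHomogeneous, totalDegree_eq_zero_iff_eq_C] at hQ
    rw [hQ]
    simp only [ev_C, Function.iterate_zero, id_eq, eval_C]
    rw [integral_const_mul, h1]
    simp
  | succ j ih =>
    obtain ⟨ih1, ih2, ih3⟩ := ih
    rw [Function.iterate_succ_apply']
    refine ⟨dd_smooth ih1, (dd_tsupport _).trans ih2, ?_⟩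
    intro d hd Q hQ
    have hsj : HasCompactSupport (dd^[j] η) :=
      hs.isCompact.of_isClosed_subset (isClosed_tsupport _) ih2
    rw [parts Q ih1 hsj]
    rcases d with _ | d
    · rw [← totalDegree_zero_iff_isHomogeneous, totalDegree_eq_zero_iff_eq_C] at hQ
      have : dp Q = 0 := by
        unfold dp
        rw [hQ]
        simp
      rw [this]
      simp [ev]
    · rw [ih3 d (by omega) _ (homog_dp hQ), euler hQ]
      by_cases h : d = j
      · subst h
        simp only [if_true]
        rw [Nat.factorial_succ]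
        push_cast
        ring
      · rw [if_neg h, if_neg (by omega)]
        simp

end TSTAux

open TSTAux in
theorem tst : Stmt_TST := by
  intro n D j g hg
  have ha : 0 < √D.a / 2 := by
    have := Real.sqrt_pos.2 D.a0
    positivity
  let b : ContDiffBump (0 : F n) := ⟨√D.a / 4, √D.a / 2, by linarith, by linarith⟩
  set η : F n → ℂ := fun q => ((b.normed volume q : ℝ) : ℂ) with hηdef
  have hη : ContDiff ℝ (⊤ : ℕ∞) η := Complex.ofRealCLM.contDiff.comp b.contDiff_normed
  have hts : tsupport η ⊆ Metric.closedBall 0 (√D.a / 2) := by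
    have h1 : Function.support η ⊆ Metric.ball 0 (√D.a / 2) := by
      intro q hq
      have : q ∈ Function.support (b.normed volume) := by
        intro h0
        apply hq
        simp [hηdef, h0]
      rw [b.support_normed_eq] at this
      exact this
    exact (closure_mono h1).trans Metric.closure_ball_subset_closedBall
  have hs : HasCompactSupport η :=
    (isCompact_closedBall (0 : F n) (√D.a / 2)).of_isClosed_subset (isClosed_tsupport _) hts
  have h1 : ∫ q, η q = 1 := by
    rw [hηdef, integral_complex_ofReal, b.integral_normed]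
    simp
  obtain ⟨m1, m2, m3⟩ := moments hη hs h1 j
  set c : ℂ := (-1) ^ j / (j.factorial : ℂ) with hc
  have hf0 : (j.factorial : ℂ) ≠ 0 := by exact_mod_cast j.factorial_ne_zero
  refine ⟨fun z => c * g z.1 * (dd^[j] η) z.2, ⟨?_, ?_, ?_⟩, ?_⟩
  · exact (contDiff_const.mul (hg.smooth.comp contDiff_fst)).mul (m1.comp contDiff_snd)
  · have hK : IsCompact (tsupport g ×ˢ tsupport η) := hg.supp.isCompact.prod hs.isCompact
    apply HasCompactSupport.intro hK
    intro z hz
    by_cases h : z.1 ∈ tsupport g
    · have h2 : z.2 ∉ tsupport η := fun h2 => hz ⟨h, h2⟩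
      rw [image_eq_zero_of_notMem_tsupport (fun h3 => h2 (m2 h3)), mul_zero]
    · rw [image_eq_zero_of_notMem_tsupport h, mul_zero, zero_mul]
  · intro z hz
    have h2 : z.2 ∉ tsupport η := by
      intro h2
      have h3 := hts h2
      rw [Metric.mem_closedBall, dist_zero_right] at h3
      have h4 : D.a ≤ ‖z.2‖ ^ 2 := by
        unfold WD.k at hz
        rw [one_le_div (lt_of_lt_of_le D.a0 (D.ρa _))] at hz
        exact (D.ρa _).trans hz
      have h5 : ‖z.2‖ ^ 2 ≤ (√D.a / 2) ^ 2 := pow_le_pow_left₀ (norm_nonneg _) h3 2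
      rw [div_pow, Real.sq_sqrt D.a0.le] at h5
      have := D.a0
      linarith
    show c * g z.1 * (dd^[j] η) z.2 = 0
    rw [image_eq_zero_of_notMem_tsupport (fun h3 => h2 (m2 h3)), mul_zero]
  · intro d hd Q hQ x
    have e1 : ∀ q : F n, ev Q q * (c * g x * (dd^[j] η) q) =
        (c * g x) * (ev Q q * (dd^[j] η) q) := fun q => by ring
    simp only [e1]
    rw [integral_const_mul, m3 d hd Q hQ]
    by_cases h : d = j
    · rw [if_pos h, if_pos h, hc]
      have h2 : ((-1 : ℂ) ^ j) * (-1) ^ j = 1 := by
        rw [← mul_pow]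
        simp
      field_simp
      linear_combination (g x * MvPolynomial.eval (nv n) Q) * h2
    · rw [if_neg h, if_neg h, mul_zero]

end Pool.Agent.WPD
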