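import Pool.Agent.WPD.Stmts

set_option autoImplicit false

namespace Pool.Agent.WPD

open MeasureTheory Set Filter Topology

namespace ZXAux

variable {n : ℕ}

/-! ### traces -/

theorem trace_blocks (T : P n →ₗ[ℝ] P n) :
    LinearMap.trace ℝ (P n) T =
      LinearMap.trace ℝ (F n) ((LinearMap.fst ℝ (F n) (F n)).comp (T.comp (LinearMap.inl ℝ _ _))) +
      LinearMap.trace ℝ (F n) ((LinearMap.snd ℝ (F n) (F n)).comp
        (T.comp (LinearMap.inr ℝ _ _))) := by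
  set i1 := LinearMap.inl ℝ (F n) (F n)
  set i2 := LinearMap.inr ℝ (F n) (F n)
  set p1 := LinearMap.fst ℝ (F n) (F n)
  set p2 := LinearMap.snd ℝ (F n) (F n)
  have h : T = (T.comp i1).comp p1 + (T.comp i2).comp p2 := by
    apply LinearMap.ext
    intro z
    simp only [LinearMap.add_apply, LinearMap.comp_apply, i1, i2, p1, p2, LinearMap.inl_apply,
      LinearMap.inr_apply, LinearMap.fst_apply, LinearMap.snd_apply]
    rw [← map_add]
    simp
  conv_lhs => rw [h]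
  rw [map_add, LinearMap.trace_comp_comm', LinearMap.trace_comp_comm' _ p2]

/-! ### the derivatives -/

variable (D : WD n)

theorem ρpos (x : F n) : 0 < D.ρ x := lt_of_lt_of_le D.a0 (D.ρa x)

theorem ρne (x : F n) : D.ρ x ≠ 0 := (ρpos D x).ne'

theorem ρdiff : Differentiable ℝ D.ρ := D.ρs.differentiable (by simp)

theorem grad_smooth : ContDiff ℝ (⊤ : ℕ∞) (gradient D.ρ) := by
  have h1 : ContDiff ℝ (⊤ : ℕ∞) (fderiv ℝ D.ρ) := D.ρs.fderiv_right (by simp)
  exact (InnerProductSpace.toDual ℝ (F n)).symm.contDiff.comp h1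

/-- the derivative of the energy -/
noncomputable def kd (z : P n) : P n →L[ℝ] ℝ :=
  ‖z.2‖ ^ 2 • (-(D.ρ z.1 ^ 2)⁻¹) • (fderiv ℝ D.ρ z.1).comp (ContinuousLinearMap.fst ℝ (F n) (F n)) +
    (D.ρ z.1)⁻¹ • (2 • (innerSL ℝ z.2)).comp (ContinuousLinearMap.snd ℝ (F n) (F n))

theorem hasρ (z : P n) : HasFDerivAt (fun z : P n => D.ρ z.1)
    ((fderiv ℝ D.ρ z.1).comp (ContinuousLinearMap.fst ℝ (F n) (F n))) z :=
  (ρdiff D z.1).hasFDerivAt.comp z hasFDerivAt_fst

theorem hasρi (z : P n) : HasFDerivAt (fun z : P n => (D.ρ z.1)⁻¹)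
    ((-(D.ρ z.1 ^ 2)⁻¹) • (fderiv ℝ D.ρ z.1).comp (ContinuousLinearMap.fst ℝ (F n) (F n))) z :=
  (hasDerivAt_inv (ρne D z.1)).comp_hasFDerivAt z (hasρ D z)

theorem hasq (z : P n) : HasFDerivAt (fun z : P n => ‖z.2‖ ^ 2)
    ((2 • (innerSL ℝ z.2)).comp (ContinuousLinearMap.snd ℝ (F n) (F n))) z := by
  have := (hasStrictFDerivAt_norm_sq z.2).hasFDerivAt.comp z
    (hasFDerivAt_snd (𝕜 := ℝ) (E := F n) (F := F n) (p := z))
  exact this

theorem hask (z : P n) : HasFDerivAt D.k (kd D z) z := (hasq z).mul (hasρi D z)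

/-- the derivative of the geodesic field -/
noncomputable def Yd (z : P n) : P n →L[ℝ] P n :=
  ((D.ρ z.1)⁻¹ • ContinuousLinearMap.snd ℝ (F n) (F n) +
    ((-(D.ρ z.1 ^ 2)⁻¹) • (fderiv ℝ D.ρ z.1).comp
      (ContinuousLinearMap.fst ℝ (F n) (F n))).smulRight z.2).prod
  ((‖z.2‖ ^ 2 / (2 * D.ρ z.1 ^ 2)) • (fderiv ℝ (gradient D.ρ) z.1).comp
      (ContinuousLinearMap.fst ℝ (F n) (F n)) +
    (fderiv ℝ (fun z : P n => ‖z.2‖ ^ 2 / (2 * D.ρ z.1 ^ 2)) z).smulRight (gradient D.ρ z.1))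

theorem has1 (z : P n) : HasFDerivAt (fun z : P n => (D.ρ z.1)⁻¹ • z.2)
    ((D.ρ z.1)⁻¹ • ContinuousLinearMap.snd ℝ (F n) (F n) +
    ((-(D.ρ z.1 ^ 2)⁻¹) • (fderiv ℝ D.ρ z.1).comp
      (ContinuousLinearMap.fst ℝ (F n) (F n))).smulRight z.2) z :=
  (hasρi D z).smul hasFDerivAt_snd

theorem hasc (z : P n) : HasFDerivAt (fun z : P n => ‖z.2‖ ^ 2 / (2 * D.ρ z.1 ^ 2))
    (‖z.2‖ ^ 2 • (-((2 * D.ρ z.1 ^ 2) ^ 2)⁻¹) • ((2 * (2 * D.ρ z.1)) • (fderiv ℝ D.ρ z.1).comp
      (ContinuousLinearMap.fst ℝ (F n) (F n))) +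
      (2 * D.ρ z.1 ^ 2)⁻¹ • (2 • (innerSL ℝ z.2)).comp (ContinuousLinearMap.snd ℝ (F n) (F n)))
      z := by
  have h1 : HasDerivAt (fun r : ℝ => 2 * r ^ 2) (2 * (2 * D.ρ z.1)) (D.ρ z.1) := by
    have := (hasDerivAt_pow 2 (D.ρ z.1)).const_mul 2
    simpa using this
  have h2 := h1.comp_hasFDerivAt z (hasρ D z)
  have h3 : 2 * D.ρ z.1 ^ 2 ≠ 0 := mul_ne_zero two_ne_zero (pow_ne_zero _ (ρne D z.1))
  have h4 := (hasDerivAt_inv h3).comp_hasFDerivAt z h2
  exact (hasq z).mul h4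

theorem hasg (z : P n) : HasFDerivAt (fun z : P n => gradient D.ρ z.1)
    ((fderiv ℝ (gradient D.ρ) z.1).comp (ContinuousLinearMap.fst ℝ (F n) (F n))) z :=
  ((grad_smooth D).differentiable (by simp) z.1).hasFDerivAt.comp z hasFDerivAt_fst

theorem hasY (z : P n) : HasFDerivAt D.Y (Yd D z) z := by
  have h1 := has1 D z
  have h2 := (hasc D z).smul (hasg D z)
  have h3 := h1.prodMk h2
  unfold Yd
  rw [(hasc D z).fderiv]
  exact h3

theorem dρ_eq (x v : F n) : fderiv ℝ D.ρ x v = inner ℝ (gradient D.ρ x) v := by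
  have h := (ρdiff D x).hasGradientAt.hasFDerivAt.fderiv
  rw [h]
  simp

/-- the energy is conserved -/
theorem kdY (z : P n) : kd D z (D.Y z) = 0 := by
  have h0 := ρne D z.1
  unfold kd WD.Y
  simp only [ContinuousLinearMap.add_apply, ContinuousLinearMap.smul_apply,
    ContinuousLinearMap.comp_apply, ContinuousLinearMap.coe_fst', ContinuousLinearMap.coe_snd',
    map_smul, smul_eq_mul, dρ_eq, innerSL_apply_apply, nsmul_eq_mul, Nat.cast_ofNat,
    inner_smul_right]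
  rw [real_inner_comm z.2 (gradient D.ρ z.1)]
  field_simp
  ring

/-- the field is divergence free -/
theorem trY (z : P n) : LinearMap.trace ℝ (P n) (Yd D z).toLinearMap = 0 := by
  have h0 := ρne D z.1
  rw [trace_blocks]
  have h1 : (LinearMap.fst ℝ (F n) (F n)).comp
      ((Yd D z).toLinearMap.comp (LinearMap.inl ℝ (F n) (F n))) =
      ((-(D.ρ z.1 ^ 2)⁻¹) • (fderiv ℝ D.ρ z.1).toLinearMap).smulRight z.2 := by
    apply LinearMap.ext
    intro v
    simp [Yd]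
  have h2 : (LinearMap.snd ℝ (F n) (F n)).comp
      ((Yd D z).toLinearMap.comp (LinearMap.inr ℝ (F n) (F n))) =
      (((2 * D.ρ z.1 ^ 2)⁻¹ * 2) • (innerSL ℝ z.2).toLinearMap).smulRight (gradient D.ρ z.1) := by
    apply LinearMap.ext
    intro v
    unfold Yd
    rw [(hasc D z).fderiv]
    simp [mul_assoc]
  rw [h1, h2, LinearMap.trace_smulRight, LinearMap.trace_smulRight]
  simp only [LinearMap.smul_apply, ContinuousLinearMap.coe_coe, smul_eq_mul, dρ_eq,
    innerSL_apply_apply]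
  rw [real_inner_comm z.2 (gradient D.ρ z.1)]
  field_simp
  ring

/-! ### the cut-off -/

/-- the cut-off function -/
noncomputable def chi (r : ℝ) : ℝ := Real.smoothTransition (5 - r)

theorem chi_smooth : ContDiff ℝ (⊤ : ℕ∞) chi :=
  Real.smoothTransition.contDiff.comp (contDiff_const.sub contDiff_id)

theorem chi_one {r : ℝ} (h : r ≤ 4) : chi r = 1 :=
  Real.smoothTransition.one_of_one_le (by linarith)

theorem chi_zero {r : ℝ} (h : 5 ≤ r) : chi r = 0 :=
  Real.smoothTransition.zero_of_nonpos (by linarith)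

/-- the field -/
noncomputable def Z (z : P n) : P n := chi (D.k z) • D.Y z

theorem k_smooth : ContDiff ℝ (⊤ : ℕ∞) D.k := by
  have h1 : ContDiff ℝ (⊤ : ℕ∞) (fun z : P n => ‖z.2‖ ^ 2) := contDiff_snd.norm_sq ℝ
  have h2 : ContDiff ℝ (⊤ : ℕ∞) (fun z : P n => D.ρ z.1) := D.ρs.comp contDiff_fst
  exact h1.div h2 (fun z => ρne D z.1)

theorem Y_smooth : ContDiff ℝ (⊤ : ℕ∞) D.Y := by
  have h1 : ContDiff ℝ (⊤ : ℕ∞) (fun z : P n => ‖z.2‖ ^ 2) := contDiff_snd.norm_sq ℝ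
  have h2 : ContDiff ℝ (⊤ : ℕ∞) (fun z : P n => D.ρ z.1) := D.ρs.comp contDiff_fst
  have h3 : ContDiff ℝ (⊤ : ℕ∞) (fun z : P n => gradient D.ρ z.1) :=
    (grad_smooth D).comp contDiff_fst
  refine ContDiff.prodMk ((h2.inv (fun z => ρne D z.1)).smul contDiff_snd)
    ((h1.div (contDiff_const.mul (h2.pow 2)) (fun z => ?_)).smul h3)
  exact mul_ne_zero two_ne_zero (pow_ne_zero _ (ρne D z.1))

theorem Z_smooth : ContDiff ℝ (⊤ : ℕ∞) (Z D) :=
  (chi_smooth.comp (k_smooth D)).smul (Y_smooth D)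

theorem hasZ (z : P n) : HasFDerivAt (Z D)
    (chi (D.k z) • Yd D z + (deriv chi (D.k z) • kd D z).smulRight (D.Y z)) z := by
  have h1 : HasDerivAt chi (deriv chi (D.k z)) (D.k z) :=
    (chi_smooth.differentiable (by simp) _).hasDerivAt
  exact (h1.comp_hasFDerivAt z (hask D z)).smul (hasY D z)

theorem trZ (z : P n) : LinearMap.trace ℝ (P n) (fderiv ℝ (Z D) z).toLinearMap = 0 := by
  rw [(hasZ D z).fderiv]
  have h : (chi (D.k z) • Yd D z +
      (deriv chi (D.k z) • kd D z).smulRight (D.Y z)).toLinearMap =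
      chi (D.k z) • (Yd D z).toLinearMap +
      (deriv chi (D.k z) • (kd D z).toLinearMap).smulRight (D.Y z) := by
    apply LinearMap.ext
    intro v
    rfl
  rw [h, map_add, map_smul, trY, LinearMap.trace_smulRight, smul_zero, zero_add,
    LinearMap.smul_apply, ContinuousLinearMap.coe_coe, kdY, smul_zero]

theorem Bpos : 0 < D.B := lt_of_lt_of_le (ρpos D 0) (D.ρB 0)

/-- large momenta -/
theorem k_large {z : P n} (h : 5 * D.B < ‖z.2‖ ^ 2) : 5 < D.k z := by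
  unfold WD.k
  rw [lt_div_iff₀ (ρpos D z.1)]
  have := D.ρB z.1
  linarith

theorem fZ_large {z : P n} (h : 5 * D.B < ‖z.2‖ ^ 2) : fderiv ℝ (Z D) z = 0 := by
  have h1 : Z D =ᶠ[𝓝 z] fun _ => (0 : P n) := by
    have h2 : {y : P n | 5 < D.k y} ∈ 𝓝 z :=
      (isOpen_lt continuous_const (k_smooth D).continuous).mem_nhds (k_large D h)
    filter_upwards [h2] with y hy
    unfold Z
    rw [chi_zero (le_of_lt hy), zero_smul]
  rw [h1.fderiv_eq]
  simp

/-- the field for large `x` -/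
noncomputable def Zi (c : ℝ) (q : F n) : P n := chi (‖q‖ ^ 2 / c) • (c⁻¹ • q, (0 : F n))

theorem grad_zero {R' c : ℝ} (hc : ∀ x, R' ≤ ‖x‖ → D.ρ x = c) {x : F n} (h : R' < ‖x‖) :
    gradient D.ρ x = 0 := by
  have h1 : D.ρ =ᶠ[𝓝 x] fun _ => c := by
    have h2 : {y : F n | R' < ‖y‖} ∈ 𝓝 x :=
      (isOpen_lt continuous_const continuous_norm).mem_nhds h
    filter_upwards [h2] with y hy
    exact hc y (le_of_lt hy)
  unfold gradient
  rw [h1.fderiv_eq]
  simp

theorem Z_far {R' c : ℝ} (hc : ∀ x, R' ≤ ‖x‖ → D.ρ x = c) {z : P n} (h : R' < ‖z.1‖) :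
    Z D z = Zi c z.2 := by
  unfold Z Zi WD.k WD.Y
  rw [grad_zero D hc h, hc _ (le_of_lt h), smul_zero]

theorem fZ_far {R' c : ℝ} (hc : ∀ x, R' ≤ ‖x‖ → D.ρ x = c) {z : P n} (h : R' < ‖z.1‖) :
    fderiv ℝ (Z D) z = fderiv ℝ (fun y : P n => Zi c y.2) z := by
  have h1 : Z D =ᶠ[𝓝 z] fun y : P n => Zi c y.2 := by
    have h2 : {y : P n | R' < ‖y.1‖} ∈ 𝓝 z :=
      (isOpen_lt continuous_const (continuous_norm.comp continuous_fst)).mem_nhds h
    filter_upwards [h2] with y hy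
    exact Z_far D hc hy
  rw [h1.fderiv_eq]

theorem bounded : ∃ M : ℝ, 0 ≤ M ∧ ∀ z, ‖Z D z‖ ≤ M ∧ ‖fderiv ℝ (Z D) z‖ ≤ M := by
  obtain ⟨R', c, hc⟩ := D.ρc
  set x0 : F n := EuclideanSpace.single 0 (|R'| + 1) with hx0
  have hx0n : ‖x0‖ = |R'| + 1 := by
    rw [hx0, EuclideanSpace.norm_single, Real.norm_eq_abs, abs_of_nonneg (by positivity)]
  have hx0R : R' < ‖x0‖ := by
    rw [hx0n]
    linarith [le_abs_self R']
  set K : Set (P n) := Metric.closedBall (0 : F n) (|R'| + 1) ×ˢ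
    Metric.closedBall (0 : F n) (√(5 * D.B)) with hK
  have hKc : IsCompact K := (isCompact_closedBall _ _).prod (isCompact_closedBall _ _)
  have hcont : Continuous (fun z => fderiv ℝ (Z D) z) := (Z_smooth D).continuous_fderiv (by simp)
  obtain ⟨M1, hM1⟩ := hKc.exists_bound_of_continuousOn (Z_smooth D).continuous.continuousOn
  obtain ⟨M2, hM2⟩ := hKc.exists_bound_of_continuousOn hcont.continuousOn
  refine ⟨max (max M1 M2) 0, le_max_right _ _, fun z => ?_⟩
  by_cases h1 : 5 * D.B < ‖z.2‖ ^ 2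
  · have h2 : Z D z = 0 := by
      unfold Z
      rw [chi_zero (le_of_lt (k_large D h1)), zero_smul]
    rw [h2, fZ_large D h1, norm_zero, norm_zero]
    exact ⟨le_max_right _ _, le_max_right _ _⟩
  · have hq : ‖z.2‖ ≤ √(5 * D.B) := Real.le_sqrt_of_sq_le (not_lt.1 h1)
    by_cases h3 : ‖z.1‖ ≤ |R'| + 1
    · have hzK : z ∈ K := by
        rw [hK, Set.mem_prod, mem_closedBall_zero_iff, mem_closedBall_zero_iff]
        exact ⟨h3, hq⟩
      exact ⟨(hM1 z hzK).trans ((le_max_left _ _).trans (le_max_left _ _)),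
        (hM2 z hzK).trans ((le_max_right _ _).trans (le_max_left _ _))⟩
    · have hz : R' < ‖z.1‖ := by
        have := le_abs_self R'
        linarith [not_le.1 h3]
      have hzK : ((x0, z.2) : P n) ∈ K := by
        rw [hK, Set.mem_prod, mem_closedBall_zero_iff, mem_closedBall_zero_iff]
        exact ⟨hx0n.le, hq⟩
      have h4 : Z D z = Z D (x0, z.2) := by
        rw [Z_far D hc hz, Z_far D hc (z := (x0, z.2)) hx0R]
      have h5 : fderiv ℝ (Z D) z = fderiv ℝ (Z D) (x0, z.2) := by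
        rw [fZ_far D hc hz, fZ_far D hc (z := (x0, z.2)) hx0R]
        have h6 : ((x0, z.2) : P n) = z + (x0 - z.1, 0) := by
          apply Prod.ext
          · simp
          · simp
        rw [h6, ← fderiv_comp_add_right]
        congr 1
        funext y
        simp
      rw [h4, h5]
      exact ⟨(hM1 _ hzK).trans ((le_max_left _ _).trans (le_max_left _ _)),
        (hM2 _ hzK).trans ((le_max_right _ _).trans (le_max_left _ _))⟩

end ZXAux

open ZXAux in
theorem zx : Stmt_ZX := by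
  intro n D
  obtain ⟨M, hM0, hM⟩ := bounded D
  refine ⟨Z D, ⟨M, hM0⟩, M, (Z_smooth D).of_le (by simp), ?_, fun z => (hM z).1, trZ D, ?_, ?_⟩
  · exact lipschitzWith_of_nnnorm_fderiv_le ((Z_smooth D).differentiable (by simp))
      fun z => (hM z).2
  · intro z
    rw [(hask D z).fderiv]
    unfold Z
    rw [map_smul, kdY, smul_zero]
  · intro z hz
    unfold Z
    rw [chi_one hz, one_smul]

end Pool.Agent.WPD
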