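import Pool.Agent.WPD.Abs
import Pool.Agent.WPD.Bf
import Pool.Agent.WPD.Chg
import Pool.Agent.WPD.Coc
import Pool.Agent.WPD.Core
import Pool.Agent.WPD.Db
import Pool.Agent.WPD.Dtf
import Pool.Agent.WPD.ExpM
import Pool.Agent.WPD.GeoM
import Pool.Agent.WPD.Gf
import Pool.Agent.WPD.Key
import Pool.Agent.WPD.Loc
import Pool.Agent.WPD.Lv
import Pool.Agent.WPD.Met
import Pool.Agent.WPD.Mod
import Pool.Agent.WPD.Mom
import Pool.Agent.WPD.Mpg
import Pool.Agent.WPD.Mz
import Pool.Agent.WPD.Nrs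
import Pool.Agent.WPD.NulSet
import Pool.Agent.WPD.Ord
import Pool.Agent.WPD.Seg
import Pool.Agent.WPD.SgM
import Pool.Agent.WPD.Sol
import Pool.Agent.WPD.Tay
import Pool.Agent.WPD.Tst
import Pool.Agent.WPD.Zx

/-!
# Warped products: assembly
-/

set_option autoImplicit false

namespace Pool.Agent.WPD.All

theorem BF : Stmt_BF := bf gf lv zx
theorem MPG : Stmt_MPG := mpg
theorem SG : Stmt_SG := sg_
theorem EXP : Stmt_EXP := exp_
theorem COC : Stmt_COC := coc
theorem DTF : Stmt_DTF := dtf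
theorem TAY : Stmt_TAY := tay DTF
theorem CHG : Stmt_CHG := chg MPG SG
theorem ORD : Stmt_ORD := ord CHG TAY EXP COC SG DTF
theorem LOC : Stmt_LOC := loc
theorem NRS : Stmt_NRS := nrs
theorem TST : Stmt_TST := tst
theorem KEY : Stmt_KEY := key ORD NRS TST DTF LOC COC
theorem DB : Stmt_DB := db
theorem SOL : Stmt_SOL := sol DB LOC
theorem MZ : Stmt_MZ := mz SOL COC
theorem MOM : Stmt_MOM := mom COC
theorem CORE : Stmt_CORE := core KEY MZ MOM
theorem NUL : Stmt_NUL := nul MPG SG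
theorem MET : Stmt_MET := met
theorem GEO : Stmt_GEO := geo SG
theorem SEG : Stmt_SEG := seg GEO SG
theorem MOD : Stmt_MOD := mod_
theorem ABS : Stmt_ABS := abs_ BF CORE NUL SEG SG MOD

end Pool.Agent.WPD.All
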