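import Pool.Agent.WPD.Stmts

/-!
# ABS: the theorem, from the analytic core
-/

set_option autoImplicit false

namespace Pool.Agent.WPD

open MeasureTheory Set Filter Topology

namespace ABSAux

/-- the indicator of a compact set times a function continuous on it is measurable -/
theorem meas_ind {E : Type} [TopologicalSpace E] [T2Space E] [MeasurableSpace E] [BorelSpace E]
    (M : Set E) (f : E → ℝ) (hM : IsCompact M) (hf : ContinuousOn f M) :
    Measurable (M.indicator f) := by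
  classical
  have h := hf.measurable_piecewise (continuousOn_const (c := (0 : ℝ)) (s := Mᶜ))
    hM.isClosed.measurableSet
  rwa [← Set.piecewise_eq_indicator]

/-- clamp to `[-R, R]` -/
noncomputable def cl (R t : ℝ) : ℝ := max (-R) (min R t)

theorem cl_cont (R : ℝ) : Continuous (cl R) := by unfold cl; fun_prop

theorem cl_mem {R : ℝ} (hR : 0 < R) (t : ℝ) : cl R t ∈ Icc (-R) R :=
  ⟨le_max_left _ _, max_le (by linarith) (min_le_left _ _)⟩

theorem cl_eq {R t : ℝ} (ht : |t| < R) : cl R t = t := by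
  have h := abs_lt.1 ht
  unfold cl
  rw [min_eq_right h.2.le, max_eq_right h.1.le]

theorem cl_ev {R t : ℝ} (ht : |t| < R) : ∀ᶠ s in 𝓝 t, cl R s = s := by
  have h : ∀ᶠ s in 𝓝 t, |s| < R := continuous_abs.continuousAt.eventually (gt_mem_nhds ht)
  filter_upwards [h] with s hs
  exact cl_eq hs

/-- a positive continuous function, clamped, has bounds -/
theorem bounds {α : ℝ → ℝ} (hα : Continuous α) (h0 : ∀ t, 0 < α t) {R : ℝ} (hR : 0 < R) :
    ∃ a B : ℝ, 0 < a ∧ ∀ t, a ≤ α (cl R t) ∧ α (cl R t) ≤ B := by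
  have hne : (Icc (-R) R).Nonempty := nonempty_Icc.2 (by linarith)
  obtain ⟨x, -, hmin⟩ := isCompact_Icc.exists_isMinOn hne hα.continuousOn
  obtain ⟨y, -, hmax⟩ := isCompact_Icc.exists_isMaxOn hne hα.continuousOn
  exact ⟨α x, α y, h0 x, fun t => ⟨hmin (cl_mem hR t), hmax (cl_mem hR t)⟩⟩

/-- the data of one slice -/
noncomputable def mk {n : ℕ} (α β : ℝ → ℝ) (ρ : F n → ℝ) (f : ℝ × F n → ℝ)
    (hα : Continuous α) (hβ : Continuous β) (R : ℝ) (hR : 0 < R)
    (a₁ B₁ a₂ B₂ a₃ B₃ C : ℝ) (ha₁ : 0 < a₁) (ha₂ : 0 < a₂) (ha₃ : 0 < a₃)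
    (hαb : ∀ t, a₁ ≤ α (cl R t) ∧ α (cl R t) ≤ B₁) (hβb : ∀ t, a₂ ≤ β (cl R t) ∧ β (cl R t) ≤ B₂)
    (hρ : ContDiff ℝ (⊤ : ℕ∞) ρ) (hρb : ∀ x, a₃ ≤ ρ x ∧ ρ x ≤ B₃)
    (hρc : ∃ R' c : ℝ, ∀ x, R' ≤ ‖x‖ → ρ x = c) (hf : Measurable f) (hfb : ∀ z, |f z| ≤ C)
    (hf0 : ∀ t x, R ≤ |t| ∨ R ≤ ‖x‖ → f (t, x) = 0) : WD n where
  α := fun t => α (cl R t)
  β := fun t => β (cl R t)
  ρ := ρ
  f := fun t x => f (t, x)
  a := min a₁ (min a₂ a₃)
  B := max (max B₁ B₂) (max B₃ C)
  R := R
  a0 := lt_min ha₁ (lt_min ha₂ ha₃)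
  R0 := hR
  αc := hα.comp (cl_cont R)
  βc := hβ.comp (cl_cont R)
  αa := fun t => (min_le_left _ _).trans (hαb t).1
  αB := fun t => (hαb t).2.trans ((le_max_left _ _).trans (le_max_left _ _))
  βa := fun t => ((min_le_right _ _).trans (min_le_left _ _)).trans (hβb t).1
  βB := fun t => (hβb t).2.trans ((le_max_right _ _).trans (le_max_left _ _))
  ρs := hρ
  ρa := fun x => ((min_le_right _ _).trans (min_le_right _ _)).trans (hρb x).1
  ρB := fun x => (hρb x).2.trans ((le_max_left _ _).trans (le_max_right _ _))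
  ρc := hρc
  fm := hf
  fB := fun t x => (hfb (t, x)).trans ((le_max_right _ _).trans (le_max_right _ _))
  f0 := hf0

end ABSAux

open ABSAux

theorem abs_ (hB : Stmt_BF) (hC : Stmt_CORE) (hN : Stmt_NUL) (hS : Stmt_SEG) (_hG : Stmt_SG)
    (hM : Stmt_MOD) : Stmt_ABS := by
  intro n m G α β ρ met M f δ hMc hnull hf hδ hZ
  have hαc : Continuous α := met.αd.continuous
  have hβc : Continuous β := met.βd.continuous
  -- the size of `M`
  obtain ⟨r₁, hr₁⟩ := hMc.isBounded.exists_norm_le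
  obtain ⟨R, hR, hRM⟩ : ∃ R : ℝ, 0 < R ∧ ∀ z ∈ M, |z.1| < R ∧ ‖z.2.1‖ < R := by
    refine ⟨max r₁ 0 + 1, by positivity, fun z hz => ?_⟩
    have h1 := hr₁ z hz
    have h2 := norm_fst_le z
    have h3 := norm_snd_le z
    have h5 := norm_fst_le z.2
    rw [Real.norm_eq_abs] at h2
    have h4 := le_max_left r₁ 0
    constructor <;> linarith
  obtain ⟨ρ', a₃, B₃, R', c, ha₃, hρs, hρb, hρc, hρe⟩ := hM n ρ R met.ρs met.ρ0
  obtain ⟨a₁, B₁, ha₁, hαb⟩ := bounds hαc met.α0 hR
  obtain ⟨a₂, B₂, ha₂, hβb⟩ := bounds hβc met.β0 hR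
  obtain ⟨C, hCb⟩ := hMc.exists_bound_of_continuousOn hf
  have hind : Measurable (M.indicator f) := meas_ind M f hMc hf
  have hmap : ∀ w : EuclideanSpace ℝ (Fin m),
      Continuous (fun p : ℝ × F n => ((p.1, p.2, w) : T n m)) := fun w => by fun_prop
  -- the slices
  have hFm : ∀ w : EuclideanSpace ℝ (Fin m),
      Measurable (fun p : ℝ × F n => M.indicator f (p.1, p.2, w)) := fun w =>
    hind.comp (hmap w).measurable
  have hFb : ∀ (w : EuclideanSpace ℝ (Fin m)) (p : ℝ × F n),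
      |M.indicator f (p.1, p.2, w)| ≤ max C 0 := fun w p => by
    by_cases hz : ((p.1, p.2, w) : T n m) ∈ M
    · rw [Set.indicator_of_mem hz]
      exact (hCb _ hz).trans (le_max_left _ _)
    · rw [Set.indicator_of_notMem hz, abs_zero]
      exact le_max_right _ _
  have hFs : ∀ (w : EuclideanSpace ℝ (Fin m)) (t : ℝ) (x : F n), R ≤ |t| ∨ R ≤ ‖x‖ →
      M.indicator f (t, x, w) = 0 := fun w t x htx => by
    refine Set.indicator_of_notMem (fun hz => ?_) _
    have h1 := hRM _ hz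
    rcases htx with h | h
    · exact absurd h1.1 (not_lt.2 h)
    · exact absurd h1.2 (not_lt.2 h)
  -- associativity
  let e : (ℝ × F n) × EuclideanSpace ℝ (Fin m) ≃ᵐ T n m := MeasurableEquiv.prodAssoc
  have he : ∀ p, e p = (p.1.1, p.1.2, p.2) := fun p => rfl
  have hec : Continuous e := by
    have : (e : (ℝ × F n) × EuclideanSpace ℝ (Fin m) → T n m) = fun p => (p.1.1, p.1.2, p.2) :=
      funext he
    rw [this]
    fun_prop
  have hep : MeasurePreserving e volume volume := volume_preserving_prodAssoc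
  have hfm : MeasurableSet (frontier M) := isClosed_frontier.measurableSet
  have hae : ∀ᵐ w : EuclideanSpace ℝ (Fin m), ∀ᵐ p : ℝ × F n,
      ((p.1, p.2, w) : T n m) ∉ frontier M := by
    have h1 : ∀ᵐ p : (ℝ × F n) × EuclideanSpace ℝ (Fin m), e p ∉ frontier M := by
      have h2 : {p | ¬ e p ∉ frontier M} = e ⁻¹' frontier M := by
        ext p
        simp
      rw [ae_iff, h2, hep.measure_preimage hfm.nullMeasurableSet]
      exact hnull
    rw [Measure.volume_eq_prod] at h1
    have hpm : MeasurableSet {p : (ℝ × F n) × EuclideanSpace ℝ (Fin m) |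
        ((p.1.1, p.1.2, p.2) : T n m) ∉ frontier M} := hfm.compl.preimage hec.measurable
    exact (Measure.ae_ae_comm hpm).1 (Measure.ae_ae_of_ae_prod h1)
  -- the core
  have hcore : ∀ᵐ w : EuclideanSpace ℝ (Fin m), ∀ᵐ p : ℝ × F n,
      M.indicator f (p.1, p.2, w) = 0 := by
    filter_upwards [hae] with w hw
    let D : WD n := mk α β ρ' (fun p => M.indicator f (p.1, p.2, w)) hαc hβc R hR a₁ B₁ a₂ B₂ a₃
      B₃ (max C 0) ha₁ ha₂ ha₃ hαb hβb hρs hρb ⟨R', c, hρc⟩ (hFm w) (hFb w) (hFs w)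
    obtain ⟨φ, hφ⟩ := hB n D
    refine hC n D φ hφ (min 1 (min (D.a / 2) δ)) (lt_min one_pos (lt_min (half_pos D.a0) hδ)) ?_
    intro ε hε0 hε
    have hε1 : ε ≤ 1 := (hε.trans_le (min_le_left _ _)).le
    have hεa : ε ≤ D.a / 2 :=
      (hε.trans_le ((min_le_right _ _).trans (min_le_left _ _))).le
    have hεδ : ε ≤ δ := (hε.trans_le ((min_le_right _ _).trans (min_le_right _ _))).le
    have hsq : ε ^ 2 ≤ ε := by nlinarith
    have h1 := hN n D φ hφ ε hε0 (hsq.trans hεa) {p | ((p.1, p.2, w) : T n m) ∈ frontier M}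
      (hfm.preimage (hmap w).measurable) (by
        rw [ae_iff] at hw
        simpa using hw)
    unfold WD.Zero
    filter_upwards [h1] with z hz hk
    have h2 := hS n m G α β ρ met M f δ hMc hf hZ D φ hφ ε hε0 (hsq.trans hεa) (hsq.trans hεδ) z w
      hk (fun p hp => ⟨?_, ?_⟩) (hz hk)
    · exact h2
    · filter_upwards [cl_ev (hRM p hp).1] with s hs
      exact ⟨congrArg α hs, congrArg β hs⟩
    · have h3 : ∀ᶠ x in 𝓝 p.2.1, ‖x‖ < R :=
        continuous_norm.continuousAt.eventually (gt_mem_nhds (hRM p hp).2)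
      filter_upwards [h3] with x hx
      exact hρe x hx
  have hfull : ∀ᵐ p : T n m, M.indicator f p = 0 := by
    have hset : MeasurableSet {p : (ℝ × F n) × EuclideanSpace ℝ (Fin m) |
        M.indicator f ((p.1.1, p.1.2, p.2) : T n m) = 0} :=
      (hind.comp hec.measurable) (measurableSet_singleton 0)
    have h1 : ∀ᵐ p : (ℝ × F n) × EuclideanSpace ℝ (Fin m), M.indicator f (e p) = 0 := by
      rw [Measure.volume_eq_prod]
      exact (Measure.ae_prod_iff_ae_ae hset).2 ((Measure.ae_ae_comm hset).2 hcore)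
    have hset2 : MeasurableSet {p : T n m | ¬ M.indicator f p = 0} :=
      (hind (measurableSet_singleton 0)).compl
    rw [ae_iff, ← hep.measure_preimage hset2.nullMeasurableSet]
    exact h1
  -- the interior
  have hint : EqOn f (fun _ => (0 : ℝ)) (interior M) := by
    have := haarT n m
    refine Measure.eqOn_open_of_ae_eq (μ := (volume : Measure (T n m))) ?_ isOpen_interior
      (hf.mono interior_subset) continuousOn_const
    filter_upwards [ae_restrict_of_ae hfull,
      ae_restrict_mem (isOpen_interior.measurableSet)] with p hp hpM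
    rw [Set.indicator_of_mem (interior_subset hpM)] at hp
    exact hp
  have hcl : closure (interior M) ⊆ M :=
    (closure_mono interior_subset).trans hMc.isClosed.closure_eq.subset
  have hfin := hint.of_subset_closure (hf.mono hcl) continuousOn_const subset_closure subset_rfl
  exact fun z hz => hfin hz

end Pool.Agent.WPD
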