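import Mathlib
import Pool.Agent.Lib_helper92.XRay.GeoDefs

/-!
# Warped products: definitions

`F n` is the fibre `ℝ^{n+2}` with the conformally flat metric `ρ(x)|dx|²`, `P n` its phase space with
the variables `z = (x, q)`. The geodesics of the fibre are the solutions of
`x' = q / ρ`, `q' = |q|² ∇ρ / (2 ρ²)`, and `k = |q|² / ρ` is conserved.

The total space is `T n m = ℝ × F n × ℝ^m`, with variables `(t, x, w)`, and the metric is
`α(t) dt² + β(t) ρ(x) |dx|²` on the slices `w = const`, which are orthogonal to the last `m`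
directions.
-/

set_option autoImplicit false

namespace Pool.Agent.WPD

open MeasureTheory Set Filter Topology

/-- the fibre -/
abbrev F (n : ℕ) : Type := EuclideanSpace ℝ (Fin (n + 2))

/-- the phase space of the fibre -/
abbrev P (n : ℕ) : Type := F n × F n

/-- the data of the analytic part -/
structure WD (n : ℕ) where
  α : ℝ → ℝ
  β : ℝ → ℝ
  ρ : F n → ℝ
  f : ℝ → F n → ℝ
  a : ℝ
  B : ℝ
  R : ℝ
  a0 : 0 < a
  R0 : 0 < R
  αc : Continuous α
  βc : Continuous β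
  αa : ∀ t, a ≤ α t
  αB : ∀ t, α t ≤ B
  βa : ∀ t, a ≤ β t
  βB : ∀ t, β t ≤ B
  ρs : ContDiff ℝ (⊤ : ℕ∞) ρ
  ρa : ∀ x, a ≤ ρ x
  ρB : ∀ x, ρ x ≤ B
  ρc : ∃ R' c : ℝ, ∀ x, R' ≤ ‖x‖ → ρ x = c
  fm : Measurable (fun z : ℝ × F n => f z.1 z.2)
  fB : ∀ t x, |f t x| ≤ B
  f0 : ∀ t x, R ≤ |t| ∨ R ≤ ‖x‖ → f t x = 0

namespace WD

variable {n : ℕ} (D : WD n)

/-- the energy of the fibre -/
noncomputable def k (z : P n) : ℝ := ‖z.2‖ ^ 2 / D.ρ z.1

/-- the geodesic vector field of the fibre -/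
noncomputable def Y (z : P n) : P n :=
  ((D.ρ z.1)⁻¹ • z.2, (‖z.2‖ ^ 2 / (2 * D.ρ z.1 ^ 2)) • gradient D.ρ z.1)

/-- `φ` is a flow on the phase space which is the geodesic flow for the energies `≤ 4` -/
structure Flow (φ : ℝ → P n → P n) : Prop where
  zero : ∀ z, φ 0 z = z
  add : ∀ s t z, φ (s + t) z = φ s (φ t z)
  cont : Continuous (fun p : ℝ × P n => φ p.1 p.2)
  energy : ∀ s z, D.k (φ s z) = D.k z
  deriv : ∀ s z, D.k z ≤ 4 → HasDerivAt (fun r => φ r z) (D.Y (φ s z)) s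
  move : ∃ C, ∀ s z, ‖φ s z - z‖ ≤ C * |s|
  pres : ∀ s, MeasurePreserving (φ s) volume volume

/-- arc length per unit of `t`: `√(αβ/(β - κ))` -/
noncomputable def w (κ t : ℝ) : ℝ := √(D.α t) * √(D.β t) / √(D.β t - κ)

/-- fibre time as a function of `t` -/
noncomputable def sg (κ t : ℝ) : ℝ := ∫ s in (0 : ℝ)..t, √(D.α s) / (√(D.β s) * √(D.β s - κ))

/-- The integrals of `f` along the curves `t ↦ (t, x(ε σ(t)))` vanish for almost all `z` of energy
`< 1`. -/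
def Zero (φ : ℝ → P n → P n) (ε : ℝ) : Prop :=
  ∀ᵐ z : P n, D.k z < 1 →
    ∫ t : ℝ, D.f t (φ (ε * D.sg (ε ^ 2 * D.k z) t) z).1 * D.w (ε ^ 2 * D.k z) t = 0

/-- the coefficients of `(1 - x)^(-1/2)` -/
noncomputable def cb (m : ℕ) : ℝ := (Nat.centralBinom m : ℝ) / 4 ^ m

/-- the coefficients of `w` -/
noncomputable def wc (m : ℕ) (t : ℝ) : ℝ := √(D.α t) * cb m / D.β t ^ m

/-- the coefficients of `sg` -/
noncomputable def sc (m : ℕ) (t : ℝ) : ℝ := ∫ s in (0 : ℝ)..t, √(D.α s) * cb m / D.β s ^ (m + 1)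

/-- the coefficients of `sg ^ i * w` -/
noncomputable def co : ℕ → ℕ → ℝ → ℝ
  | 0, m, t => D.wc m t
  | i + 1, m, t => ∑ l ∈ Finset.range (m + 1), D.sc l t * co i (m - l) t

/-- the moments -/
noncomputable def M (j : ℕ) (x : F n) : ℝ := ∫ t : ℝ, D.f t x * D.co j 0 t

/-- test functions: smooth, compact support, zero for the energies `≥ 1` -/
structure TF (Ψ : P n → ℂ) : Prop where
  smooth : ContDiff ℝ (⊤ : ℕ∞) Ψ
  supp : HasCompactSupport Ψ
  low : ∀ z, 1 ≤ D.k z → Ψ z = 0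

/-- the derivative along the geodesic vector field -/
noncomputable def der (Ψ : P n → ℂ) : P n → ℂ := fun z => fderiv ℝ Ψ z (D.Y z)

/-- the operator `g ↦ (∂_0 + i ∂_1)(g / ρ)` on the fibre -/
noncomputable def Lo (g : F n → ℂ) : F n → ℂ := fun x =>
  fderiv ℝ (fun y => g y / (D.ρ y : ℂ)) x (EuclideanSpace.single 0 1) +
    Complex.I * fderiv ℝ (fun y => g y / (D.ρ y : ℂ)) x (EuclideanSpace.single 1 1)

end WD

/-- the isotropic vector `(1, i, 0, ..., 0)` -/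
noncomputable def nv (n : ℕ) : Fin (n + 2) → ℂ := fun i => if i = 0 then 1 else if i = 1 then Complex.I else 0

/-- the value of a polynomial at a point of the fibre -/
noncomputable def ev {n : ℕ} (Q : MvPolynomial (Fin (n + 2)) ℂ) (q : F n) : ℂ :=
  MvPolynomial.eval (fun i => (q i : ℂ)) Q

/-- `∫ Q(q) Ψ(x, q) dq = 0` for the homogeneous polynomials `Q` of degree `< r`, and
`= Q(1, i, 0, ..., 0) g(x)` for those of degree `r` -/
def Nr {n : ℕ} (r : ℕ) (g : F n → ℂ) (Ψ : P n → ℂ) : Prop :=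
  ∀ d ≤ r, ∀ Q : MvPolynomial (Fin (n + 2)) ℂ, Q.IsHomogeneous d → ∀ x : F n,
    ∫ q : F n, ev Q q * Ψ (x, q) = if d = r then MvPolynomial.eval (nv n) Q * g x else 0

/-- smooth with compact support -/
structure Cc {n : ℕ} (g : F n → ℂ) : Prop where
  smooth : ContDiff ℝ (⊤ : ℕ∞) g
  supp : HasCompactSupport g

/-! ### the geometric part -/

/-- the total space -/
abbrev T (n m : ℕ) : Type := ℝ × F n × EuclideanSpace ℝ (Fin m)

theorem haarP (n : ℕ) : (volume : Measure (P n)).IsAddHaarMeasure := by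
  show (Measure.prod volume volume).IsAddHaarMeasure
  infer_instance

theorem haarT (n m : ℕ) : (volume : Measure (T n m)).IsAddHaarMeasure := by
  have h1 : ((volume : Measure (F n)).prod
    (volume : Measure (EuclideanSpace ℝ (Fin m)))).IsAddHaarMeasure := inferInstance
  exact @Measure.prod.instIsAddHaarMeasure ℝ _ _ _ (F n × EuclideanSpace ℝ (Fin m)) _ _ _ volume
    ((volume : Measure (F n)).prod volume) _ h1 _ _ _ _

/-- the metric on the slices -/
def Warp {n m : ℕ} (G : T n m → T n m →L[ℝ] T n m →L[ℝ] ℝ) (α β : ℝ → ℝ) (ρ : F n → ℝ) : Prop :=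
  ∀ z v v' : T n m, v.2.2 = 0 →
    G z v v' = α z.1 * (v.1 * v'.1) + β z.1 * ρ z.2.1 * inner ℝ v.2.1 v'.2.1

/-- The integrals of `f` vanish along the maximal segments in `M` of the unit speed geodesics which
are contained in the slices `w = const` and on which the first integral `β² ρ |x'|²` is `< δ`. -/
def SliceZero {n m : ℕ} (G : T n m → T n m →L[ℝ] T n m →L[ℝ] ℝ) (β : ℝ → ℝ) (ρ : F n → ℝ)
    (M : Set (T n m)) (f : T n m → ℝ) (δ : ℝ) : Prop :=
  ∀ (γ : ℝ → T n m) (u v s t : ℝ), u < s → s < t → t < v →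
    Pool.Agent.XRay.UnitGeodesicOn G γ (Ioo u v) →
    (∀ τ ∈ Ioo u v, (deriv γ τ).2.2 = 0 ∧
      β (γ τ).1 ^ 2 * ρ (γ τ).2.1 * ‖(deriv γ τ).2.1‖ ^ 2 < δ) →
    Pool.Agent.XRay.MaximalSegment M γ s t → ∫ τ in s..t, f (γ τ) = 0

/-- the curve `t ↦ (t, x(ε σ(t)), w₀)` -/
noncomputable def cv {n : ℕ} (D : WD n) (φ : ℝ → P n → P n) (ε : ℝ) (z : P n) (m : ℕ)
    (w₀ : EuclideanSpace ℝ (Fin m)) (t : ℝ) : T n m :=
  (t, (φ (ε * D.sg (ε ^ 2 * D.k z) t) z).1, w₀)

end Pool.Agent.WPD
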