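import Pool.Agent.WPD.Stmts

/-!
# The module NRS: the derivative along the geodesic field and the isotropic vector
-/

set_option autoImplicit false

namespace Pool.Agent.WPD

open MeasureTheory Set Filter Topology

namespace NRSAux

variable {n : ℕ}

/-- the coordinate vectors -/
noncomputable def e (l : Fin (n + 2)) : F n := EuclideanSpace.single l 1

theorem e_apply (l i : Fin (n + 2)) : (e l : F n) i = if i = l then 1 else 0 := by
  simp [e]

/-! ### polynomials -/

theorem ev_add (Q R : MvPolynomial (Fin (n + 2)) ℂ) (q : F n) :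
    ev (Q + R) q = ev Q q + ev R q := by
  simp [ev]

theorem ev_mul (Q R : MvPolynomial (Fin (n + 2)) ℂ) (q : F n) :
    ev (Q * R) q = ev Q q * ev R q := by
  simp [ev]

theorem ev_X (l : Fin (n + 2)) (q : F n) :
    ev (MvPolynomial.X l) q = (q l : ℂ) := by
  simp [ev]

theorem ev_C (c : ℂ) (q : F n) : ev (MvPolynomial.C c : MvPolynomial (Fin (n + 2)) ℂ) q = c := by
  simp [ev]

theorem hasFDerivAt_coord (i : Fin (n + 2)) (q : F n) :
    HasFDerivAt (fun q : F n => (q i : ℂ))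
      (Complex.ofRealCLM.comp (EuclideanSpace.proj (𝕜 := ℝ) i)) q :=
  (Complex.ofRealCLM.comp (EuclideanSpace.proj (𝕜 := ℝ) i)).hasFDerivAt

theorem contDiff_ev (Q : MvPolynomial (Fin (n + 2)) ℂ) : ContDiff ℝ (⊤ : ℕ∞) (ev Q) := by
  induction Q using MvPolynomial.induction_on with
  | C c =>
    have h : (ev (MvPolynomial.C c) : F n → ℂ) = fun _ => c := by
      funext q; exact ev_C c q
    rw [h]; exact contDiff_const
  | add p q hp hq =>
    have h : (ev (p + q) : F n → ℂ) = fun x => ev p x + ev q x := by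
      funext x; exact ev_add p q x
    rw [h]; exact hp.add hq
  | mul_X p i hp =>
    have h : (ev (p * MvPolynomial.X i) : F n → ℂ) = fun x => ev p x * (x i : ℂ) := by
      funext x; rw [ev_mul, ev_X]
    rw [h]
    exact hp.mul (Complex.ofRealCLM.comp (EuclideanSpace.proj (𝕜 := ℝ) i)).contDiff

theorem differentiable_ev (Q : MvPolynomial (Fin (n + 2)) ℂ) : Differentiable ℝ (ev Q) :=
  (contDiff_ev Q).differentiable (by simp)

theorem fderiv_ev (Q : MvPolynomial (Fin (n + 2)) ℂ) (l : Fin (n + 2)) (q : F n) :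
    fderiv ℝ (ev Q) q (e l) = ev (MvPolynomial.pderiv l Q) q := by
  induction Q using MvPolynomial.induction_on with
  | C c =>
    have h : (ev (MvPolynomial.C c) : F n → ℂ) = fun _ => c := by
      funext q; exact ev_C c q
    rw [h]; simp [ev]
  | add p q' hp hq =>
    have h : (ev (p + q') : F n → ℂ) = fun x => ev p x + ev q' x := by
      funext x; exact ev_add p q' x
    rw [h, map_add, ev_add, ← hp, ← hq,
      fderiv_fun_add (differentiable_ev p q) (differentiable_ev q' q)]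
    rfl
  | mul_X p i hp =>
    have h : (ev (p * MvPolynomial.X i) : F n → ℂ) = fun x => ev p x * (x i : ℂ) := by
      funext x; rw [ev_mul, ev_X]
    have h2 := (((differentiable_ev p q).hasFDerivAt).mul (hasFDerivAt_coord i q)).fderiv
    rw [h]
    have h3 : fderiv ℝ (fun x : F n => ev p x * (x i : ℂ)) q = ev p q •
        (Complex.ofRealCLM.comp (EuclideanSpace.proj (𝕜 := ℝ) i)) + (q i : ℂ) •
        fderiv ℝ (ev p) q := h2
    rw [h3]
    have h4 : (Complex.ofRealCLM.comp (EuclideanSpace.proj (𝕜 := ℝ) i)) (e l : F n) =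
        (((e l : F n) i : ℝ) : ℂ) := rfl
    have h5 : (ev p q • (Complex.ofRealCLM.comp (EuclideanSpace.proj (𝕜 := ℝ) i)) + (q i : ℂ) •
        fderiv ℝ (ev p) q) (e l) = ev p q * (Complex.ofRealCLM.comp
          (EuclideanSpace.proj (𝕜 := ℝ) i)) (e l : F n) + (q i : ℂ) * fderiv ℝ (ev p) q (e l) := rfl
    rw [h5, h4, hp, e_apply, Derivation.leibniz, smul_eq_mul, smul_eq_mul, ev_add, ev_mul, ev_mul,
      ev_X, MvPolynomial.pderiv_X, Pi.single_apply]
    by_cases h1 : i = l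
    · simp [ev, h1]
    · simp [ev, h1]

/-- the quadratic form `Σ X_l ^ 2` -/
noncomputable def S : MvPolynomial (Fin (n + 2)) ℂ := ∑ l, MvPolynomial.X l ^ 2

theorem ev_S (q : F n) : ev (S : MvPolynomial (Fin (n + 2)) ℂ) q = ((‖q‖ ^ 2 : ℝ) : ℂ) := by
  rw [EuclideanSpace.real_norm_sq_eq]
  simp [ev, S]

theorem S_hom : (S : MvPolynomial (Fin (n + 2)) ℂ).IsHomogeneous 2 := by
  unfold S
  refine MvPolynomial.IsHomogeneous.sum _ _ _ fun l _ => ?_
  have h := (MvPolynomial.isHomogeneous_X ℂ l).pow 2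
  simpa using h

theorem nv_zero : nv n 0 = 1 := by simp [nv]

theorem nv_one : nv n 1 = Complex.I := by simp [nv]

theorem nv_succ (i : Fin n) : nv n i.succ.succ = 0 := by
  have h0 : i.succ.succ ≠ (0 : Fin (n + 2)) := Fin.succ_ne_zero _
  have h1 : i.succ.succ ≠ (1 : Fin (n + 2)) := by
    intro h
    have := congrArg Fin.val h
    simp at this
  simp [nv, h0, h1]

theorem sum_nv (u : Fin (n + 2) → ℂ) : ∑ l, nv n l * u l = u 0 + Complex.I * u 1 := by
  rw [Fin.sum_univ_succ, Fin.sum_univ_succ]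
  have h : ∀ i : Fin n, nv n i.succ.succ * u i.succ.succ = 0 := fun i => by
    rw [nv_succ, zero_mul]
  rw [Finset.sum_congr rfl fun i _ => h i]
  rw [nv_zero]
  have : nv n (Fin.succ 0) = Complex.I := nv_one
  rw [this]
  simp

theorem eval_S : MvPolynomial.eval (nv n) (S : MvPolynomial (Fin (n + 2)) ℂ) = 0 := by
  have h : MvPolynomial.eval (nv n) (S : MvPolynomial (Fin (n + 2)) ℂ) =
      ∑ l, nv n l * nv n l := by
    simp [S, pow_two]
  rw [h, sum_nv, nv_zero, nv_one, Complex.I_mul_I]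
  ring

theorem pderiv_S (l : Fin (n + 2)) :
    MvPolynomial.pderiv l (S : MvPolynomial (Fin (n + 2)) ℂ) = 2 * MvPolynomial.X l := by
  unfold S
  rw [map_sum]
  have h : ∀ i : Fin (n + 2), MvPolynomial.pderiv l (MvPolynomial.X i ^ 2 :
      MvPolynomial (Fin (n + 2)) ℂ) = if i = l then 2 * MvPolynomial.X l else 0 := by
    intro i
    rw [Derivation.leibniz_pow, MvPolynomial.pderiv_X, Pi.single_apply]
    split_ifs with h
    · rw [h]; simp
    · simp
  rw [Finset.sum_congr rfl fun i _ => h i]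
  simp

theorem eval_pderiv (Q : MvPolynomial (Fin (n + 2)) ℂ) (l : Fin (n + 2)) :
    MvPolynomial.eval (nv n) (MvPolynomial.pderiv l (S * Q)) =
      2 * nv n l * MvPolynomial.eval (nv n) Q := by
  rw [Derivation.leibniz, pderiv_S, smul_eq_mul, smul_eq_mul, map_add, map_mul, map_mul, map_mul,
    eval_S]
  simp
  ring

/-! ### integrals -/

theorem integrable_slice {h : F n → ℂ} (hh : Continuous h) {Φ : P n → ℂ} (hΦ : Continuous Φ)
    (hs : HasCompactSupport Φ) (x : F n) : Integrable (fun q : F n => h q * Φ (x, q)) := by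
  refine Continuous.integrable_of_hasCompactSupport
    (hh.mul (hΦ.comp (by fun_prop))) ?_
  refine HasCompactSupport.intro (hs.isCompact.image continuous_snd) ?_
  intro q hq
  have : Φ (x, q) = 0 := by
    by_contra hne
    exact hq ⟨(x, q), subset_tsupport _ hne, rfl⟩
  rw [this, mul_zero]

theorem cont_fd {Ψ : P n → ℂ} (hΨ : ContDiff ℝ (⊤ : ℕ∞) Ψ) (v : P n) :
    Continuous (fun z => fderiv ℝ Ψ z v) :=
  (hΨ.continuous_fderiv (by simp)).clm_apply continuous_const

theorem supp_fd {Ψ : P n → ℂ} (hs : HasCompactSupport Ψ) (v : P n) :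
    HasCompactSupport (fun z => fderiv ℝ Ψ z v) :=
  (hs.fderiv ℝ).comp_left (g := fun A : P n →L[ℝ] ℂ => A v) (by simp)

/-- differentiation under the integral -/
theorem deriv_int {h : F n → ℂ} (hh : Continuous h) {Ψ : P n → ℂ} (hΨ : ContDiff ℝ (⊤ : ℕ∞) Ψ)
    (hs : HasCompactSupport Ψ) (x v : F n) :
    HasDerivAt (fun t : ℝ => ∫ q : F n, h q * Ψ (x + t • v, q))
      (∫ q : F n, h q * fderiv ℝ Ψ (x, q) (v, 0)) 0 := by
  have hc : Continuous (fun z : P n => h z.2 * fderiv ℝ Ψ z (v, 0)) :=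
    (hh.comp continuous_snd).mul (cont_fd hΨ _)
  have hcs : HasCompactSupport (fun z : P n => h z.2 * fderiv ℝ Ψ z (v, 0)) :=
    (supp_fd hs (v, 0)).mul_left
  obtain ⟨C, hC⟩ := hc.bounded_above_of_compact_support hcs
  have hC0 : 0 ≤ C := (norm_nonneg _).trans (hC 0)
  set K : Set (F n) := Prod.snd '' tsupport (fun z : P n => h z.2 * fderiv ℝ Ψ z (v, 0)) with hK
  have hKc : IsCompact K := hcs.isCompact.image continuous_snd
  have hd := hasDerivAt_integral_of_dominated_loc_of_deriv_le (μ := (volume : Measure (F n)))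
    (F := fun (t : ℝ) (q : F n) => h q * Ψ (x + t • v, q))
    (F' := fun (t : ℝ) (q : F n) => h q * fderiv ℝ Ψ (x + t • v, q) (v, 0))
    (x₀ := (0 : ℝ)) (s := univ) (bound := K.indicator fun _ => C) univ_mem ?_ ?_ ?_ ?_ ?_ ?_
  · have h2 := hd.2
    simpa using h2
  · refine Eventually.of_forall fun t => ?_
    exact (integrable_slice hh hΨ.continuous hs (x + t • v)).aestronglyMeasurable
  · exact integrable_slice hh hΨ.continuous hs _
  · exact (integrable_slice hh (cont_fd hΨ (v, 0)) (supp_fd hs (v, 0)) _).aestronglyMeasurable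
  · refine Eventually.of_forall fun q t _ => ?_
    by_cases hq : q ∈ K
    · rw [indicator_of_mem hq]
      exact hC (x + t • v, q)
    · rw [indicator_of_notMem hq]
      have h0 : h q * fderiv ℝ Ψ (x + t • v, q) (v, 0) = 0 := by
        by_contra hne
        exact hq ⟨(x + t • v, q), subset_tsupport _ hne, rfl⟩
      simp only [h0, norm_zero, le_refl]
  · exact (integrable_indicator_iff hKc.measurableSet).2
      (integrableOn_const hKc.measure_lt_top.ne)
  · refine Eventually.of_forall fun q t _ => ?_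
    have h1 : HasDerivAt (fun t : ℝ => ((x + t • v, q) : P n)) (v, 0) t := by
      have ha : HasDerivAt (fun t : ℝ => x + t • v) v t := by
        simpa using ((hasDerivAt_id t).smul_const v).const_add x
      exact ha.prodMk (hasDerivAt_const t q)
    have h2 : HasFDerivAt Ψ (fderiv ℝ Ψ (x + t • v, q)) (x + t • v, q) :=
      ((hΨ.differentiable (by simp)) _).hasFDerivAt
    exact (h2.comp_hasDerivAt t h1).const_mul (h q)

/-- the first integral -/
theorem int_fst {h : F n → ℂ} (hh : Continuous h) {Ψ : P n → ℂ} (hΨ : ContDiff ℝ (⊤ : ℕ∞) Ψ)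
    (hs : HasCompactSupport Ψ) {g : F n → ℂ} (hg : Differentiable ℝ g) (c : ℂ)
    (hi : ∀ x, ∫ q : F n, h q * Ψ (x, q) = c * g x) (x v : F n) :
    ∫ q : F n, h q * fderiv ℝ Ψ (x, q) (v, 0) = c * fderiv ℝ g x v := by
  have h1 := deriv_int hh hΨ hs x v
  have h2 : (fun t : ℝ => ∫ q : F n, h q * Ψ (x + t • v, q)) = fun t : ℝ => c * g (x + t • v) := by
    funext t; exact hi _
  rw [h2] at h1
  have ha : HasDerivAt (fun t : ℝ => x + t • v) v 0 := by
    simpa using ((hasDerivAt_id (0 : ℝ)).smul_const v).const_add x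
  have hgx : HasFDerivAt g (fderiv ℝ g x) (x + (0 : ℝ) • v) := by
    rw [zero_smul, add_zero]; exact (hg x).hasFDerivAt
  have h3 : HasDerivAt (fun t : ℝ => c * g (x + t • v)) (c * fderiv ℝ g x v) 0 :=
    (hgx.comp_hasDerivAt (0 : ℝ) ha).const_mul c
  exact h1.unique h3

/-- the second integral: integration by parts -/
theorem int_snd (Q : MvPolynomial (Fin (n + 2)) ℂ) {Ψ : P n → ℂ} (hΨ : ContDiff ℝ (⊤ : ℕ∞) Ψ)
    (hs : HasCompactSupport Ψ) (x : F n) (l : Fin (n + 2)) :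
    ∫ q : F n, ev Q q * fderiv ℝ Ψ (x, q) (0, e l) =
      - ∫ q : F n, ev (MvPolynomial.pderiv l Q) q * Ψ (x, q) := by
  have hd : ∀ q : F n, HasFDerivAt (fun q : F n => Ψ (x, q))
      ((fderiv ℝ Ψ (x, q)).comp (ContinuousLinearMap.inr ℝ (F n) (F n))) q := fun q =>
    (((hΨ.differentiable (by simp)) (x, q)).hasFDerivAt).comp q (hasFDerivAt_prodMk_right x q)
  have he : ∀ q : F n, fderiv ℝ (fun q : F n => Ψ (x, q)) q (e l) =
      fderiv ℝ Ψ (x, q) (0, e l) := by
    intro q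
    rw [(hd q).fderiv]
    rfl
  have h1 : ∀ q : F n, ev (MvPolynomial.pderiv l Q) q * Ψ (x, q) =
      fderiv ℝ (ev Q) q (e l) * Ψ (x, q) := fun q => by rw [fderiv_ev]
  have h2 : ∀ q : F n, ev Q q * fderiv ℝ Ψ (x, q) (0, e l) =
      ev Q q * fderiv ℝ (fun q : F n => Ψ (x, q)) q (e l) := fun q => by rw [he]
  have i1 := integrable_slice (contDiff_ev (MvPolynomial.pderiv l Q)).continuous
    hΨ.continuous hs x
  have i2 := integrable_slice (contDiff_ev Q).continuous (cont_fd hΨ (0, e l))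
    (supp_fd hs (0, e l)) x
  have i3 := integrable_slice (contDiff_ev Q).continuous hΨ.continuous hs x
  simp only [h1] at i1 ⊢
  simp only [h2] at i2 ⊢
  exact integral_mul_fderiv_eq_neg_fderiv_mul_of_integrable i1 i2 i3
    (fun q _ => differentiable_ev Q q) (fun q _ => (hd q).differentiableAt)

theorem sum_e (v : F n) : v = ∑ l, v l • e l := by
  ext i
  have h : (∑ l, v l • (e l : F n)) i = ∑ l, v l * (e l : F n) i := by
    rw [WithLp.ofLp_sum, Finset.sum_apply]
    rfl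
  rw [h]
  simp [e_apply]

/-- the derivative in coordinates -/
theorem der_eq (D : WD n) (Ψ : P n → ℂ) (x q : F n) :
    D.der Ψ (x, q) = ∑ l, ((((D.ρ x)⁻¹ : ℝ) : ℂ) * ((q l : ℂ) * fderiv ℝ Ψ (x, q) (e l, 0)) +
      (((2 * D.ρ x ^ 2)⁻¹ * fderiv ℝ D.ρ x (e l) : ℝ) : ℂ) *
        (((‖q‖ ^ 2 : ℝ) : ℂ) * fderiv ℝ Ψ (x, q) (0, e l))) := by
  have hY : D.Y (x, q) = ∑ l, (((D.ρ x)⁻¹ * q l) • ((e l, 0) : P n) +
      ((2 * D.ρ x ^ 2)⁻¹ * fderiv ℝ D.ρ x (e l) * ‖q‖ ^ 2) • ((0, e l) : P n)) := by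
    have hg : ∀ l, (gradient D.ρ x) l = fderiv ℝ D.ρ x (e l) := by
      intro l
      have h1 : inner ℝ (gradient D.ρ x) (e l) = fderiv ℝ D.ρ x (e l) := by
        rw [gradient, InnerProductSpace.toDual_symm_apply]
      rw [← h1, e, EuclideanSpace.inner_single_right]
      simp
    rw [Finset.sum_add_distrib]
    refine Prod.ext ?_ ?_
    · simp only [WD.Y, Prod.fst_add, Prod.fst_sum, Prod.smul_fst, smul_zero,
        Finset.sum_const_zero, add_zero]
      conv_lhs => rw [sum_e q]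
      rw [Finset.smul_sum]
      simp only [smul_smul]
    · simp only [WD.Y, Prod.snd_add, Prod.snd_sum, Prod.smul_snd, smul_zero,
        Finset.sum_const_zero, zero_add]
      conv_lhs => rw [sum_e (gradient D.ρ x)]
      rw [Finset.smul_sum]
      refine Finset.sum_congr rfl fun l _ => ?_
      rw [smul_smul, hg]
      congr 1
      ring
  unfold WD.der
  rw [hY, map_sum]
  refine Finset.sum_congr rfl fun l _ => ?_
  rw [map_add, map_smul, map_smul, Complex.real_smul, Complex.real_smul]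
  push_cast
  ring

theorem homX {d : ℕ} {Q : MvPolynomial (Fin (n + 2)) ℂ} (hQ : Q.IsHomogeneous d)
    (l : Fin (n + 2)) : (MvPolynomial.X l * Q).IsHomogeneous (d + 1) := by
  have h := (MvPolynomial.isHomogeneous_X ℂ l).mul hQ
  have e : 1 + d = d + 1 := by omega
  rwa [e] at h

theorem homS {d : ℕ} {Q : MvPolynomial (Fin (n + 2)) ℂ} (hQ : Q.IsHomogeneous d)
    (l : Fin (n + 2)) : (MvPolynomial.pderiv l (S * Q)).IsHomogeneous (d + 1) := by
  have h := ((S_hom (n := n)).mul hQ).pderiv (i := l)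
  have e : 2 + d - 1 = d + 1 := by omega
  rwa [e] at h

/-- the integral of `Q * der Ψ` -/
theorem main (D : WD n) {Ψ : P n → ℂ} (hΨ : D.TF Ψ) {g : F n → ℂ} (hg : Cc g)
    (Q : MvPolynomial (Fin (n + 2)) ℂ) (c : ℂ)
    (h1 : ∀ l x, ∫ q : F n, ev (MvPolynomial.X l * Q) q * Ψ (x, q) = (nv n l * c) * g x)
    (h2 : ∀ l x, ∫ q : F n, ev (MvPolynomial.pderiv l (S * Q)) q * Ψ (x, q) =
      (2 * nv n l * c) * g x) (x : F n) :
    ∫ q : F n, ev Q q * D.der Ψ (x, q) = c * D.Lo g x := by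
  have hgd : Differentiable ℝ g := hg.smooth.differentiable (by simp)
  have hρd : Differentiable ℝ D.ρ := D.ρs.differentiable (by simp)
  have hρ0 : (D.ρ x : ℂ) ≠ 0 := by
    exact_mod_cast (D.a0.trans_le (D.ρa x)).ne'
  have k1 : ∀ l, ∫ q : F n, ev (MvPolynomial.X l * Q) q * fderiv ℝ Ψ (x, q) (e l, 0) =
      (nv n l * c) * fderiv ℝ g x (e l) := fun l =>
    int_fst (contDiff_ev _).continuous hΨ.smooth hΨ.supp hgd _ (h1 l) x (e l)
  have k2 : ∀ l, ∫ q : F n, ev (S * Q) q * fderiv ℝ Ψ (x, q) (0, e l) =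
      - ((2 * nv n l * c) * g x) := fun l => by
    rw [int_snd (S * Q) hΨ.smooth hΨ.supp x l, h2 l x]
  have i1 : ∀ l, Integrable (fun q : F n => ev (MvPolynomial.X l * Q) q *
      fderiv ℝ Ψ (x, q) (e l, 0)) := fun l =>
    integrable_slice (contDiff_ev _).continuous (cont_fd hΨ.smooth _) (supp_fd hΨ.supp _) x
  have i2 : ∀ l, Integrable (fun q : F n => ev (S * Q) q *
      fderiv ℝ Ψ (x, q) (0, e l)) := fun l =>
    integrable_slice (contDiff_ev _).continuous (cont_fd hΨ.smooth _) (supp_fd hΨ.supp _) x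
  have hpt : ∀ q : F n, ev Q q * D.der Ψ (x, q) = ∑ l, ((((D.ρ x)⁻¹ : ℝ) : ℂ) *
      (ev (MvPolynomial.X l * Q) q * fderiv ℝ Ψ (x, q) (e l, 0)) +
      (((2 * D.ρ x ^ 2)⁻¹ * fderiv ℝ D.ρ x (e l) : ℝ) : ℂ) *
        (ev (S * Q) q * fderiv ℝ Ψ (x, q) (0, e l))) := by
    intro q
    rw [der_eq, Finset.mul_sum]
    refine Finset.sum_congr rfl fun l _ => ?_
    rw [ev_mul, ev_mul, ev_X, ev_S]
    ring
  simp only [hpt]
  have i3 : ∀ l ∈ (Finset.univ : Finset (Fin (n + 2))), Integrable (fun q : F n =>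
      (((D.ρ x)⁻¹ : ℝ) : ℂ) * (ev (MvPolynomial.X l * Q) q * fderiv ℝ Ψ (x, q) (e l, 0)) +
      (((2 * D.ρ x ^ 2)⁻¹ * fderiv ℝ D.ρ x (e l) : ℝ) : ℂ) *
        (ev (S * Q) q * fderiv ℝ Ψ (x, q) (0, e l))) := fun l _ =>
    ((i1 l).const_mul _).add ((i2 l).const_mul _)
  rw [integral_finsetSum _ i3]
  have hl : ∀ l, ∫ q : F n, ((((D.ρ x)⁻¹ : ℝ) : ℂ) *
      (ev (MvPolynomial.X l * Q) q * fderiv ℝ Ψ (x, q) (e l, 0)) +
      (((2 * D.ρ x ^ 2)⁻¹ * fderiv ℝ D.ρ x (e l) : ℝ) : ℂ) *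
        (ev (S * Q) q * fderiv ℝ Ψ (x, q) (0, e l))) = c * (nv n l *
      fderiv ℝ (fun y => g y / (D.ρ y : ℂ)) x (e l)) := by
    intro l
    rw [integral_add ((i1 l).const_mul _) ((i2 l).const_mul _), integral_const_mul,
      integral_const_mul, k1, k2]
    have hq : HasFDerivAt (fun y => ((D.ρ y : ℝ) : ℂ)) (Complex.ofRealCLM.comp (fderiv ℝ D.ρ x)) x :=
      Complex.ofRealCLM.hasFDerivAt.comp x (hρd x).hasFDerivAt
    have hI : HasFDerivAt (fun y => ((D.ρ y : ℝ) : ℂ)⁻¹)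
        ((-((D.ρ x : ℂ) ^ 2)⁻¹) • (Complex.ofRealCLM.comp (fderiv ℝ D.ρ x))) x :=
      (hasDerivAt_inv hρ0).comp_hasFDerivAt x hq
    have hdiv := ((hgd x).hasFDerivAt.mul hI).fderiv
    have hfe : fderiv ℝ (fun y => g y / (D.ρ y : ℂ)) x (e l) =
        g x * (-((D.ρ x : ℂ) ^ 2)⁻¹ * ((fderiv ℝ D.ρ x (e l) : ℝ) : ℂ)) +
          (D.ρ x : ℂ)⁻¹ * fderiv ℝ g x (e l) := by
      have hfun : (fun y => g y / (D.ρ y : ℂ)) = g * fun y => ((D.ρ y : ℝ) : ℂ)⁻¹ := by
        funext y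
        exact div_eq_mul_inv _ _
      rw [hfun, hdiv]
      rfl
    rw [hfe]
    push_cast
    field_simp
    ring
  rw [Finset.sum_congr rfl fun l _ => hl l, ← Finset.mul_sum, sum_nv]
  rfl

end NRSAux

open NRSAux in
theorem nrs : Stmt_NRS := by
  intro n D r g Ψ hΨ hg hN d hd Q hQ x
  by_cases hdr : d = r
  · subst hdr
    rw [if_pos rfl]
    refine main D hΨ hg Q _ (fun l x => ?_) (fun l x => ?_) x
    · rw [hN (d + 1) le_rfl _ (homX hQ l) x, if_pos rfl, map_mul, MvPolynomial.eval_X]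
    · rw [hN (d + 1) le_rfl _ (homS hQ l) x, if_pos rfl, eval_pderiv]
  · rw [if_neg hdr]
    have h := main D hΨ hg Q 0 (fun l x => ?_) (fun l x => ?_) x
    · rw [h, zero_mul]
    · rw [hN (d + 1) (by omega) _ (homX hQ l) x, if_neg (by omega)]; simp
    · rw [hN (d + 1) (by omega) _ (homS hQ l) x, if_neg (by omega)]; simp

end Pool.Agent.WPD
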