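import Pool.Agent.WPD.Stmts
import Pool.Agent.Lib_helper92.XRay.Dom

/-!
# Injectivity of the geodesic X-ray transform for warped products

The points of `ℝ^N = ℝ × ℝ^{n+2} × ℝ^m`, `N = n + m + 3`, are written `z = (t, x, w)`. Let `G` be a
Riemannian metric on `ℝ^N` which on the slices `w = const` is the warped product
`α(t) dt² + β(t) ρ(x) |dx|²`, the slices being orthogonal to the last `m` directions. Nothing is assumed
on the values of `G` on the last `m` directions. (For `N = 3`: `G` is an arbitrary warped product over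
an interval with a surface as fibre.)
-/

set_option autoImplicit false

open MeasureTheory Set Pool.Agent.XRay

namespace Pool.Agent.WPD

/-- `G` is a metric of this type. -/
structure WarpedSlices {n m : ℕ} (G : T n m → T n m →L[ℝ] T n m →L[ℝ] ℝ) (α β : ℝ → ℝ)
    (ρ : F n → ℝ) : Prop where
  metric : IsMetric G
  smooth : ContDiff ℝ (⊤ : ℕ∞) ρ
  pos₁ : ∀ t, 0 < β t
  pos₂ : ∀ x, 0 < ρ x
  slice : ∀ z v v' : T n m, v.2.2 = 0 →
    G z v v' = α z.1 * (v.1 * v'.1) + β z.1 * ρ z.2.1 * inner ℝ v.2.1 v'.2.1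

/-- The integrals of `f` vanish along the maximal segments in `M` of the unit speed geodesics which
are contained in the slices `w = const` and satisfy the condition `Q`. -/
def SegZero {n m : ℕ} (G : T n m → T n m →L[ℝ] T n m →L[ℝ] ℝ) (M : Set (T n m)) (f : T n m → ℝ)
    (Q : T n m → T n m → Prop) : Prop :=
  ∀ (γ : ℝ → T n m) (u v s t : ℝ), u < s → s < t → t < v → UnitGeodesicOn G γ (Ioo u v) →
    (∀ τ ∈ Ioo u v, (deriv γ τ).2.2 = 0 ∧ Q (γ τ) (deriv γ τ)) →
    MaximalSegment M γ s t → ∫ τ in s..t, f (γ τ) = 0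

theorem preview (hA : Stmt_ABS) (hMe : Stmt_MET) (n m : ℕ)
    (G : T n m → T n m →L[ℝ] T n m →L[ℝ] ℝ) (α β : ℝ → ℝ) (ρ : F n → ℝ)
    (hG : WarpedSlices G α β ρ) :
    (∀ (M : Set (T n m)) (f : T n m → ℝ) (δ : ℝ), IsCompact M → volume (frontier M) = 0 →
      ContinuousOn f M → 0 < δ →
      SegZero G M f (fun z v => β z.1 ^ 2 * ρ z.2.1 * ‖v.2.1‖ ^ 2 < δ) →
      ∀ z ∈ closure (interior M), f z = 0) ∧
    (∀ r f : T n m → ℝ, ContDiff ℝ 1 r → (∀ z, r z = 0 → fderiv ℝ r z ≠ 0) →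
      IsCompact {z | 0 ≤ r z} → ContinuousOn f {z | 0 ≤ r z} →
      SegZero G {z | 0 ≤ r z} f (fun _ _ => True) → ∀ z, 0 ≤ r z → f z = 0) := by
  have hM := hMe n m G α β ρ hG.metric hG.slice hG.smooth hG.pos₁ hG.pos₂
  have p1 : ∀ (M : Set (T n m)) (f : T n m → ℝ) (δ : ℝ), IsCompact M → volume (frontier M) = 0 →
      ContinuousOn f M → 0 < δ →
      SegZero G M f (fun z v => β z.1 ^ 2 * ρ z.2.1 * ‖v.2.1‖ ^ 2 < δ) →
      ∀ z ∈ closure (interior M), f z = 0 := by
    intro M f δ h1 h2 h3 h4 h5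
    exact hA n m G α β ρ hM M f δ h1 h2 h3 h4 h5
  refine ⟨p1, ?_⟩
  intro r f hr hd hc hf h0 z hz
  have := haarT n m
  refine p1 {z | 0 ≤ r z} f 1 hc (regular_null hr hd volume) hf one_pos ?_ z
    (regular_closure hr hd hz)
  intro γ u v s t hus hst htv hγ hP hseg
  exact h0 γ u v s t hus hst htv hγ (fun τ hτ => ⟨(hP τ hτ).1, trivial⟩) hseg

end Pool.Agent.WPD
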