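import Pool.Agent.WPD.Defs

/-!
# Warped products: the statements

The paper proofs are in `PAPER.md`, one section for each statement.
-/

set_option autoImplicit false

namespace Pool.Agent.WPD

open MeasureTheory Set Filter Topology

/-! ### flows -/

/-- the global flow of a Lipschitz vector field -/
def Stmt_GF : Prop := ∀ (V : Type) [NormedAddCommGroup V] [NormedSpace ℝ V] [CompleteSpace V]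
  (Z : V → V) (L : NNReal), LipschitzWith L Z → ∃ φ : ℝ → V → V, (∀ z, φ 0 z = z) ∧
    (∀ s t z, φ (s + t) z = φ s (φ t z)) ∧ Continuous (fun p : ℝ × V => φ p.1 p.2) ∧
    ∀ s z, HasDerivAt (fun r => φ r z) (Z (φ s z)) s

/-- the flow of a divergence free vector field preserves the Lebesgue measure -/
def Stmt_LV : Prop := ∀ (V : Type) [NormedAddCommGroup V] [NormedSpace ℝ V]
  [FiniteDimensional ℝ V] [MeasurableSpace V] [BorelSpace V] (μ : Measure V) [μ.IsAddHaarMeasure]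
  (Z : V → V) (L : NNReal) (C : ℝ), ContDiff ℝ 1 Z → LipschitzWith L Z → (∀ z, ‖Z z‖ ≤ C) →
  (∀ z, LinearMap.trace ℝ V (fderiv ℝ Z z).toLinearMap = 0) → ∀ φ : ℝ → V → V,
  (∀ z, φ 0 z = z) → (∀ s t z, φ (s + t) z = φ s (φ t z)) →
  Continuous (fun p : ℝ × V => φ p.1 p.2) →
  (∀ s z, HasDerivAt (fun r => φ r z) (Z (φ s z)) s) → ∀ s, MeasurePreserving (φ s) μ μ

/-- the geodesic vector field, cut off at large energies -/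
def Stmt_ZX : Prop := ∀ (n : ℕ) (D : WD n), ∃ (Z : P n → P n) (L : NNReal) (C : ℝ),
  ContDiff ℝ 1 Z ∧ LipschitzWith L Z ∧ (∀ z, ‖Z z‖ ≤ C) ∧
  (∀ z, LinearMap.trace ℝ (P n) (fderiv ℝ Z z).toLinearMap = 0) ∧
  (∀ z, fderiv ℝ D.k z (Z z) = 0) ∧ ∀ z, D.k z ≤ 4 → Z z = D.Y z

/-- the geodesic flow of the fibre -/
def Stmt_BF : Prop := ∀ (n : ℕ) (D : WD n), ∃ φ, D.Flow φ

/-- the flow for a time depending on the energy preserves the measure -/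
def Stmt_MPG : Prop := ∀ (n : ℕ) (D : WD n) (φ : ℝ → P n → P n), D.Flow φ → ∀ G : ℝ → ℝ,
  Continuous G → MeasurePreserving (fun z => φ (G (D.k z)) z) volume volume

/-! ### the functions of `t` -/

/-- facts on `sg` and `w` -/
structure Sgf {n : ℕ} (D : WD n) (C : ℝ) : Prop where
  C0 : 0 < C
  sgc : Continuous (fun p : ℝ × ℝ => D.sg (min p.1 (D.a / 2)) p.2)
  wc : Continuous (fun p : ℝ × ℝ => D.w (min p.1 (D.a / 2)) p.2)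
  sgb : ∀ κ t, 0 ≤ κ → κ ≤ D.a / 2 → |D.sg κ t| ≤ C * |t|
  wl : ∀ κ t, 0 ≤ κ → κ ≤ D.a / 2 → C⁻¹ ≤ D.w κ t
  wu : ∀ κ t, 0 ≤ κ → κ ≤ D.a / 2 → D.w κ t ≤ C
  sgd : ∀ κ t, κ ≤ D.a / 2 → HasDerivAt (D.sg κ) (√(D.α t) / (√(D.β t) * √(D.β t - κ))) t

def Stmt_SG : Prop := ∀ (n : ℕ) (D : WD n), ∃ C, Sgf D C

/-- expansion in powers of `κ` -/
def Stmt_EXP : Prop := ∀ (n : ℕ) (D : WD n) (i J : ℕ), ∃ C, ∀ t, |t| ≤ D.R → ∀ κ, 0 ≤ κ →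
  κ ≤ D.a / 2 → |D.sg κ t ^ i * D.w κ t - ∑ m ∈ Finset.range (J + 1), D.co i m t * κ ^ m| ≤
    C * κ ^ (J + 1)

/-- the coefficients are continuous -/
def Stmt_COC : Prop := ∀ (n : ℕ) (D : WD n) (i m : ℕ), Continuous (D.co i m)

/-! ### the order identities -/

def Stmt_DTF : Prop := ∀ (n : ℕ) (D : WD n) (Ψ : P n → ℂ), D.TF Ψ → D.TF (D.der Ψ)

/-- Taylor expansion along the flow -/
def Stmt_TAY : Prop := ∀ (n : ℕ) (D : WD n) (φ : ℝ → P n → P n), D.Flow φ → ∀ Ψ : P n → ℂ,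
  D.TF Ψ → ∀ j : ℕ, ∃ C : ℝ, ∀ s z,
    ‖Ψ (φ s z) - ∑ i ∈ Finset.range (j + 1), ((s : ℂ) ^ i / (i.factorial : ℂ)) *
      (D.der^[i] Ψ) z‖ ≤ C * |s| ^ (j + 1)

/-- the data after the change of variables -/
def Stmt_CHG : Prop := ∀ (n : ℕ) (D : WD n) (φ : ℝ → P n → P n), D.Flow φ → ∀ ε : ℝ, 0 < ε →
  ε ^ 2 ≤ D.a / 2 → D.Zero φ ε → ∀ Ψ : P n → ℂ, D.TF Ψ →
  ∫ t : ℝ, ∫ z : P n, (D.f t z.1 : ℂ) * Ψ (φ (-(ε * D.sg (ε ^ 2 * D.k z) t)) z) *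
    (D.w (ε ^ 2 * D.k z) t : ℂ) = 0

/-- the coefficient of `ε^j` -/
def Stmt_ORD : Prop := ∀ (n : ℕ) (D : WD n) (φ : ℝ → P n → P n), D.Flow φ → ∀ ε₀ : ℝ, 0 < ε₀ →
  (∀ ε, 0 < ε → ε < ε₀ → D.Zero φ ε) → ∀ Ψ : P n → ℂ, D.TF Ψ → ∀ j : ℕ,
  ∑ m ∈ Finset.range (j / 2 + 1), ((-1 : ℂ) ^ (j - 2 * m) / ((j - 2 * m).factorial : ℂ)) *
    ∫ t : ℝ, ∫ z : P n, (D.f t z.1 : ℂ) * (D.co (j - 2 * m) m t : ℂ) * (D.k z : ℂ) ^ m *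
      (D.der^[j - 2 * m] Ψ) z = 0

/-! ### the isotropic direction -/

def Stmt_LOC : Prop := ∀ (n : ℕ) (D : WD n) (g : F n → ℂ), Cc g → Cc (D.Lo g)

def Stmt_NRS : Prop := ∀ (n : ℕ) (D : WD n) (r : ℕ) (g : F n → ℂ) (Ψ : P n → ℂ), D.TF Ψ →
  Cc g → Nr (r + 1) g Ψ → Nr r (D.Lo g) (D.der Ψ)

def Stmt_TST : Prop := ∀ (n : ℕ) (D : WD n) (j : ℕ) (g : F n → ℂ), Cc g →
  ∃ Ψ : P n → ℂ, D.TF Ψ ∧ Nr j g Ψ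

/-- the key identity -/
def Stmt_KEY : Prop := ∀ (n : ℕ) (D : WD n) (φ : ℝ → P n → P n), D.Flow φ → ∀ ε₀ : ℝ, 0 < ε₀ →
  (∀ ε, 0 < ε → ε < ε₀ → D.Zero φ ε) → ∀ (j : ℕ) (g : F n → ℂ), Cc g →
  ∫ x : F n, (D.M j x : ℂ) * (D.Lo^[j] g) x = 0

/-- the equation `(∂_0 + i ∂_1) k = h` -/
def Stmt_DB : Prop := ∀ (n : ℕ) (h : F n → ℂ) (R : ℝ), Cc h → ∃ k : F n → ℂ,
  ContDiff ℝ (⊤ : ℕ∞) k ∧ ∀ x, ‖x‖ < R → fderiv ℝ k x (EuclideanSpace.single 0 1) +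
    Complex.I * fderiv ℝ k x (EuclideanSpace.single 1 1) = h x

def Stmt_SOL : Prop := ∀ (n : ℕ) (D : WD n) (j : ℕ) (χ : F n → ℂ) (R : ℝ), Cc χ →
  ∃ g : F n → ℂ, Cc g ∧ ∀ x, ‖x‖ ≤ R → (D.Lo^[j] g) x = χ x

def Stmt_MZ : Prop := ∀ (n : ℕ) (D : WD n),
  (∀ (j : ℕ) (g : F n → ℂ), Cc g → ∫ x : F n, (D.M j x : ℂ) * (D.Lo^[j] g) x = 0) →
  ∀ j : ℕ, ∀ᵐ x : F n, D.M j x = 0

def Stmt_MOM : Prop := ∀ (n : ℕ) (D : WD n), (∀ j : ℕ, ∀ᵐ x : F n, D.M j x = 0) →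
  ∀ᵐ p : ℝ × F n, D.f p.1 p.2 = 0

/-- **the analytic core** -/
def Stmt_CORE : Prop := ∀ (n : ℕ) (D : WD n) (φ : ℝ → P n → P n), D.Flow φ → ∀ ε₀ : ℝ, 0 < ε₀ →
  (∀ ε, 0 < ε → ε < ε₀ → D.Zero φ ε) → ∀ᵐ p : ℝ × F n, D.f p.1 p.2 = 0

/-! ### the geometric part -/

/-- null sets along the curves -/
def Stmt_NUL : Prop := ∀ (n : ℕ) (D : WD n) (φ : ℝ → P n → P n), D.Flow φ → ∀ ε : ℝ, 0 < ε →
  ε ^ 2 ≤ D.a / 2 → ∀ N : Set (ℝ × F n), MeasurableSet N → volume N = 0 →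
  ∀ᵐ z : P n, D.k z < 1 → ∀ᵐ t : ℝ, (t, (φ (ε * D.sg (ε ^ 2 * D.k z) t) z).1) ∉ N

/-- the hypotheses on the metric -/
structure Met {n m : ℕ} (G : T n m → T n m →L[ℝ] T n m →L[ℝ] ℝ) (α β : ℝ → ℝ) (ρ : F n → ℝ) :
    Prop where
  metric : Pool.Agent.XRay.IsMetric G
  warp : Warp G α β ρ
  αd : Differentiable ℝ α
  βd : Differentiable ℝ β
  ρs : ContDiff ℝ (⊤ : ℕ∞) ρ
  α0 : ∀ t, 0 < α t
  β0 : ∀ t, 0 < β t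
  ρ0 : ∀ x, 0 < ρ x

/-- `α`, `β` are differentiable and `α > 0` -/
def Stmt_MET : Prop := ∀ (n m : ℕ) (G : T n m → T n m →L[ℝ] T n m →L[ℝ] ℝ) (α β : ℝ → ℝ)
  (ρ : F n → ℝ), Pool.Agent.XRay.IsMetric G → Warp G α β ρ → ContDiff ℝ (⊤ : ℕ∞) ρ →
  (∀ t, 0 < β t) → (∀ x, 0 < ρ x) → Met G α β ρ

/-- **the curves are geodesics** -/
def Stmt_GEO : Prop := ∀ (n m : ℕ) (G : T n m → T n m →L[ℝ] T n m →L[ℝ] ℝ) (α β : ℝ → ℝ)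
  (ρ : F n → ℝ), Met G α β ρ → ∀ (D : WD n) (φ : ℝ → P n → P n), D.Flow φ → ∀ ε : ℝ, 0 < ε →
  ε ^ 2 ≤ D.a / 2 → ∀ (z : P n) (w₀ : EuclideanSpace ℝ (Fin m)) (L S : ℝ → ℝ), D.k z < 1 →
  (∀ t, HasDerivAt L (D.w (ε ^ 2 * D.k z) t) t) → (∀ t, S (L t) = t) → (∀ τ, L (S τ) = τ) →
  ∀ a' b' : ℝ, a' < b' →
  (∀ t ∈ Ioo a' b', (∀ᶠ s in 𝓝 t, D.α s = α s ∧ D.β s = β s) ∧
    ∀ᶠ x in 𝓝 (cv D φ ε z m w₀ t).2.1, D.ρ x = ρ x) →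
  Pool.Agent.XRay.UnitGeodesicOn G (fun τ => cv D φ ε z m w₀ (S τ)) (Ioo (L a') (L b')) ∧
  ∀ τ ∈ Ioo (L a') (L b'), HasDerivAt (fun τ => cv D φ ε z m w₀ (S τ))
    ((D.w (ε ^ 2 * D.k z) (S τ))⁻¹,
      (ε / (D.β (S τ) * D.ρ (φ (ε * D.sg (ε ^ 2 * D.k z) (S τ)) z).1)) •
        (φ (ε * D.sg (ε ^ 2 * D.k z) (S τ)) z).2, 0) τ

/-- **the integrals along the curves vanish** -/
def Stmt_SEG : Prop := ∀ (n m : ℕ) (G : T n m → T n m →L[ℝ] T n m →L[ℝ] ℝ) (α β : ℝ → ℝ)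
  (ρ : F n → ℝ), Met G α β ρ → ∀ (M : Set (T n m)) (f : T n m → ℝ) (δ : ℝ), IsCompact M →
  ContinuousOn f M → SliceZero G β ρ M f δ → ∀ (D : WD n) (φ : ℝ → P n → P n), D.Flow φ →
  ∀ ε : ℝ, 0 < ε → ε ^ 2 ≤ D.a / 2 → ε ^ 2 ≤ δ → ∀ (z : P n) (w₀ : EuclideanSpace ℝ (Fin m)),
  D.k z < 1 →
  (∀ p ∈ M, (∀ᶠ s in 𝓝 p.1, D.α s = α s ∧ D.β s = β s) ∧ ∀ᶠ x in 𝓝 p.2.1, D.ρ x = ρ x) →
  (∀ᵐ t : ℝ, cv D φ ε z m w₀ t ∉ frontier M) →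
  ∫ t : ℝ, M.indicator f (cv D φ ε z m w₀ t) * D.w (ε ^ 2 * D.k z) t = 0

/-- modification of `ρ` far away -/
def Stmt_MOD : Prop := ∀ (n : ℕ) (ρ : F n → ℝ) (R : ℝ), ContDiff ℝ (⊤ : ℕ∞) ρ → (∀ x, 0 < ρ x) →
  ∃ (ρ' : F n → ℝ) (a B R' c : ℝ), 0 < a ∧ ContDiff ℝ (⊤ : ℕ∞) ρ' ∧ (∀ x, a ≤ ρ' x ∧ ρ' x ≤ B) ∧
    (∀ x, R' ≤ ‖x‖ → ρ' x = c) ∧ ∀ x, ‖x‖ < R → ρ' x = ρ x

/-- **the theorem** -/
def Stmt_ABS : Prop := ∀ (n m : ℕ) (G : T n m → T n m →L[ℝ] T n m →L[ℝ] ℝ) (α β : ℝ → ℝ)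
  (ρ : F n → ℝ), Met G α β ρ → ∀ (M : Set (T n m)) (f : T n m → ℝ) (δ : ℝ), IsCompact M →
  volume (frontier M) = 0 → ContinuousOn f M → 0 < δ → SliceZero G β ρ M f δ →
  ∀ z ∈ closure (interior M), f z = 0

end Pool.Agent.WPD
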